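import Pool.Agent.Lib.MP_c831ba_nt.Defs

/-!
The basic relation: a prime dividing `m ^ d + 1` and `n ^ d + 1` divides `ZN d J h g` if
`n h ^ J = m ^ J g`, and `ZN d J h g ≠ 0` for partners `m ≥ 3`, `n`.
-/

namespace Pool.Agent.Lib.MP_c831ba_nt

private lemma zmod2_neg : (-1 : ZMod 2) = 1 := by decide

private lemma zmod2_ne : (0 : ZMod 2) ≠ 1 := by decide

theorem key_dvd {d m n h g J q : ℕ} (hrel : n * h ^ J = m ^ J * g) (hqm : q ∣ m ^ d + 1)
    (hqn : q ∣ n ^ d + 1) : q ∣ ZN d J h g := by
  unfold ZN
  rw [← Int.natCast_dvd]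
  have e1 : ((m : ZMod q)) ^ d = -1 := by
    have h1 := (ZMod.natCast_eq_zero_iff (m ^ d + 1) q).2 hqm
    push_cast at h1
    exact eq_neg_of_add_eq_zero_left h1
  have e2 : ((n : ZMod q)) ^ d = -1 := by
    have h1 := (ZMod.natCast_eq_zero_iff (n ^ d + 1) q).2 hqn
    push_cast at h1
    exact eq_neg_of_add_eq_zero_left h1
  have e3 : (n : ZMod q) * (h : ZMod q) ^ J = (m : ZMod q) ^ J * (g : ZMod q) := by
    have h1 := congrArg (Nat.cast : ℕ → ZMod q) hrel
    push_cast at h1
    exact h1
  rw [← ZMod.intCast_zmod_eq_zero_iff_dvd]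
  push_cast
  have e4 : ((n : ZMod q) * (h : ZMod q) ^ J) ^ d = ((m : ZMod q) ^ J * (g : ZMod q)) ^ d := by
    rw [e3]
  rw [mul_pow, mul_pow, e2, ← pow_mul, ← pow_mul, mul_comm J d, pow_mul (m : ZMod q) d J, e1] at e4
  rw [← e4]
  ring

theorem key_ne {d m n h g J : ℕ} (hd : 1 ≤ d) (hm : 3 ≤ m) (hP : Partner d m n) (hh : 1 ≤ h)
    (hJ : 1 ≤ J) (hrel : n * h ^ J = m ^ J * g) : ZN d J h g ≠ 0 := by
  obtain ⟨hn1, hnm, hpf, hpf1⟩ := hP
  intro h0
  unfold ZN at h0
  rw [Int.natAbs_eq_zero] at h0
  have hhJ : (0 : ℤ) < (h : ℤ) ^ (d * J) := by positivity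
  rcases Nat.even_or_odd J with hJe | hJo
  · rw [hJe.neg_one_pow, one_mul] at h0
    have : (0 : ℤ) ≤ (g : ℤ) ^ d := by positivity
    linarith
  · rw [hJo.neg_one_pow] at h0
    have h1 : (h : ℤ) ^ (d * J) = (g : ℤ) ^ d := by linarith
    have h2 : (h ^ J) ^ d = g ^ d := by
      have : h ^ (d * J) = g ^ d := by exact_mod_cast h1
      rw [← this, ← pow_mul, mul_comm]
    have h3 : h ^ J = g := Nat.pow_left_injective (by omega) h2
    have h4 : n = m ^ J := by
      have h5 : 0 < h ^ J := by positivity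
      rw [← h3] at hrel
      exact Nat.eq_of_mul_eq_mul_right h5 hrel
    rcases Nat.lt_or_ge J 2 with hJ2 | hJ2
    · have : J = 1 := by omega
      rw [this, pow_one] at h4
      exact hnm h4
    have hJ3 : 3 ≤ J := by
      rcases hJo with ⟨k, hk⟩
      omega
    obtain ⟨M, hM⟩ : ∃ M, M = m ^ d := ⟨_, rfl⟩
    have hM3 : 3 ≤ M := by
      rw [hM]
      calc 3 ≤ m := hm
        _ = m ^ 1 := (pow_one m).symm
        _ ≤ m ^ d := Nat.pow_le_pow_right (by omega) hd
    have hn : n ^ d = M ^ J := by rw [h4, hM, ← pow_mul, ← pow_mul, mul_comm]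
    rw [hn, ← hM] at hpf1
    -- `Q = (M^J+1)/(M+1)`
    have hdvd : M + 1 ∣ M ^ J + 1 := by
      have := Odd.nat_add_dvd_pow_add_pow M 1 hJo
      simpa using this
    obtain ⟨Q, hQ⟩ := hdvd
    have hQ0 : Q ≠ 0 := by
      rintro rfl
      simp at hQ
    have hM1 : M + 1 ≠ 0 := by omega
    have hQJ : Q ∣ J := by
      rw [← Nat.factorization_le_iff_dvd hQ0 (by omega)]
      intro q
      by_cases hq : q.Prime
      · have : Fact q.Prime := ⟨hq⟩
        by_cases hqQ : q ∣ Q
        · have hqMJ : q ∣ M ^ J + 1 := hQ ▸ (hqQ.mul_left _)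
          have hqM : q ∣ M + 1 := by
            have : q ∈ (M ^ J + 1).primeFactors := Nat.mem_primeFactors.2 ⟨hq, hqMJ, by omega⟩
            rw [hpf1] at this
            exact Nat.dvd_of_mem_primeFactors this
          have hqnM : ¬ q ∣ M := by
            intro hc
            have : q ∣ 1 := (Nat.dvd_add_right hc).1 hqM
            exact hq.one_lt.ne' (Nat.dvd_one.1 this)
          have hqodd : Odd q := by
            rcases hq.eq_two_or_odd' with rfl | h
            · exfalso
              -- `Q` is odd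
              have hQodd : ¬ 2 ∣ Q := by
                intro h2Q
                have hMo : Odd M := by
                  rw [← Nat.not_even_iff_odd, even_iff_two_dvd]; exact hqnM
                have hQs : (Q : ℤ) = ∑ i ∈ Finset.range J, (-(M : ℤ)) ^ i := by
                  have h7 := mul_geom_sum (-(M : ℤ)) J
                  rw [hJo.neg_pow] at h7
                  have h8 : ((M : ℤ) + 1) * Q = (M : ℤ) ^ J + 1 := by exact_mod_cast hQ.symm
                  have h9 : ((M : ℤ) + 1) ≠ 0 := by positivity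
                  have h10 : ((M : ℤ) + 1) * Q =
                      ((M : ℤ) + 1) * ∑ i ∈ Finset.range J, (-(M : ℤ)) ^ i := by linarith
                  exact mul_left_cancel₀ h9 h10
                have hM2 : ((M : ℤ) : ZMod 2) = 1 := by
                  rw [Int.cast_natCast]
                  exact ZMod.natCast_eq_one_iff_odd.2 hMo
                have hQ2 : ((Q : ℤ) : ZMod 2) = 1 := by
                  rw [hQs]
                  push_cast
                  push_cast at hM2
                  rw [hM2]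
                  rw [zmod2_neg]
                  simp only [one_pow, Finset.sum_const, Finset.card_range, nsmul_eq_mul, mul_one]
                  exact ZMod.natCast_eq_one_iff_odd.2 hJo
                rw [Int.cast_natCast, (ZMod.natCast_eq_zero_iff Q 2).2 h2Q] at hQ2
                exact absurd hQ2 zmod2_ne
              exact hQodd hqQ
            · exact h
          have := padicValNat.pow_add_pow (x := M) (y := 1) (p := q) hqodd (by simpa using hqM)
            hqnM hJo
          rw [one_pow, hQ, padicValNat.mul hM1 hQ0] at this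
          rw [Nat.factorization_def _ hq, Nat.factorization_def _ hq]
          omega
        · rw [Nat.factorization_eq_zero_of_not_dvd hqQ]
          exact Nat.zero_le _
      · rw [Nat.factorization_eq_zero_of_not_prime _ hq]
        exact Nat.zero_le _
    have hQle : Q ≤ J := Nat.le_of_dvd (by omega) hQJ
    have h3J : ∀ k : ℕ, 2 * (k + 3) ≤ 3 ^ (k + 2) := by
      intro k
      induction k with
      | zero => norm_num
      | succ k ih =>
        have : 3 ^ (k + 1 + 2) = 3 * 3 ^ (k + 2) := by ring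
        omega
    obtain ⟨k, rfl⟩ : ∃ k, J = k + 3 := ⟨J - 3, by omega⟩
    have h11 : 3 ^ (k + 2) ≤ M ^ (k + 2) := Nat.pow_le_pow_left hM3 _
    have h12 : M * (2 * (k + 3)) ≤ M ^ (k + 3) := by
      calc M * (2 * (k + 3)) ≤ M * M ^ (k + 2) := Nat.mul_le_mul_left _ ((h3J k).trans h11)
        _ = M ^ (k + 3) := by ring
    have h13 : (M + 1) * Q ≤ (M + 1) * (k + 3) := Nat.mul_le_mul_left _ hQle
    have h14 : (M + 1) * (k + 3) ≤ M * (2 * (k + 3)) := by nlinarith
    omega

end Pool.Agent.Lib.MP_c831ba_nt
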