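import Pool.Agent.Lib.MP_c831ba_nt.Defs

/-!
Module CountK: numbers with few primes from a given set.

`countK`: define `T : ℕ → Finset ℕ`, `T 0 = {1}`, `T (k + 1)` = the image of `(insert 1 W) ×ˢ range (E + 1) ×ˢ T k`
under `(p, v, n) ↦ p ^ v * n`. Then `#(T k) ≤ ((#W + 1) * (E + 1)) ^ k` (`Finset.card_image_le`, `card_product`,
`card_insert_le`). Claim: every `n ≠ 0` with `n.primeFactors ⊆ W`, `#n.primeFactors ≤ k` and all exponents `≤ E` lies in
`T k`. Induction on `k`: for `k = 0` the number is `1`. For `k + 1`: if `n` has no prime then `n = 1 = 1 ^ 0 * 1` and `1`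
lies in `T k` (the claim for `k`). Otherwise take a prime `p` of `n`, `n = p ^ v * n'` with `v = n.factorization p`
(`Nat.ordProj_mul_ordCompl_eq_self`); `n'` has the primes of `n` without `p` and the same exponents there.
`countRad`: the map `n ↦ (fun p => n.factorization p)` restricted to `A` is injective on `S`
(`Nat.eq_of_factorization_eq`, outside `A` the exponents are `0`) with values in `Fintype.piFinset`/`Finset.pi A (range (E + 1))`
(`Finset.card_pi`); or `n ↦ ∏`-free: use `Finset.pi A fun _ => range (E + 1)` and `Finset.card_le_card_of_injOn`.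
-/

namespace Pool.Agent.Lib.MP_c831ba_nt

open Finset

private def TT (W : Finset ℕ) (E : ℕ) : ℕ → Finset ℕ
  | 0 => {1}
  | k + 1 => ((insert 1 W) ×ˢ range (E + 1) ×ˢ TT W E k).image (fun x => x.1 ^ x.2.1 * x.2.2)

private theorem TT_card (W : Finset ℕ) (E k : ℕ) : #(TT W E k) ≤ ((#W + 1) * (E + 1)) ^ k := by
  induction k with
  | zero => simp [TT]
  | succ k ih =>
    rw [TT]
    refine card_image_le.trans ?_
    rw [card_product, card_product, card_range]
    have h1 := card_insert_le 1 W
    calc #(insert 1 W) * ((E + 1) * #(TT W E k))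
        ≤ (#W + 1) * ((E + 1) * ((#W + 1) * (E + 1)) ^ k) := by gcongr
      _ = ((#W + 1) * (E + 1)) ^ (k + 1) := by ring

private theorem TT_one (W : Finset ℕ) (E k : ℕ) : 1 ∈ TT W E k := by
  induction k with
  | zero => simp [TT]
  | succ k ih =>
    rw [TT, mem_image]
    exact ⟨(1, 0, 1), by simp [ih], by simp⟩

private theorem TT_mem (W : Finset ℕ) (E : ℕ) : ∀ k n, n ≠ 0 → n.primeFactors ⊆ W →
    #n.primeFactors ≤ k → (∀ p, n.factorization p ≤ E) → n ∈ TT W E k := by
  intro k
  induction k with
  | zero =>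
    intro n hn hW hk hE
    have h0 : n.primeFactors = ∅ := card_eq_zero.mp (Nat.le_zero.mp hk)
    rcases Nat.primeFactors_eq_empty.mp h0 with h | h
    · exact absurd h hn
    · rw [h]; exact TT_one W E 0
  | succ k ih =>
    intro n hn hW hk hE
    by_cases he : n.primeFactors = ∅
    · rcases Nat.primeFactors_eq_empty.mp he with h | h
      · exact absurd h hn
      · rw [h]; exact TT_one W E (k + 1)
    · obtain ⟨p, hp⟩ := nonempty_iff_ne_empty.mpr he
      rw [TT, mem_image]
      refine ⟨(p, n.factorization p, n / p ^ n.factorization p), ?_,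
        Nat.ordProj_mul_ordCompl_eq_self n p⟩
      rw [mem_product, mem_product]
      refine ⟨mem_insert_of_mem (hW hp), mem_range.mpr (Nat.lt_succ_of_le (hE p)), ?_⟩
      have hfac : (n / p ^ n.factorization p).factorization = n.factorization.erase p :=
        Nat.factorization_ordCompl n p
      have hpf : (n / p ^ n.factorization p).primeFactors = n.primeFactors.erase p := by
        rw [← Nat.support_factorization, hfac, Finsupp.support_erase, Nat.support_factorization]
      refine ih _ (Nat.ordCompl_pos p hn).ne' ?_ ?_ ?_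
      · rw [hpf]; exact (erase_subset _ _).trans hW
      · rw [hpf, card_erase_of_mem hp]; omega
      · intro q
        rw [hfac]
        by_cases hq : q = p
        · rw [hq, Finsupp.erase_same]; exact Nat.zero_le _
        · rw [Finsupp.erase_ne hq]; exact hE q

theorem countK (W : Finset ℕ) (k E : ℕ) (S : Finset ℕ)
    (hS : ∀ n ∈ S, n ≠ 0 ∧ n.primeFactors ⊆ W ∧ #n.primeFactors ≤ k ∧ ∀ p, n.factorization p ≤ E) :
    #S ≤ ((#W + 1) * (E + 1)) ^ k := by
  refine (card_le_card (t := TT W E k) ?_).trans (TT_card W E k)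
  intro n hn
  obtain ⟨h1, h2, h3, h4⟩ := hS n hn
  exact TT_mem W E k n h1 h2 h3 h4

theorem countRad (A : Finset ℕ) (E : ℕ) (S : Finset ℕ)
    (hS : ∀ n ∈ S, n ≠ 0 ∧ n.primeFactors = A ∧ ∀ p, n.factorization p ≤ E) :
    #S ≤ (E + 1) ^ #A := by
  have hcard : #(A.pi fun _ => range (E + 1)) = (E + 1) ^ #A := by
    rw [card_pi, prod_const, card_range]
  rw [← hcard]
  refine card_le_card_of_injOn (fun n p _ => n.factorization p) ?_ ?_
  · intro n hn
    obtain ⟨-, -, h3⟩ := hS n hn
    rw [mem_coe, mem_pi]
    intro p _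
    exact mem_range.mpr (Nat.lt_succ_of_le (h3 p))
  · intro n hn m hm hnm
    obtain ⟨h1, h2, -⟩ := hS n hn
    obtain ⟨k1, k2, -⟩ := hS m hm
    refine Nat.eq_of_factorization_eq h1 k1 ?_
    intro p
    by_cases hp : p ∈ A
    · exact congrFun (congrFun hnm p) hp
    · have e1 : n.factorization p = 0 := by
        rw [← Finsupp.notMem_support_iff, Nat.support_factorization, h2]; exact hp
      have e2 : m.factorization p = 0 := by
        rw [← Finsupp.notMem_support_iff, Nat.support_factorization, k2]; exact hp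
      rw [e1, e2]

end Pool.Agent.Lib.MP_c831ba_nt
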