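import Mathlib

/-!
Definitions for MP_c831ba_nt: `m ^ d` and `n ^ d` have the same primes, and so have `m ^ d + 1` and `n ^ d + 1`.

The parameters of the counting (`x = exp (u ^ 4)`): `kU` bounds the numbers of primes of `m` and `m ^ d + 1`,
`yU` is the size of a prime which divides `m` exactly once, `n ^ d + 1 < 2 ^ (2 ^ TU)` is the middle range and
`bU` bounds the logarithms of the primes.
-/

namespace Pool.Agent.Lib.MP_c831ba_nt

/-- `n` is a partner of `m` (for the exponent `d`). -/
def Partner (d m n : ℕ) : Prop :=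
  1 ≤ n ∧ n ≠ m ∧ n.primeFactors = m.primeFactors ∧
    (n ^ d + 1).primeFactors = (m ^ d + 1).primeFactors

/-- The number whose primes contain the primes of `m ^ d + 1`. -/
def ZN (d J h g : ℕ) : ℕ := ((h : ℤ) ^ (d * J) + (-1) ^ J * (g : ℤ) ^ d).natAbs

/-- The bound for the numbers of primes. -/
noncomputable def kU (u : ℝ) : ℕ := ⌊u / 20⌋₊

/-- The size of the large prime. -/
noncomputable def yU (u : ℝ) : ℕ := ⌈Real.exp (u ^ 3)⌉₊

/-- The end of the middle range. -/
noncomputable def TU (u : ℝ) : ℕ := ⌈u ^ 2⌉₊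

/-- The bound for the logarithms of the primes. -/
noncomputable def bU (d : ℕ) (u : ℝ) : ℕ := ⌈((d : ℝ) + 1) * u ^ 4⌉₊

end Pool.Agent.Lib.MP_c831ba_nt
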