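import Pool.Agent.Lib.MP_c831ba_nt.MDefs

/-!
Module MBasic: the key divisibility, and `m ^ J + 1`, `m ^ d + 1` do not have the same primes for `J ≠ d`, `m ≥ 3`.
-/

namespace Pool.Agent.Lib.MP_c831ba_nt

open Finset

theorem mkey_dvd {d m n h g J q : ℕ} (hrel : n * h ^ J = m ^ J * g) (hqm : q ∣ m ^ d + 1)
    (hqn : q ∣ n + 1) : q ∣ ZM d J h g := by
  unfold ZM
  rw [← Int.natCast_dvd]
  have h1 : ((n : ZMod q)) = -1 := by
    have h2 : ((n + 1 : ℕ) : ZMod q) = 0 := (ZMod.natCast_eq_zero_iff _ _).2 hqn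
    push_cast at h2
    exact eq_neg_of_add_eq_zero_left h2
  have h3 : ((m : ZMod q)) ^ d = -1 := by
    have h2 : ((m ^ d + 1 : ℕ) : ZMod q) = 0 := (ZMod.natCast_eq_zero_iff _ _).2 hqm
    push_cast at h2
    exact eq_neg_of_add_eq_zero_left h2
  have h4 : (n : ZMod q) * (h : ZMod q) ^ J = (m : ZMod q) ^ J * (g : ZMod q) := by
    exact_mod_cast congrArg (fun x : ℕ => (x : ZMod q)) hrel
  have h5 : (-1 : ZMod q) ^ d * (h : ZMod q) ^ (d * J) = (-1) ^ J * (g : ZMod q) ^ d := by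
    have h6 := congrArg (fun x : ZMod q => x ^ d) h4
    simp only [mul_pow] at h6
    rw [h1, ← pow_mul, mul_comm J d, ← pow_mul, mul_comm J d, pow_mul (m : ZMod q) d J, h3] at h6
    exact h6
  rw [← ZMod.intCast_zmod_eq_zero_iff_dvd]
  push_cast
  have h7 : (-1 : ZMod q) ^ d * (-1) ^ d = 1 := by
    rw [← mul_pow]; norm_num
  rw [pow_add]
  linear_combination (-1 : ZMod q) ^ d * h5 - (h : ZMod q) ^ (d * J) * h7

private theorem MBasic_size {M K : ℕ} (hM : 3 ≤ M) (hK : 3 ≤ K) : K * (M + 1) < M ^ K + 1 := by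
  have h1 : ∀ k : ℕ, 3 * (k + 3) ≤ 3 ^ (k + 2) := by
    intro k
    induction k with
    | zero => norm_num
    | succ k ih => rw [show k + 1 + 2 = (k + 2) + 1 by ring, pow_succ]; omega
  obtain ⟨k, rfl⟩ : ∃ k, K = k + 3 := ⟨K - 3, by omega⟩
  have h2 : 3 * (k + 3) ≤ M ^ (k + 2) := (h1 k).trans (Nat.pow_le_pow_left hM _)
  have h3 : 3 * (k + 3) * M ≤ M ^ (k + 3) := by
    rw [show k + 3 = (k + 2) + 1 by ring, pow_succ M]
    exact Nat.mul_le_mul_right _ h2
  have h4 : 0 < (k + 3) * M := by positivity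
  nlinarith

theorem odd_pow_prim {M K : ℕ} (hM : 3 ≤ M) (hK : 3 ≤ K) (hodd : Odd K) :
    ∃ q : ℕ, q.Prime ∧ q ∣ M ^ K + 1 ∧ ¬ q ∣ M + 1 := by
  by_contra hcon
  push Not at hcon
  obtain ⟨Qz, hQz⟩ : ∃ Qz : ℤ, Qz = ∑ i ∈ Finset.range K, (-(M : ℤ)) ^ i := ⟨_, rfl⟩
  have h1 : ((M : ℤ) + 1) * Qz = (M : ℤ) ^ K + 1 := by
    have h2 := mul_neg_geom_sum (-(M : ℤ)) K
    rw [← hQz, hodd.neg_pow] at h2
    linarith
  have hQpos : 0 < Qz := by
    by_contra h
    push Not at h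
    have : ((M : ℤ) + 1) * Qz ≤ 0 := mul_nonpos_of_nonneg_of_nonpos (by positivity) h
    have h3 : (0 : ℤ) < (M : ℤ) ^ K + 1 := by positivity
    linarith
  obtain ⟨Q, hQ⟩ : ∃ Q : ℕ, (Q : ℤ) = Qz := ⟨Qz.toNat, Int.toNat_of_nonneg hQpos.le⟩
  have hMQ : (M + 1) * Q = M ^ K + 1 := by
    have : (((M + 1) * Q : ℕ) : ℤ) = ((M ^ K + 1 : ℕ) : ℤ) := by
      push_cast
      rw [hQ]
      exact h1
    exact_mod_cast this
  have hQ0 : Q ≠ 0 := by
    rintro rfl
    rw [Nat.cast_zero] at hQ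
    omega
  have hK0 : K ≠ 0 := by omega
  -- the primes of `Q`
  have hpr : ∀ p : ℕ, p.Prime → p ∣ Q → p ∣ M + 1 ∧ p ∣ K := by
    intro p hp hpQ
    have h2 : p ∣ M ^ K + 1 := by
      rw [← hMQ]
      exact hpQ.mul_left _
    have h3 : p ∣ M + 1 := hcon p hp h2
    refine ⟨h3, ?_⟩
    have h4 : ((M : ZMod p)) = -1 := by
      have h5 : ((M + 1 : ℕ) : ZMod p) = 0 := (ZMod.natCast_eq_zero_iff _ _).2 h3
      push_cast at h5
      exact eq_neg_of_add_eq_zero_left h5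
    have h5 : ((Qz : ℤ) : ZMod p) = (K : ZMod p) := by
      rw [hQz]
      push_cast
      rw [h4, neg_neg]
      simp
    have h6 : ((Q : ℕ) : ZMod p) = 0 := (ZMod.natCast_eq_zero_iff _ _).2 hpQ
    rw [← hQ, Int.cast_natCast, h6] at h5
    exact (ZMod.natCast_eq_zero_iff _ _).1 h5.symm
  have hdvd : Q ∣ K := by
    rw [← Nat.factorization_prime_le_iff_dvd hQ0 hK0]
    intro p hp
    by_cases hpQ : p ∣ Q
    · obtain ⟨h2, h3⟩ := hpr p hp hpQ
      haveI : Fact p.Prime := ⟨hp⟩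
      have hp2 : Odd p := by
        rcases hp.eq_two_or_odd' with rfl | h
        · exfalso
          obtain ⟨c, hc⟩ := hodd
          omega
        · exact h
      have hpM : ¬ p ∣ M := by
        intro h
        have := (Nat.dvd_add_right h).1 h2
        exact hp.one_lt.ne' (Nat.dvd_one.1 this)
      have h4 := padicValNat.pow_add_pow (p := p) hp2 h2 hpM hodd
      rw [one_pow, ← hMQ, padicValNat.mul (by omega) hQ0] at h4
      rw [Nat.factorization_def _ hp, Nat.factorization_def _ hp]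
      omega
    · rw [Nat.factorization_eq_zero_of_not_dvd hpQ]
      exact Nat.zero_le _
  have h2 : Q ≤ K := Nat.le_of_dvd (by omega) hdvd
  have h3 := MBasic_size hM hK
  rw [← hMQ] at h3
  have h4 : (M + 1) * Q ≤ K * (M + 1) := by
    rw [mul_comm]
    exact Nat.mul_le_mul_right _ h2
  omega

theorem pow_prim {m J d : ℕ} (hm : 3 ≤ m) (hd : 1 ≤ d) (hdJ : d < J) :
    ∃ q : ℕ, q.Prime ∧ q ∣ m ^ J + 1 ∧ ¬ q ∣ m ^ d + 1 := by
  by_contra hcon
  push Not at hcon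
  obtain ⟨g, hg⟩ : ∃ g, g = Nat.gcd J d := ⟨_, rfl⟩
  have hg0 : 0 < g := hg ▸ Nat.gcd_pos_of_pos_right J hd
  obtain ⟨a, ha⟩ : g ∣ J := hg ▸ Nat.gcd_dvd_left J d
  obtain ⟨b, hb⟩ : g ∣ d := hg ▸ Nat.gcd_dvd_right J d
  have hab : Nat.Coprime a b := by
    have h1 : g = g * Nat.gcd a b := by
      rw [← Nat.gcd_mul_left, ← ha, ← hb, hg]
    exact Nat.eq_of_mul_eq_mul_left hg0 (by rw [mul_one]; exact h1.symm)
  have hba : b < a := by
    rw [ha, hb] at hdJ
    exact Nat.lt_of_mul_lt_mul_left hdJ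
  have hb1 : 1 ≤ b := by
    rcases Nat.eq_zero_or_pos b with h | h
    · rw [h, mul_zero] at hb
      omega
    · exact h
  have hM : 3 ≤ m ^ g := hm.trans (Nat.le_self_pow (by omega) m)
  have hyq : ∀ q : ℕ, q ∣ m ^ J + 1 → q.Prime →
      ((m ^ g : ℕ) : ZMod q) ^ a = -1 ∧ ((m ^ g : ℕ) : ZMod q) ^ b = -1 := by
    intro q hq hqp
    have h1 : ((m ^ J + 1 : ℕ) : ZMod q) = 0 := (ZMod.natCast_eq_zero_iff _ _).2 hq
    have h2 : ((m ^ d + 1 : ℕ) : ZMod q) = 0 := (ZMod.natCast_eq_zero_iff _ _).2 (hcon q hqp hq)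
    push_cast at h1 h2 ⊢
    rw [← pow_mul, ← pow_mul, ← ha, ← hb]
    exact ⟨eq_neg_of_add_eq_zero_left h1, eq_neg_of_add_eq_zero_left h2⟩
  by_cases hodd : Odd a ∧ Odd b
  · obtain ⟨hoa, hob⟩ := hodd
    have ha3 : 3 ≤ a := by
      obtain ⟨c, hc⟩ := hoa
      omega
    obtain ⟨q, hqp, hq1, hq2⟩ := odd_pow_prim hM ha3 hoa
    rw [← pow_mul, ← ha] at hq1
    obtain ⟨h1, h2⟩ := hyq q hq1 hqp
    apply hq2
    set y : ZMod q := ((m ^ g : ℕ) : ZMod q) with hy
    have h3 : (-y) ^ a = 1 := by rw [hoa.neg_pow, h1, neg_neg]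
    have h4 : (-y) ^ b = 1 := by rw [hob.neg_pow, h2, neg_neg]
    have h5 : orderOf (-y) ∣ Nat.gcd a b :=
      Nat.dvd_gcd (orderOf_dvd_of_pow_eq_one h3) (orderOf_dvd_of_pow_eq_one h4)
    rw [hab] at h5
    have h6 : -y = 1 := orderOf_eq_one_iff.1 (Nat.dvd_one.1 h5)
    have h7 : ((m ^ g + 1 : ℕ) : ZMod q) = 0 := by
      rw [Nat.cast_add, ← hy, Nat.cast_one]
      linear_combination -h6
    exact (ZMod.natCast_eq_zero_iff _ _).1 h7
  · -- all primes of `m ^ J + 1` are `2`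
    have h2 : ∀ q : ℕ, q ∣ m ^ J + 1 → q.Prime → q = 2 := by
      intro q hq hqp
      obtain ⟨h1, h2⟩ := hyq q hq hqp
      have h3 : ((m ^ g : ℕ) : ZMod q) ^ (a * b) = (-1) ^ b := by rw [pow_mul, h1]
      have h4 : ((m ^ g : ℕ) : ZMod q) ^ (a * b) = (-1) ^ a := by rw [mul_comm, pow_mul, h2]
      have h5 : (-1 : ZMod q) = 1 := by
        rcases Nat.even_or_odd a with hea | hoa
        · have hob : Odd b := by
            rw [← Nat.not_even_iff_odd]
            intro heb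
            have h6 := Nat.dvd_gcd hea.two_dvd heb.two_dvd
            rw [hab] at h6
            omega
          rw [hob.neg_one_pow] at h3
          rw [hea.neg_one_pow] at h4
          rw [← h3, h4]
        · have heb : Even b := by
            rw [← Nat.not_odd_iff_even]
            intro hob
            exact hodd ⟨hoa, hob⟩
          rw [heb.neg_one_pow] at h3
          rw [hoa.neg_one_pow] at h4
          rw [← h4, h3]
      have h6 : ((2 : ℕ) : ZMod q) = 0 := by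
        push_cast
        linear_combination -h5
      have h7 := (ZMod.natCast_eq_zero_iff _ _).1 h6
      exact (Nat.prime_dvd_prime_iff_eq hqp Nat.prime_two).1 h7
    have hJ2 : 2 ≤ J := by omega
    have hbig : 2 ≤ m ^ J + 1 := by
      have : 0 < m ^ J := by positivity
      omega
    obtain ⟨q₀, hq₀p, hq₀⟩ := Nat.exists_prime_and_dvd (show m ^ J + 1 ≠ 1 by omega)
    have h2d : 2 ∣ m ^ J + 1 := (h2 q₀ hq₀ hq₀p) ▸ hq₀
    have hmo : Odd m := by
      rw [← Nat.not_even_iff_odd]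
      intro hme
      have h3 : Even (m ^ J) := hme.pow_of_ne_zero (by omega)
      obtain ⟨c, hc⟩ := h3
      omega
    rcases Nat.even_or_odd J with heJ | hoJ
    · obtain ⟨c, hc⟩ := heJ
      have hsq : m ^ J = m ^ c * m ^ c := by rw [← pow_add, ← hc]
      have hoc : Odd (m ^ c) := hmo.pow
      obtain ⟨e, he⟩ := hoc
      have h3 : m ^ J + 1 = 2 * (2 * (e * e + e) + 1) := by rw [hsq, he]; ring
      have h4 : 1 < 2 * (e * e + e) + 1 := by
        have h5 : 3 ≤ m ^ c := hm.trans (Nat.le_self_pow (by omega) m)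
        have h6 : 1 ≤ e := by omega
        nlinarith
      obtain ⟨q, hqp, hq⟩ := Nat.exists_prime_and_dvd (show 2 * (e * e + e) + 1 ≠ 1 by omega)
      have h5 : q = 2 := h2 q (h3 ▸ hq.mul_left 2) hqp
      rw [h5] at hq
      omega
    · have hJ3 : 3 ≤ J := by
        obtain ⟨c, hc⟩ := hoJ
        omega
      obtain ⟨q, hqp, hq1, hq2⟩ := odd_pow_prim hm hJ3 hoJ
      rw [h2 q hq1 hqp] at hq2
      apply hq2
      obtain ⟨c, hc⟩ := hmo
      omega

theorem no_same_rad {m J d : ℕ} (hm : 3 ≤ m) (hJ : 1 ≤ J) (hd : 1 ≤ d) (hne : J ≠ d) :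
    (m ^ J + 1).primeFactors ≠ (m ^ d + 1).primeFactors := by
  intro heq
  rcases Nat.lt_or_ge d J with h | h
  · obtain ⟨q, hqp, hq1, hq2⟩ := pow_prim hm hd h
    have h1 : q ∈ (m ^ J + 1).primeFactors := Nat.mem_primeFactors.2 ⟨hqp, hq1, by omega⟩
    rw [heq] at h1
    exact hq2 (Nat.dvd_of_mem_primeFactors h1)
  · obtain ⟨q, hqp, hq1, hq2⟩ := pow_prim hm hJ (show J < d by omega)
    have h1 : q ∈ (m ^ d + 1).primeFactors := Nat.mem_primeFactors.2 ⟨hqp, hq1, by omega⟩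
    rw [← heq] at h1
    exact hq2 (Nat.dvd_of_mem_primeFactors h1)

theorem mkey_ne {d m n h g J : ℕ} (hd : 1 ≤ d) (hm : 3 ≤ m) (hP : Mate d m n) (hh : 1 ≤ h)
    (hJ : 1 ≤ J) (hrel : n * h ^ J = m ^ J * g) : ZM d J h g ≠ 0 := by
  intro hz
  unfold ZM at hz
  rw [Int.natAbs_eq_zero, sub_eq_zero] at hz
  obtain ⟨hn1, hne, _, hnm1⟩ := hP
  have hhp : (0 : ℤ) < (h : ℤ) ^ (d * J) := by positivity
  rcases Nat.even_or_odd (J + d) with hev | hod
  · rw [hev.neg_one_pow, one_mul] at hz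
    have h1 : (h ^ J) ^ d = g ^ d := by
      rw [← pow_mul, mul_comm J d]
      exact_mod_cast hz
    have h2 : h ^ J = g := Nat.pow_left_injective (by omega : d ≠ 0) h1
    rw [← h2] at hrel
    have h3 : n = m ^ J := Nat.eq_of_mul_eq_mul_right (by positivity) hrel
    have h4 : J ≠ d := by
      rintro rfl
      exact hne h3
    rw [h3] at hnm1
    exact no_same_rad hm hJ hd h4 hnm1
  · rw [hod.neg_one_pow] at hz
    have h1 : (0 : ℤ) ≤ (g : ℤ) ^ d := by positivity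
    linarith

end Pool.Agent.Lib.MP_c831ba_nt
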