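import Pool.Agent.Lib.MP_c831ba_nt.Defs
import Pool.Agent.Lib.MP_5349b0_nt.SZ7.NIDefs

/-!
The explicit bounds for the parameters of Theorem R (as in SZ7/NINumM.lean).
-/

namespace Pool.Agent.Lib.MP_c831ba_nt

open Finset Pool.Agent.Lib.MP_5349b0_nt.SZ7

private theorem MCRLem_kpos {b t R₀ : ℕ} (hb : 1 ≤ b) (ht : 1 ≤ t) : 1 ≤ kR b t R₀ := by
  unfold kR
  exact Nat.one_le_iff_ne_zero.2 (by positivity)

private theorem MCRLem_k {b t R₀ : ℕ} (hb : 1 ≤ b) (ht : 1 ≤ t) (hlb : Real.log (b : ℝ) ≤ R₀) :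
    Real.log (kR b t R₀ : ℝ) ≤ 6 * ((R₀ : ℝ) + 1 + Real.log (t : ℝ)) := by
  have hb' : (0 : ℝ) < (b : ℝ) := by exact_mod_cast hb
  have ht' : (0 : ℝ) < (t : ℝ) := by exact_mod_cast ht
  have hlt : 0 ≤ Real.log (t : ℝ) := Real.log_nonneg (by exact_mod_cast ht)
  have hr : (0 : ℝ) ≤ (R₀ : ℝ) := Nat.cast_nonneg _
  have h2 := Real.log_two_lt_d9
  have h2' : 0 < Real.log 2 := Real.log_pos one_lt_two
  unfold kR
  push_cast
  rw [Real.log_mul (by positivity) (by positivity), Real.log_mul (by positivity) (by positivity),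
    Real.log_pow]
  push_cast
  nlinarith

private theorem MCRLem_th {b t R₀ : ℕ} (hb : 1 ≤ b) (ht : 1 ≤ t) (hlb : Real.log (b : ℝ) ≤ R₀) :
    0 < thR b t R₀ ∧ Real.log (thR b t R₀ : ℝ) ≤ 12 * ((R₀ : ℝ) + 1 + Real.log (t : ℝ)) := by
  have hb' : (1 : ℝ) ≤ (b : ℝ) := by exact_mod_cast hb
  have hlt : 0 ≤ Real.log (t : ℝ) := Real.log_nonneg (by exact_mod_cast ht)
  have hr : (0 : ℝ) ≤ (R₀ : ℝ) := Nat.cast_nonneg _
  have hk1 : (1 : ℝ) ≤ (kR b t R₀ : ℝ) := by exact_mod_cast MCRLem_kpos (R₀ := R₀) hb ht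
  have hk := MCRLem_k (R₀ := R₀) hb ht hlb
  have hpos : 0 < thR b t R₀ := by unfold thR; positivity
  refine ⟨hpos, ?_⟩
  have h1 : (thR b t R₀ : ℝ) ≤ 32 * ((R₀ : ℝ) + 1) ^ 2 * (kR b t R₀ : ℝ) * (b : ℝ) := by
    unfold thR
    push_cast
    have hKB : (1 : ℝ) ≤ (kR b t R₀ : ℝ) * (b : ℝ) := by nlinarith
    have ha : (R₀ : ℝ) * ((R₀ : ℝ) + 1) * ((kR b t R₀ : ℝ) * (b : ℝ)) ≤
        ((R₀ : ℝ) + 1) ^ 2 * ((kR b t R₀ : ℝ) * (b : ℝ)) := by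
      apply mul_le_mul_of_nonneg_right _ (by linarith)
      nlinarith
    have hc : (1 : ℝ) ≤ ((R₀ : ℝ) + 1) ^ 2 * ((kR b t R₀ : ℝ) * (b : ℝ)) := by
      have : (1 : ℝ) ≤ ((R₀ : ℝ) + 1) ^ 2 := by nlinarith
      nlinarith
    nlinarith
  have hpos' : (0 : ℝ) < (thR b t R₀ : ℝ) := by exact_mod_cast hpos
  refine (Real.log_le_log hpos' h1).trans ?_
  rw [Real.log_mul (by positivity) (by positivity), Real.log_mul (by positivity) (by positivity),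
    Real.log_mul (by positivity) (by positivity), Real.log_pow]
  have h32 : Real.log 32 = 5 * Real.log 2 := by
    rw [show (32 : ℝ) = 2 ^ 5 by norm_num, Real.log_pow]; push_cast; ring
  have h2 := Real.log_two_lt_d9
  have h3 : Real.log ((R₀ : ℝ) + 1) ≤ R₀ := by
    have := Real.log_le_sub_one_of_pos (show (0 : ℝ) < (R₀ : ℝ) + 1 by linarith)
    linarith
  rw [h32]
  push_cast
  linarith

private theorem MCRLem_y {b t R₀ : ℕ} (hb : 1 ≤ b) (ht : 1 ≤ t) (hlb : Real.log (b : ℝ) ≤ R₀) :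
    0 < yR b t R₀ ∧
      Real.log (yR b t R₀ : ℝ) ≤ 30 * ((R₀ : ℝ) + 1) * ((R₀ : ℝ) + 1 + Real.log (t : ℝ)) := by
  have hb' : (1 : ℝ) ≤ (b : ℝ) := by exact_mod_cast hb
  have hlt : 0 ≤ Real.log (t : ℝ) := Real.log_nonneg (by exact_mod_cast ht)
  have hr : (0 : ℝ) ≤ (R₀ : ℝ) := Nat.cast_nonneg _
  have hk1 : (1 : ℝ) ≤ (kR b t R₀ : ℝ) := by exact_mod_cast MCRLem_kpos (R₀ := R₀) hb ht
  have hk := MCRLem_k (R₀ := R₀) hb ht hlb
  obtain ⟨hth0, hth⟩ := MCRLem_th (R₀ := R₀) hb ht hlb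
  have hth0' : (0 : ℝ) < (thR b t R₀ : ℝ) := by exact_mod_cast hth0
  have hk0 : 0 < kR b t R₀ := MCRLem_kpos hb ht
  refine ⟨by unfold yR; positivity, ?_⟩
  unfold yR
  push_cast
  rw [Real.log_mul (by positivity) (by positivity), Real.log_mul (by positivity) (by positivity),
    Real.log_mul (by positivity) (by positivity), Real.log_mul (by positivity) (by positivity),
    Real.log_pow, Real.log_pow, Real.log_pow]
  have h32 : Real.log 32 = 5 * Real.log 2 := by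
    rw [show (32 : ℝ) = 2 ^ 5 by norm_num, Real.log_pow]; push_cast; ring
  have h2 := Real.log_two_lt_d9
  have h3 : Real.log ((R₀ : ℝ) + 1) ≤ R₀ := by
    have := Real.log_le_sub_one_of_pos (show (0 : ℝ) < (R₀ : ℝ) + 1 by linarith)
    linarith
  rw [h32]
  push_cast
  have h4 := mul_le_mul_of_nonneg_left hth (show (0 : ℝ) ≤ (R₀ : ℝ) + 1 by linarith)
  nlinarith

theorem log_mR_le {b t R₀ : ℕ} (hb : 1 ≤ b) (ht : 1 ≤ t) (hR : 4 ≤ R₀)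
    (hlb : Real.log (b : ℝ) ≤ R₀) :
    Real.log (mR b t R₀ R₀ : ℝ) ≤ 100 * ((R₀ : ℝ) + 1) ^ 3 * ((R₀ : ℝ) + 1 + Real.log (t : ℝ)) := by
  have hb' : (1 : ℝ) ≤ (b : ℝ) := by exact_mod_cast hb
  have ht' : (1 : ℝ) ≤ (t : ℝ) := by exact_mod_cast ht
  have hlt : 0 ≤ Real.log (t : ℝ) := Real.log_nonneg (by exact_mod_cast ht)
  have hr : (4 : ℝ) ≤ (R₀ : ℝ) := by exact_mod_cast hR
  have hk1 : (1 : ℝ) ≤ (kR b t R₀ : ℝ) := by exact_mod_cast MCRLem_kpos (R₀ := R₀) hb ht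
  have hk := MCRLem_k (R₀ := R₀) hb ht hlb
  obtain ⟨hy0, hy⟩ := MCRLem_y (R₀ := R₀) hb ht hlb
  have hy0' : (0 : ℝ) < (yR b t R₀ : ℝ) := by exact_mod_cast hy0
  unfold mR
  push_cast
  rw [Real.log_pow, Real.log_mul (by positivity) (by positivity), Real.log_mul (by positivity) (by positivity),
    Real.log_mul (by positivity) (by positivity), Real.log_pow, Real.log_pow,
    Real.log_mul (by positivity) (by positivity)]
  have h28 : Real.log 28 ≤ 5 * Real.log 2 := by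
    have : Real.log 28 ≤ Real.log (2 ^ 5) := Real.log_le_log (by norm_num) (by norm_num)
    rw [Real.log_pow] at this
    push_cast at this
    exact this
  have h2 := Real.log_two_lt_d9
  have h3 : Real.log ((t : ℝ) + 2) ≤ 2 * Real.log 2 + Real.log (t : ℝ) := by
    have h5 : Real.log ((t : ℝ) + 2) ≤ Real.log (2 ^ 2 * (t : ℝ)) :=
      Real.log_le_log (by positivity) (by linarith)
    rw [Real.log_mul (by positivity) (by positivity), Real.log_pow] at h5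
    push_cast at h5
    exact h5
  set U : ℝ := (R₀ : ℝ) + 1 + Real.log (t : ℝ) with hU
  have hU1 : (5 : ℝ) ≤ U := by rw [hU]; linarith
  have hU2 : (R₀ : ℝ) + 1 ≤ U := by rw [hU]; linarith
  have hA : Real.log ((t : ℝ) + 2) + Real.log (yR b t R₀ : ℝ) ≤ 32 * ((R₀ : ℝ) + 1) * U := by
    have h6 : Real.log ((t : ℝ) + 2) ≤ U := by rw [hU]; linarith
    nlinarith
  have hB : (R₀ : ℝ) * (Real.log ((t : ℝ) + 2) + Real.log (yR b t R₀ : ℝ)) ≤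
      32 * ((R₀ : ℝ) + 1) ^ 2 * U := by
    calc (R₀ : ℝ) * (Real.log ((t : ℝ) + 2) + Real.log (yR b t R₀ : ℝ))
        ≤ (R₀ : ℝ) * (32 * ((R₀ : ℝ) + 1) * U) := mul_le_mul_of_nonneg_left hA (by linarith)
      _ ≤ ((R₀ : ℝ) + 1) * (32 * ((R₀ : ℝ) + 1) * U) :=
          mul_le_mul_of_nonneg_right (by linarith) (by positivity)
      _ = _ := by ring
  have hC : Real.log 28 + ((2 : ℕ) : ℝ) * Real.log (b : ℝ) + Real.log (kR b t R₀ : ℝ) +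
      (R₀ : ℝ) * (Real.log ((t : ℝ) + 2) + Real.log (yR b t R₀ : ℝ)) ≤ 42 * ((R₀ : ℝ) + 1) ^ 2 * U := by
    have h7 : (1 : ℝ) ≤ ((R₀ : ℝ) + 1) ^ 2 := by nlinarith
    have h8 : 10 * U ≤ 10 * ((R₀ : ℝ) + 1) ^ 2 * U := by nlinarith
    push_cast
    nlinarith
  calc (R₀ : ℝ) * (Real.log 28 + ((2 : ℕ) : ℝ) * Real.log (b : ℝ) + Real.log (kR b t R₀ : ℝ) +
        (R₀ : ℝ) * (Real.log ((t : ℝ) + 2) + Real.log (yR b t R₀ : ℝ)))
      ≤ (R₀ : ℝ) * (42 * ((R₀ : ℝ) + 1) ^ 2 * U) := mul_le_mul_of_nonneg_left hC (by linarith)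
    _ ≤ ((R₀ : ℝ) + 1) * (42 * ((R₀ : ℝ) + 1) ^ 2 * U) :=
        mul_le_mul_of_nonneg_right (by linarith) (by positivity)
    _ = 42 * (((R₀ : ℝ) + 1) ^ 3 * U) := by ring
    _ ≤ 100 * (((R₀ : ℝ) + 1) ^ 3 * U) :=
        mul_le_mul_of_nonneg_right (by norm_num) (by positivity)
    _ = _ := by ring

private theorem MCRLem_main {b t R₀ : ℕ} (hb : 1 ≤ b) (ht : 1 ≤ t)
    (hlb : Real.log (b : ℝ) ≤ R₀) :
    Real.log (32 * (b : ℝ) ^ 3 * (thR b t R₀ : ℝ) ^ (R₀ + 1)) ≤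
      20 * ((R₀ : ℝ) + 1) * ((R₀ : ℝ) + 1 + Real.log (t : ℝ)) := by
  have hb' : (1 : ℝ) ≤ (b : ℝ) := by exact_mod_cast hb
  have hlt : 0 ≤ Real.log (t : ℝ) := Real.log_nonneg (by exact_mod_cast ht)
  have hr : (0 : ℝ) ≤ (R₀ : ℝ) := Nat.cast_nonneg _
  obtain ⟨hth0, hth⟩ := MCRLem_th (R₀ := R₀) hb ht hlb
  have hth0' : (0 : ℝ) < (thR b t R₀ : ℝ) := by exact_mod_cast hth0
  rw [Real.log_mul (by positivity) (by positivity), Real.log_mul (by positivity) (by positivity),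
    Real.log_pow, Real.log_pow]
  have h32 : Real.log 32 = 5 * Real.log 2 := by
    rw [show (32 : ℝ) = 2 ^ 5 by norm_num, Real.log_pow]; push_cast; ring
  have h2 := Real.log_two_lt_d9
  rw [h32]
  push_cast
  have h4 := mul_le_mul_of_nonneg_left hth (show (0 : ℝ) ≤ (R₀ : ℝ) + 1 by linarith)
  nlinarith

theorem mcr_of {b t R₀ : ℕ} (hb : 4 ≤ b) (ht : 1 ≤ t) (hR : 1 ≤ R₀) (hRb : R₀ ≤ b)
    (hlb : Real.log (b : ℝ) ≤ R₀)
    (hm : 20 * ((R₀ : ℝ) + 1) * ((R₀ : ℝ) + 1 + Real.log (t : ℝ)) ≤ t * Real.log 2) :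
    MCR b t R₀ := by
  refine ⟨hR, hRb, hb, ?_⟩
  have hb1 : 1 ≤ b := by omega
  have h1 := MCRLem_main (R₀ := R₀) hb1 ht hlb
  have hth0 : 0 < thR b t R₀ := (MCRLem_th (R₀ := R₀) hb1 ht hlb).1
  have hpos : (0 : ℝ) < 32 * (b : ℝ) ^ 3 * (thR b t R₀ : ℝ) ^ (R₀ + 1) := by
    have h14 : (0 : ℝ) < (thR b t R₀ : ℝ) := by exact_mod_cast hth0
    have h15 : (0 : ℝ) < (b : ℝ) := by exact_mod_cast hb1
    positivity
  have h16 : 32 * (b : ℝ) ^ 3 * (thR b t R₀ : ℝ) ^ (R₀ + 1) ≤ 2 ^ t := by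
    have h17 : (t : ℝ) * Real.log 2 = Real.log (2 ^ t) := by rw [Real.log_pow]
    have h12 := h1.trans hm
    rw [h17] at h12
    exact (Real.log_le_log_iff hpos (by positivity)).1 h12
  exact_mod_cast h16

theorem mR_pos {b t R₀ : ℕ} (hb : 1 ≤ b) (ht : 1 ≤ t) (hlb : Real.log (b : ℝ) ≤ R₀) (R : ℕ) :
    0 < mR b t R₀ R := by
  have h1 := MCRLem_kpos (R₀ := R₀) hb ht
  have h2 := (MCRLem_y (R₀ := R₀) hb ht hlb).1
  unfold mR
  positivity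

end Pool.Agent.Lib.MP_c831ba_nt
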