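import Pool.Agent.Lib.MP_c831ba_nt.Defs

/-!
Definitions for the elements of `S(m ^ d)` other than `m ^ d`.
-/

namespace Pool.Agent.Lib.MP_c831ba_nt

/-- `n` is an element of `S(m ^ d)` other than `m ^ d`. -/
def Mate (d m n : ℕ) : Prop :=
  1 ≤ n ∧ n ≠ m ^ d ∧ n.primeFactors = m.primeFactors ∧
    (n + 1).primeFactors = (m ^ d + 1).primeFactors

/-- The number whose primes contain the primes of `m ^ d + 1`. -/
def ZM (d J h g : ℕ) : ℕ := ((h : ℤ) ^ (d * J) - (-1) ^ (J + d) * (g : ℤ) ^ d).natAbs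

end Pool.Agent.Lib.MP_c831ba_nt
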