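import Pool.Agent.Lib.MP_c831ba_nt.MDefs
import Pool.Agent.Lib.MP_5349b0_nt.PB.Height

/-!
Module MHeight: the height of a partner.
-/

namespace Pool.Agent.Lib.MP_c831ba_nt

open Finset

theorem mheight (d : ℕ) (hd : 1 ≤ d) : ∃ C : ℝ, 0 < C ∧ ∀ N m n : ℕ, 1 ≤ m → m ≤ N →
    Mate d m n →
      Real.log (Real.log ((n + 1 : ℕ) : ℝ)) ≤ C * Real.log ((N : ℝ) + 1) ^ 4 := by
  obtain ⟨C, hC, h⟩ := Pool.Agent.Lib.MP_5349b0_nt.PB.abc_height
  refine ⟨C * ((d : ℝ) + 1) ^ 4, by positivity, ?_⟩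
  intro N m n hm hmN hP
  obtain ⟨hn1, _, hnm, hnm1⟩ := hP
  have hd0 : d ≠ 0 := by omega
  have hnd : 0 < n := hn1
  have h1 := h (1, n) ⟨Nat.one_pos, hnd, Nat.coprime_one_left _⟩
  simp only at h1
  rw [Nat.add_comm 1 (n), one_mul] at h1
  refine h1.trans ?_
  rw [mul_assoc]
  refine mul_le_mul_of_nonneg_left ?_ hC.le
  rw [← mul_pow]
  have hcop : Nat.Coprime (n) (n + 1) := by simp
  have hrad : Pool.Agent.Lib.MP_5349b0_nt.rad (n * (n + 1)) ≤ (N + 1) ^ (d + 1) := by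
    unfold Pool.Agent.Lib.MP_5349b0_nt.rad
    rw [Nat.Coprime.primeFactors_mul hcop, Finset.prod_union hcop.disjoint_primeFactors,
      hnm, hnm1]
    have e1 : ∏ p ∈ m.primeFactors, p ≤ N + 1 :=
      (Nat.le_of_dvd (by omega) (Nat.prod_primeFactors_dvd m)).trans (by omega)
    have e2 : ∏ p ∈ (m ^ d + 1).primeFactors, p ≤ (N + 1) ^ d := by
      refine (Nat.le_of_dvd (Nat.succ_pos _) (Nat.prod_primeFactors_dvd _)).trans ?_
      have e3 : m ^ d ≤ N ^ d := Nat.pow_le_pow_left hmN d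
      have e4 : N ^ d < (N + 1) ^ d := Nat.pow_lt_pow_left (Nat.lt_succ_self N) hd0
      omega
    calc (∏ p ∈ m.primeFactors, p) * ∏ p ∈ (m ^ d + 1).primeFactors, p
        ≤ (N + 1) * (N + 1) ^ d := Nat.mul_le_mul e1 e2
      _ = (N + 1) ^ (d + 1) := by rw [pow_succ]; ring
  have hpos : 0 < Pool.Agent.Lib.MP_5349b0_nt.rad (n * (n + 1)) := by
    unfold Pool.Agent.Lib.MP_5349b0_nt.rad
    exact Finset.prod_pos fun p hp => (Nat.prime_of_mem_primeFactors hp).pos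
  have hlog : Real.log (Pool.Agent.Lib.MP_5349b0_nt.rad (n * (n + 1)) : ℝ) ≤
      ((d : ℝ) + 1) * Real.log ((N : ℝ) + 1) := by
    have e1 : (Pool.Agent.Lib.MP_5349b0_nt.rad (n * (n + 1)) : ℝ) ≤ ((N : ℝ) + 1) ^ (d + 1) := by
      exact_mod_cast hrad
    have e2 := Real.log_le_log (by exact_mod_cast hpos) e1
    rw [Real.log_pow] at e2
    push_cast at e2
    exact e2
  exact pow_le_pow_left₀ (Real.log_nonneg (by exact_mod_cast hpos)) hlog 4

end Pool.Agent.Lib.MP_c831ba_nt
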