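import Pool.Agent.Lib.MP_c831ba_nt.CountK
import Pool.Agent.Lib.MP_c831ba_nt.MDefs
import Pool.Agent.Lib.MP_5349b0_nt.SZ7.NIThmR
import Pool.Agent.Lib.MP_5349b0_nt.SZ7.NIRSet
import Pool.Agent.Lib.MP_5349b0_nt.SZ7.NIPlace

/-!
Module MLarge: the count of the `m` with a partner `n` at a large scale, by Theorem R at the archimedean place.
-/

namespace Pool.Agent.Lib.MP_c831ba_nt

open Finset Pool.Agent.Lib.MP_5349b0_nt.SZ7 Pool.Agent.Lib.MP_5349b0_nt.SZ2
open Pool.Agent.Lib.MP_5349b0_nt.SZ6 Pool.Agent.Lib.MP_5349b0_nt.SZ3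

private theorem MLarge_sol {d N b t k m n : ℕ} (hd : 1 ≤ d) (ht : 3 ≤ t)
    (hb : Real.log ((N ^ d + 1 : ℕ) : ℝ) ≤ b) (hm1 : 1 ≤ m) (hmN : m ≤ N) (hP : Mate d m n)
    (hlo : (2 : ℝ) ^ t ≤ Real.log ((n + 1 : ℕ) : ℝ))
    (hhi : Real.log ((n + 1 : ℕ) : ℝ) < 2 ^ (t + 1)) :
    SetSol (QT t) b t #(m ^ d + 1).primeFactors #m.primeFactors ∅
      ((m ^ d + 1).primeFactors, m.primeFactors) := by
  obtain ⟨hn1, _, hnm, hnm1⟩ := hP
  have hd0 : d ≠ 0 := by omega
  have hnd : 0 < n := hn1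
  have hcop : Cop (1, n) := ⟨Nat.one_pos, hnd, Nat.coprime_one_left _⟩
  have hs1 : ((1, n) : ℕ × ℕ).1 + ((1, n) : ℕ × ℕ).2 = n + 1 := Nat.add_comm _ _
  have hsc : ScN ((Pool.Agent.Lib.MP_5349b0_nt.rad (((1, n) : ℕ × ℕ).1 * ((1, n) : ℕ × ℕ).2 *
      (((1, n) : ℕ × ℕ).1 + ((1, n) : ℕ × ℕ).2)) : ℕ) : ℝ) t #(pW (1, n)) (1, n) := by
    refine ⟨hcop, le_refl _, rfl, ?_, ?_⟩
    · rw [hs1]; exact hlo
    · rw [hs1]; exact hhi
  have hc2 : (comp (1, n) 2).primeFactors = (m ^ d + 1).primeFactors := by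
    rw [← hnm1]
    show (1 + n).primeFactors = _
    rw [Nat.add_comm]
  have hc1 : (comp (1, n) 1).primeFactors = m.primeFactors := by
    show (n).primeFactors = _
    rw [hnm]
  have hcc : Nat.Coprime (comp (1, n) 2) (comp (1, n) 1) :=
    comp_coprime _ hcop 2 1 (by decide)
  refine ⟨rfl, rfl, ?_, ?_, ?_⟩
  · show Disjoint (m ^ d + 1).primeFactors m.primeFactors
    rw [← hc2, ← hc1]
    exact hcc.disjoint_primeFactors
  · intro p hp
    have hp' : p ∈ (m ^ d + 1).primeFactors ∨ p ∈ m.primeFactors := Finset.mem_union.1 hp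
    have hpr : p.Prime := by
      rcases hp' with h | h
      · exact Nat.prime_of_mem_primeFactors h
      · exact Nat.prime_of_mem_primeFactors h
    have hple : p ≤ N ^ d + 1 := by
      have hmd : m ^ d ≤ N ^ d := Nat.pow_le_pow_left hmN d
      rcases hp' with h | h
      · exact (Nat.le_of_mem_primeFactors h).trans (Nat.succ_le_succ hmd)
      · have h1 : p ≤ m := Nat.le_of_mem_primeFactors h
        have h2 : m ≤ m ^ d := Nat.le_self_pow hd0 m
        omega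
    refine ⟨hpr, ?_, Finset.notMem_empty p⟩
    refine le_trans ?_ hb
    exact Real.log_le_log (by exact_mod_cast hpr.pos) (by exact_mod_cast hple)
  · refine ⟨evN (comp (1, n) 2) (comp (1, n) 1), ?_, ?_, ?_, ?_, ?_⟩
    · refine placeT 2 1 0 (by decide) (by decide) (by decide) (by decide) (1, n) hcop t ht ?_ ?_
      · rw [hs1]; exact hlo
      · show Real.log ((1 : ℕ) : ℝ) ≤ 2 ^ t / 2
        rw [Nat.cast_one, Real.log_one]
        positivity
    · intro p hp
      right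
      rcases evN_supp _ _ hp with h | h
      · rw [hc2] at h; exact Finset.mem_union_left _ h
      · rw [hc1] at h; exact Finset.mem_union_right _ h
    · intro p
      exact evN_mass hsc 2 1 (by decide) p
    · intro p hp
      exact evN_pos hcc (by rw [hc2]; exact hp)
    · intro p hp
      exact evN_neg hcc (by rw [hc1]; exact hp)

private theorem MLarge_mono {b t k r : ℕ} (hMC : MCR b t (2 * k)) (ht : 1 ≤ t) (hr : r ≤ 2 * k) :
    mR b t (2 * k) r ≤ mR b t (2 * k) (2 * k) := by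
  have hb : 1 ≤ b := le_trans (by norm_num) hMC.hb
  have h1 : 1 ≤ 28 * b ^ 2 * kR b t (2 * k) * ((t + 2) * yR b t (2 * k)) ^ (2 * k) := by
    have hk : 0 < kR b t (2 * k) := by unfold kR; positivity
    have hth : 0 < thR b t (2 * k) := by unfold thR; positivity
    have hy : 0 < yR b t (2 * k) := by unfold yR; positivity
    exact Nat.succ_le_of_lt (by positivity)
  exact Nat.pow_le_pow_right h1 hr

open Classical in
theorem mlarge (d N b t k : ℕ) (hd : 1 ≤ d) (ht : 3 ≤ t) (hb : Real.log ((N ^ d + 1 : ℕ) : ℝ) ≤ b)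
    (hMC : MCR b t (2 * k)) :
    #{m ∈ Icc 1 N | #m.primeFactors ≤ k ∧ #(m ^ d + 1).primeFactors ≤ k ∧
        ∃ n, Mate d m n ∧ (2 : ℝ) ^ t ≤ Real.log ((n + 1 : ℕ) : ℝ) ∧
          Real.log ((n + 1 : ℕ) : ℝ) < 2 ^ (t + 1)} ≤
      (k + 1) ^ 2 * mR b t (2 * k) (2 * k) * (Nat.log 2 N + 1) ^ k := by
  set S : Finset ℕ := {m ∈ Icc 1 N | #m.primeFactors ≤ k ∧ #(m ^ d + 1).primeFactors ≤ k ∧
        ∃ n, Mate d m n ∧ (2 : ℝ) ^ t ≤ Real.log ((n + 1 : ℕ) : ℝ) ∧
          Real.log ((n + 1 : ℕ) : ℝ) < 2 ^ (t + 1)} with hS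
  have hmem : ∀ m ∈ S, 1 ≤ m ∧ m ≤ N ∧ #m.primeFactors ≤ k ∧ #(m ^ d + 1).primeFactors ≤ k ∧
        ∃ n, Mate d m n ∧ (2 : ℝ) ^ t ≤ Real.log ((n + 1 : ℕ) : ℝ) ∧
          Real.log ((n + 1 : ℕ) : ℝ) < 2 ^ (t + 1) := by
    intro m hm
    rw [hS, Finset.mem_filter, Finset.mem_Icc] at hm
    exact ⟨hm.1.1, hm.1.2, hm.2⟩
  -- the pairs of sets
  set F : ℕ → Finset ℕ × Finset ℕ := fun m => ((m ^ d + 1).primeFactors, m.primeFactors) with hF
  have hfib : ∀ A ∈ S.image F, #{m ∈ S | F m = A} ≤ (Nat.log 2 N + 1) ^ k := by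
    intro A hA
    obtain ⟨m₀, hm₀, rfl⟩ := Finset.mem_image.1 hA
    have hk₀ := (hmem m₀ hm₀).2.2.1
    refine (countRad m₀.primeFactors (Nat.log 2 N) _ ?_).trans
      (Nat.pow_le_pow_right (Nat.succ_pos _) hk₀)
    intro m hm
    rw [Finset.mem_filter] at hm
    obtain ⟨h1, h2, -⟩ := hmem m hm.1
    refine ⟨by omega, congrArg Prod.snd hm.2, fun p => ?_⟩
    rcases Nat.eq_zero_or_pos (m.factorization p) with h0 | h0
    · omega
    have hpp : p.Prime := by
      by_contra hnp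
      rw [Nat.factorization_eq_zero_of_not_prime m hnp] at h0
      omega
    have h3 : 2 ^ m.factorization p ≤ N :=
      calc 2 ^ m.factorization p ≤ p ^ m.factorization p := Nat.pow_le_pow_left hpp.two_le _
        _ ≤ m := Nat.le_of_dvd (by omega) (Nat.ordProj_dvd m p)
        _ ≤ N := h2
    exact Nat.le_log_of_pow_le (by norm_num) h3
  have hcard : #S ≤ (Nat.log 2 N + 1) ^ k * #(S.image F) :=
    Finset.card_le_mul_card_image S _ hfib
  have himg : #(S.image F) ≤ (k + 1) ^ 2 * mR b t (2 * k) (2 * k) := by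
    have hsub : S.image F ⊆ (Finset.range (k + 1) ×ˢ Finset.range (k + 1)).biUnion
        fun r => {A ∈ S.image F | #A.1 = r.1 ∧ #A.2 = r.2} := by
      intro A hA
      obtain ⟨m, hm, rfl⟩ := Finset.mem_image.1 hA
      obtain ⟨-, -, h3, h4, -⟩ := hmem m hm
      rw [Finset.mem_biUnion]
      refine ⟨(#(m ^ d + 1).primeFactors, #m.primeFactors), ?_, ?_⟩
      · rw [Finset.mem_product, Finset.mem_range, Finset.mem_range]
        exact ⟨Nat.lt_succ_of_le h4, Nat.lt_succ_of_le h3⟩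
      · rw [Finset.mem_filter]
        exact ⟨hA, rfl, rfl⟩
    refine (Finset.card_le_card hsub).trans ?_
    refine (Finset.card_biUnion_le_card_mul _ _ (mR b t (2 * k) (2 * k)) ?_).trans ?_
    · intro r hr
      rw [Finset.mem_product, Finset.mem_range, Finset.mem_range] at hr
      have hr2 : r.1 + r.2 ≤ 2 * k := by omega
      have hbb : #(∅ : Finset ℕ) + (r.1 + r.2) ≤ b := by
        have := hMC.le_b
        rw [Finset.card_empty]
        omega
      refine le_trans (boundSet (QT t) b t (2 * k) 0 (thmRT b t (2 * k) hMC) ∅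
        (fun p hp => absurd hp (Finset.notMem_empty p)) (Finset.notMem_empty 0) r.1 r.2 hr2 hbb
        _ ?_) (MLarge_mono hMC (by omega) hr2)
      intro A hA
      rw [Finset.mem_filter] at hA
      obtain ⟨hA1, hA2, hA3⟩ := hA
      obtain ⟨m, hm, rfl⟩ := Finset.mem_image.1 hA1
      obtain ⟨h1, h2, -, -, n, hP, hlo, hhi⟩ := hmem m hm
      have := MLarge_sol (k := k) hd ht hb h1 h2 hP hlo hhi
      rw [← hA2, ← hA3]
      exact this
    · rw [Finset.card_product, Finset.card_range]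
      exact le_of_eq (by ring)
  calc #S ≤ (Nat.log 2 N + 1) ^ k * #(S.image F) := hcard
    _ ≤ (Nat.log 2 N + 1) ^ k * ((k + 1) ^ 2 * mR b t (2 * k) (2 * k)) :=
        Nat.mul_le_mul_left _ himg
    _ = _ := by ring

end Pool.Agent.Lib.MP_c831ba_nt
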