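import Pool.Agent.Lib.MP_c831ba_nt.CountK
import Pool.Agent.Lib.MP_c831ba_nt.MBasic

/-!
Module MMiddle: the count of the `m` such that `S(m ^ d)` has another element `n` of moderate size (see Middle.lean).
-/

namespace Pool.Agent.Lib.MP_c831ba_nt

open Finset

private theorem mfac_le {n b : ℕ} (hn : n ≠ 0) (hb : n < 2 ^ b) (p : ℕ) :
    n.factorization p ≤ b := by
  by_cases hp : p.Prime
  · have h1 : p ^ n.factorization p ≤ n :=
      Nat.le_of_dvd (Nat.pos_of_ne_zero hn) (Nat.ordProj_dvd n p)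
    have h2 : 2 ^ n.factorization p ≤ p ^ n.factorization p :=
      Nat.pow_le_pow_left hp.two_le _
    have h3 : 2 ^ n.factorization p < 2 ^ b := lt_of_le_of_lt (h2.trans h1) hb
    exact ((Nat.pow_lt_pow_iff_right (by norm_num)).1 h3).le
  · rw [Nat.factorization_eq_zero_of_not_prime n hp]
    exact Nat.zero_le _

private theorem mtwo_pow_card_le {Z : ℕ} (hZ : Z ≠ 0) : 2 ^ #Z.primeFactors ≤ Z := by
  calc 2 ^ #Z.primeFactors = ∏ _p ∈ Z.primeFactors, 2 := by rw [prod_const]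
    _ ≤ ∏ p ∈ Z.primeFactors, p :=
        Finset.prod_le_prod (fun _ _ => by norm_num)
          (fun p hp => (Nat.prime_of_mem_primeFactors hp).two_le)
    _ ≤ Z := Nat.le_of_dvd (Nat.pos_of_ne_zero hZ) (Nat.prod_primeFactors_dvd Z)

private theorem mpf_ordCompl (n p : ℕ) :
    (n / p ^ n.factorization p).primeFactors = n.primeFactors.erase p := by
  rw [← Nat.support_factorization, Nat.factorization_ordCompl, Finsupp.support_erase,
    Nat.support_factorization]

/-- the numbers `g` with the primes of `h` -/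
private noncomputable def MGG (B h : ℕ) : Finset ℕ :=
  (range (2 ^ B)).filter (fun g => g ≠ 0 ∧ g.primeFactors = h.primeFactors)

/-- the numbers `m` for given `h`, `J`, `g` -/
private noncomputable def MTS (d N k B h J g : ℕ) : Finset ℕ :=
  (Icc 3 N).filter (fun m => #(m ^ d + 1).primeFactors ≤ k ∧
    (m ^ d + 1).primeFactors ⊆ (ZM d J h g).primeFactors ∧
      #(ZM d J h g).primeFactors ≤ d * (B + 1) * (Nat.log 2 N + 2) + 1)

private theorem MGG_card (B h k : ℕ) (hk : #h.primeFactors ≤ k) : #(MGG B h) ≤ (B + 1) ^ k := by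
  refine (countRad h.primeFactors B (MGG B h) ?_).trans
    (Nat.pow_le_pow_right (Nat.succ_pos B) hk)
  intro g hg
  obtain ⟨h1, h2, h3⟩ := mem_filter.1 hg
  exact ⟨h2, h3, mfac_le h2 (mem_range.1 h1)⟩

private theorem MTS_card (d N k B h J g : ℕ) (hd : 1 ≤ d) :
    #(MTS d N k B h J g) ≤
      ((d * (B + 1) * (Nat.log 2 N + 2) + 2) * (d * (Nat.log 2 N + 1) + 2)) ^ k := by
  by_cases hW : #(ZM d J h g).primeFactors ≤ d * (B + 1) * (Nat.log 2 N + 2) + 1
  · have hinj : Set.InjOn (fun m : ℕ => m ^ d + 1) (MTS d N k B h J g) := by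
      intro a _ b _ hab
      exact Nat.pow_left_injective (by omega) (Nat.succ_injective hab)
    rw [← card_image_of_injOn hinj]
    refine (countK (ZM d J h g).primeFactors k (d * (Nat.log 2 N + 1) + 1) _ ?_).trans ?_
    · intro x hx
      obtain ⟨m, hm, rfl⟩ := mem_image.1 hx
      obtain ⟨h1, h2, h3, -⟩ := mem_filter.1 hm
      refine ⟨Nat.succ_ne_zero _, h3, h2, mfac_le (Nat.succ_ne_zero _) ?_⟩
      have hmN : m ≤ N := (mem_Icc.1 h1).2
      have hN : N < 2 ^ (Nat.log 2 N + 1) := Nat.lt_pow_succ_log_self (by norm_num) N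
      have h5 : m ^ d < (2 ^ (Nat.log 2 N + 1)) ^ d :=
        Nat.pow_lt_pow_left (lt_of_le_of_lt hmN hN) (by omega)
      rw [← pow_mul, mul_comm (Nat.log 2 N + 1) d] at h5
      have h6 : 2 ^ (d * (Nat.log 2 N + 1) + 1) = 2 * 2 ^ (d * (Nat.log 2 N + 1)) := by ring
      rw [h6]
      omega
    · refine Nat.pow_le_pow_left ?_ k
      exact Nat.mul_le_mul (by omega) (by omega)
  · have : MTS d N k B h J g = ∅ := by
      unfold MTS
      rw [filter_eq_empty_iff]
      intro m _ hm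
      exact hW hm.2.2
    rw [this, card_empty]
    exact Nat.zero_le _

open Classical in
theorem mmiddle (d N k y B : ℕ) (hd : 1 ≤ d) :
    #{m ∈ Icc 3 N | #m.primeFactors ≤ k ∧ #(m ^ d + 1).primeFactors ≤ k ∧
        (∃ P : ℕ, P.Prime ∧ y ≤ P ∧ P ∣ m ∧ ¬ P ^ 2 ∣ m) ∧
          ∃ n, Mate d m n ∧ n + 1 < 2 ^ B} * y ≤
      N * (B + 1) ^ (k + 1) *
        ((d * (B + 1) * (Nat.log 2 N + 2) + 2) * (d * (Nat.log 2 N + 1) + 2)) ^ k := by
  rcases Nat.eq_zero_or_pos y with rfl | hy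
  · simp
  set M := ((d * (B + 1) * (Nat.log 2 N + 2) + 2) * (d * (Nat.log 2 N + 1) + 2)) ^ k with hM
  set S := {m ∈ Icc 3 N | #m.primeFactors ≤ k ∧ #(m ^ d + 1).primeFactors ≤ k ∧
        (∃ P : ℕ, P.Prime ∧ y ≤ P ∧ P ∣ m ∧ ¬ P ^ 2 ∣ m) ∧
          ∃ n, Mate d m n ∧ n + 1 < 2 ^ B} with hS
  set H := (Icc 1 (N / y)).filter (fun h => #h.primeFactors ≤ k) with hH
  have hsub : S ⊆ H.biUnion fun h => (range (B + 1)).biUnion fun J =>
      (MGG B h).biUnion fun g => MTS d N k B h J g := by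
    intro m hm
    obtain ⟨hmI, hmk, hmk', ⟨P, hP, hyP, hPm, hPm2⟩, n, hpart, hnB⟩ := mem_filter.1 hm
    obtain ⟨hm3, hmN⟩ := mem_Icc.1 hmI
    have hm0 : m ≠ 0 := by omega
    have hn1 : 1 ≤ n := hpart.1
    have hn0 : n ≠ 0 := by omega
    have hpf : n.primeFactors = m.primeFactors := hpart.2.2.1
    have hPmem : P ∈ m.primeFactors := Nat.mem_primeFactors.2 ⟨hP, hPm, hm0⟩
    have hPn : P ∣ n := Nat.dvd_of_mem_primeFactors (hpf ▸ hPmem)
    have hmf : m.factorization P = 1 := by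
      have h1 : 1 ≤ m.factorization P := (hP.dvd_iff_one_le_factorization hm0).1 hPm
      have h2 : ¬ 2 ≤ m.factorization P := fun h =>
        hPm2 ((hP.pow_dvd_iff_le_factorization hm0).2 h)
      omega
    have hJ1 : 1 ≤ n.factorization P := (hP.dvd_iff_one_le_factorization hn0).1 hPn
    obtain ⟨J, hJ⟩ : ∃ J, J = n.factorization P := ⟨_, rfl⟩
    obtain ⟨g, hg⟩ : ∃ g, g = n / P ^ n.factorization P := ⟨_, rfl⟩
    obtain ⟨h, hh⟩ : ∃ h, h = m / P ^ m.factorization P := ⟨_, rfl⟩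
    have e1 : P ^ J * g = n := by rw [hJ, hg]; exact Nat.ordProj_mul_ordCompl_eq_self n P
    have e2 : P * h = m := by
      have := Nat.ordProj_mul_ordCompl_eq_self m P
      rw [← hh, hmf, pow_one] at this
      exact this
    have hgpos : 0 < g := by rw [hg]; exact Nat.ordCompl_pos P hn0
    have hhpos : 0 < h := by rw [hh]; exact Nat.ordCompl_pos P hm0
    have hrel : n * h ^ J = m ^ J * g := by
      rw [← e1, ← e2, mul_pow]; ring
    have hgpf : g.primeFactors = h.primeFactors := by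
      rw [hg, hh, mpf_ordCompl, mpf_ordCompl, hpf]
    have hhk : #h.primeFactors ≤ k := by
      rw [hh, mpf_ordCompl]
      exact (card_le_card (erase_subset _ _)).trans hmk
    have hhy : h ≤ N / y := by
      rw [Nat.le_div_iff_mul_le hy]
      calc h * y ≤ h * P := Nat.mul_le_mul_left _ hyP
        _ = m := by rw [mul_comm]; exact e2
        _ ≤ N := hmN
    have hnB' : n < 2 ^ B := by omega
    have hgn : g ≤ n := Nat.le_of_dvd hn1 ⟨P ^ J, by rw [← e1]; ring⟩
    have hJB : J ≤ B := by rw [hJ]; exact mfac_le hn0 hnB' P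
    have hZ0 : ZM d J h g ≠ 0 := mkey_ne hd hm3 hpart hhpos (hJ ▸ hJ1) hrel
    have hZW : (m ^ d + 1).primeFactors ⊆ (ZM d J h g).primeFactors := by
      intro q hq
      have hq1 := Nat.prime_of_mem_primeFactors hq
      have hq2 := Nat.dvd_of_mem_primeFactors hq
      have hq3 : q ∣ n + 1 := Nat.dvd_of_mem_primeFactors (hpart.2.2.2 ▸ hq)
      exact Nat.mem_primeFactors.2 ⟨hq1, mkey_dvd hrel hq2 hq3, hZ0⟩
    -- the size of `Z`
    have hN : N < 2 ^ (Nat.log 2 N + 1) := Nat.lt_pow_succ_log_self (by norm_num) N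
    have hhN : h ≤ 2 ^ (Nat.log 2 N + 1) := by
      have : h ≤ m := by rw [← e2]; exact Nat.le_mul_of_pos_left h hP.pos
      omega
    have hb1 : h ^ (d * J) ≤ 2 ^ (d * B * (Nat.log 2 N + 1)) := by
      calc h ^ (d * J) ≤ (2 ^ (Nat.log 2 N + 1)) ^ (d * J) := Nat.pow_le_pow_left hhN _
        _ ≤ (2 ^ (Nat.log 2 N + 1)) ^ (d * B) :=
            Nat.pow_le_pow_right (by positivity) (Nat.mul_le_mul_left d hJB)
        _ = 2 ^ (d * B * (Nat.log 2 N + 1)) := by rw [← pow_mul]; congr 1; ring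
    have hb2 : g ^ d ≤ 2 ^ (d * B * (Nat.log 2 N + 1)) := by
      have h7 : g ^ d ≤ (2 ^ B) ^ d := Nat.pow_le_pow_left (hgn.trans hnB'.le) d
      refine h7.trans ?_
      rw [← pow_mul]
      refine Nat.pow_le_pow_right (by norm_num) ?_
      calc B * d = d * B * 1 := by ring
        _ ≤ d * B * (Nat.log 2 N + 1) := Nat.mul_le_mul_left _ (by omega)
    have hZle : ZM d J h g ≤ 2 ^ (d * B * (Nat.log 2 N + 1) + 1) := by
      have h9 : ZM d J h g ≤ h ^ (d * J) + g ^ d := by
        unfold ZM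
        refine (Int.natAbs_sub_le _ _).trans ?_
        refine Nat.add_le_add (le_of_eq ?_) (le_of_eq ?_)
        · rw [Int.natAbs_pow, Int.natAbs_natCast]
        · rw [Int.natAbs_mul, Int.natAbs_pow, Int.natAbs_pow, Int.natAbs_neg, Int.natAbs_one,
            one_pow, one_mul, Int.natAbs_natCast]
      have h10 : 2 ^ (d * B * (Nat.log 2 N + 1) + 1) =
          2 ^ (d * B * (Nat.log 2 N + 1)) + 2 ^ (d * B * (Nat.log 2 N + 1)) := by ring
      omega
    have hcard : #(ZM d J h g).primeFactors ≤ d * (B + 1) * (Nat.log 2 N + 2) + 1 := by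
      have h11 := (mtwo_pow_card_le hZ0).trans hZle
      have h12 := (Nat.pow_le_pow_iff_right (by norm_num)).1 h11
      have h13 : d * B * (Nat.log 2 N + 1) ≤ d * (B + 1) * (Nat.log 2 N + 2) := by gcongr <;> omega
      omega
    refine mem_biUnion.2 ⟨h, mem_filter.2 ⟨mem_Icc.2 ⟨hhpos, hhy⟩, hhk⟩, ?_⟩
    refine mem_biUnion.2 ⟨J, mem_range.2 (by omega), ?_⟩
    refine mem_biUnion.2 ⟨g, mem_filter.2 ⟨mem_range.2 (by omega), hgpos.ne', hgpf⟩, ?_⟩
    exact mem_filter.2 ⟨hmI, hmk', hZW, hcard⟩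
  have hcard : #S ≤ (N / y) * ((B + 1) * ((B + 1) ^ k * M)) := by
    refine (card_le_card hsub).trans ?_
    refine (card_biUnion_le_card_mul _ _ ((B + 1) * ((B + 1) ^ k * M)) ?_).trans ?_
    · intro h hh
      refine (card_biUnion_le_card_mul _ _ ((B + 1) ^ k * M) ?_).trans ?_
      · intro J _
        refine (card_biUnion_le_card_mul _ _ M ?_).trans ?_
        · intro g _
          exact MTS_card d N k B h J g hd
        · exact Nat.mul_le_mul_right _ (MGG_card B h k (mem_filter.1 hh).2)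
      · rw [card_range]
    · refine Nat.mul_le_mul_right _ ?_
      refine (card_le_card (filter_subset _ _)).trans ?_
      rw [Nat.card_Icc]
      exact (Nat.add_sub_cancel (N / y) 1).le
  calc #S * y ≤ (N / y) * ((B + 1) * ((B + 1) ^ k * M)) * y := Nat.mul_le_mul_right _ hcard
    _ = (N / y * y) * (B + 1) ^ (k + 1) * M := by ring
    _ ≤ N * (B + 1) ^ (k + 1) * M :=
        Nat.mul_le_mul_right _ (Nat.mul_le_mul_right _ (Nat.div_mul_le_self N y))

end Pool.Agent.Lib.MP_c831ba_nt
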