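import Pool.Agent.Lib.MP_c831ba_nt.Defs
import Pool.Agent.Lib.MP_c831ba_nt.CountK

/-!
Module NoBig: numbers without a prime `P ≥ y` which divides them exactly once.

Such an `m` either has all its primes in `range y` (then `countK` with `W = range y`, `E = Nat.log 2 N`: `m.factorization p ≤ Nat.log 2 m`,
since `2 ^ v ≤ p ^ v ≤ m`; `Nat.factorization_le..`/`Nat.le_log_of_pow_le`; `((y + 1) * (log 2 N + 1)) ^ k`), or it is divisible by `P ^ 2` for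
a prime `P ≥ y`, `P ≤ N`. The number of the latter is at most `∑_{y ≤ P ≤ N} N / P ^ 2 ≤ N * ∑_{q ≥ y} 1 / q ^ 2 ≤ 2 N / y`
(`∑_{q = y}^{N} 1 / q ^ 2 ≤ 2 / y` by induction on `N`: `∑_{q=y}^{M} 1/q^2 ≤ 2 / y - 1 / M` for `M ≥ y ≥ 1`; Mathlib also has
`sum_Ioc_inv_sq_le_sub`, `sum_Ioo_inv_sq_le`). Module CountK may be unfinished (use its statement).
-/

namespace Pool.Agent.Lib.MP_c831ba_nt

open Finset

private lemma noBig_fac {N m p : ℕ} (hm : m ≠ 0) (hN : m ≤ N) :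
    m.factorization p ≤ Nat.log 2 N := by
  by_cases hp : p.Prime
  · have h1 : p ^ m.factorization p ≤ m := Nat.ordProj_le p hm
    have h2 : 2 ^ m.factorization p ≤ p ^ m.factorization p :=
      Nat.pow_le_pow_left hp.two_le _
    exact Nat.le_log_of_pow_le (by norm_num) (h2.trans (h1.trans hN))
  · rw [Nat.factorization_eq_zero_of_not_prime m hp]
    exact Nat.zero_le _

private lemma noBig_cnt (N q : ℕ) : #{m ∈ Icc 1 N | q ^ 2 ∣ m} = N / q ^ 2 := by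
  rw [← Nat.Ioc_filter_dvd_card_eq_div]
  congr 1

private lemma noBig_sum (N y : ℕ) (hy : 1 ≤ y) :
    ∑ q ∈ Icc y N, ((N / q ^ 2 : ℕ) : ℝ) ≤ 2 * N / y := by
  have h1 : ∑ q ∈ Icc y N, ((N / q ^ 2 : ℕ) : ℝ) ≤ ∑ q ∈ Icc y N, (N : ℝ) * ((q : ℝ) ^ 2)⁻¹ := by
    apply Finset.sum_le_sum
    intro q _
    refine (Nat.cast_div_le).trans ?_
    rw [Nat.cast_pow, div_eq_mul_inv]
  have h2 : Icc y N = Ioo (y - 1) (N + 1) := by
    ext q
    simp only [mem_Icc, mem_Ioo]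
    omega
  have h3 := sum_Ioo_inv_sq_le (α := ℝ) (y - 1) (N + 1)
  rw [← Finset.mul_sum, h2] at h1
  have h4 : ((y - 1 : ℕ) : ℝ) + 1 = y := by
    rw [Nat.cast_sub hy]
    push_cast
    ring
  rw [h4] at h3
  calc ∑ q ∈ Icc y N, ((N / q ^ 2 : ℕ) : ℝ) ≤ N * ∑ q ∈ Ioo (y - 1) (N + 1), ((q : ℝ) ^ 2)⁻¹ := by
        rw [h2]; exact h1
    _ ≤ N * (2 / y) := by
        apply mul_le_mul_of_nonneg_left h3 (Nat.cast_nonneg N)
    _ = 2 * N / y := by ring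

open Classical in
theorem noBig (N k y : ℕ) (hy : 1 ≤ y) :
    (#{m ∈ Icc 1 N | #m.primeFactors ≤ k ∧ ∀ P : ℕ, P.Prime → y ≤ P → P ∣ m → P ^ 2 ∣ m} : ℝ) ≤
      (((y : ℝ) + 1) * ((Nat.log 2 N : ℝ) + 1)) ^ k + 2 * N / y := by
  set S := {m ∈ Icc 1 N | #m.primeFactors ≤ k ∧
    ∀ P : ℕ, P.Prime → y ≤ P → P ∣ m → P ^ 2 ∣ m} with hS
  set A := S.filter (fun m => m.primeFactors ⊆ range y) with hA
  set B := S.filter (fun m => ¬ m.primeFactors ⊆ range y) with hB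
  have hAB : #S = #A + #B := (Finset.card_filter_add_card_filter_not (s := S) _).symm
  have hA1 : #A ≤ ((#(range y) + 1) * (Nat.log 2 N + 1)) ^ k := by
    apply countK
    intro n hn
    rw [hA, mem_filter, hS, mem_filter, mem_Icc] at hn
    have hn0 : n ≠ 0 := by omega
    exact ⟨hn0, hn.2, hn.1.2.1, fun p => noBig_fac hn0 hn.1.1.2⟩
  have hB1 : B ⊆ (Icc y N).biUnion (fun q => {m ∈ Icc 1 N | q ^ 2 ∣ m}) := by
    intro m hm
    rw [hB, mem_filter, hS, mem_filter, mem_Icc, Finset.not_subset] at hm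
    obtain ⟨⟨hm1, -, hm2⟩, P, hP, hPy⟩ := hm
    rw [mem_range, not_lt] at hPy
    have hPp := Nat.prime_of_mem_primeFactors hP
    have hPd := Nat.dvd_of_mem_primeFactors hP
    have hPm : P ≤ m := Nat.le_of_dvd (by omega) hPd
    rw [mem_biUnion]
    exact ⟨P, mem_Icc.2 ⟨hPy, by omega⟩, mem_filter.2 ⟨mem_Icc.2 hm1, hm2 P hPp hPy hPd⟩⟩
  have hB2 : #B ≤ ∑ q ∈ Icc y N, N / q ^ 2 := by
    refine (Finset.card_le_card hB1).trans (Finset.card_biUnion_le.trans ?_)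
    apply Finset.sum_le_sum
    intro q _
    exact (noBig_cnt N q).le
  have hB3 : (#B : ℝ) ≤ 2 * N / y := by
    refine le_trans ?_ (noBig_sum N y hy)
    have : (#B : ℝ) ≤ ((∑ q ∈ Icc y N, N / q ^ 2 : ℕ) : ℝ) := by exact_mod_cast hB2
    rwa [Nat.cast_sum] at this
  have hA2 : (#A : ℝ) ≤ (((y : ℝ) + 1) * ((Nat.log 2 N : ℝ) + 1)) ^ k := by
    rw [card_range] at hA1
    have : (#A : ℝ) ≤ ((((y + 1) * (Nat.log 2 N + 1)) ^ k : ℕ) : ℝ) := by exact_mod_cast hA1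
    simpa using this
  rw [hAB, Nat.cast_add]
  exact add_le_add hA2 hB3

end Pool.Agent.Lib.MP_c831ba_nt
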