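import Pool.Agent.Lib.MP_c831ba_nt.MCRLem

/-!
Module NumLarge. Use `log_mR_le` and `mR_pos` (MCRLem.lean, finished) with `R₀ = 2 * kU u`, `4 ≤ R₀`, `u / 10 - 2 ≤ R₀ ≤ u / 10`, `log (bU d u) ≤ R₀` for `u` large (`bU d u ≤ (d + 1) u ^ 4 + 1`), `1 ≤ t`
(`t ≥ TU u - 1 ≥ u ^ 2 - 1`), `log t ≤ log C + 16 log u`. So `log mR ≤ 100 (u / 10 + 1) ^ 3 (u / 10 + 1 + log C + 16 log u) ≤ u ^ 4 / 20` for `u` large (it is `u ^ 4 / 100 + O(u ^ 3 log u)`).
`Nat.log 2 N ≤ 2 u ^ 4`, so `(log 2 N + 1) ^ kU u ≤ exp ((u / 20) log (2 u ^ 4 + 1)) ≤ exp (u ^ 2)`. The rest is polynomial in `u`, at most `exp (u ^ 2)`. Total at most `exp (u ^ 4 / 20 + 2 u ^ 2) ≤ exp (u ^ 4 - 2 u)`.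
-/

namespace Pool.Agent.Lib.MP_c831ba_nt

open Finset Pool.Agent.Lib.MP_5349b0_nt.SZ7

private theorem NumLarge_ev (K : ℝ) : ∃ u₀ : ℝ, ∀ u : ℝ, u₀ ≤ u →
    10 ^ 4 ≤ u ∧ K ≤ u / 1000 ∧ Real.log u ≤ u / 1000 := by
  have h1 : ∀ᶠ u : ℝ in Filter.atTop, ‖Real.log u‖ ≤ (1 / 1000) * ‖id u‖ :=
    Real.isLittleO_log_id_atTop.bound (by norm_num)
  have h2 : ∀ᶠ u : ℝ in Filter.atTop, (10 : ℝ) ^ 4 ≤ u := Filter.eventually_ge_atTop _
  have h3 : ∀ᶠ u : ℝ in Filter.atTop, 1000 * K ≤ u := Filter.eventually_ge_atTop _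
  obtain ⟨u₀, hu₀⟩ := Filter.eventually_atTop.1 (h1.and (h2.and h3))
  refine ⟨u₀, fun u hu => ?_⟩
  obtain ⟨g1, g2, g3⟩ := hu₀ u hu
  refine ⟨g2, by linarith, ?_⟩
  have hu0 : (0 : ℝ) ≤ u := le_trans (by norm_num) g2
  rw [Real.norm_eq_abs, Real.norm_eq_abs, id, abs_of_nonneg hu0] at g1
  have := le_abs_self (Real.log u)
  linarith

theorem numLarge (d : ℕ) (hd : 1 ≤ d) (C : ℝ) (hC : 0 < C) : ∃ u₀ : ℝ, ∀ u : ℝ, u₀ ≤ u →
    ∀ N : ℕ, (N : ℝ) ≤ Real.exp (u ^ 4) → ∀ t : ℕ, TU u ≤ t + 1 → (t : ℝ) ≤ C * u ^ 16 →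
      (C * u ^ 16 + 1) * (((kU u : ℝ) + 1) ^ 2 * (mR (bU d u) t (2 * kU u) (2 * kU u) : ℝ) *
        ((Nat.log 2 N : ℝ) + 1) ^ kU u) ≤ Real.exp (u ^ 4) * Real.exp (-(2 * u)) := by
  obtain ⟨u₀, hu₀⟩ := NumLarge_ev (Real.log (C + 1) + Real.log ((d : ℝ) + 2))
  refine ⟨u₀, fun u hu N hN t ht htC => ?_⟩
  obtain ⟨hu4, hK, hlog⟩ := hu₀ u hu
  have hd' : (0 : ℝ) ≤ (d : ℝ) := Nat.cast_nonneg _
  have hlC : 0 ≤ Real.log (C + 1) := Real.log_nonneg (by linarith)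
  have hld : 0 ≤ Real.log ((d : ℝ) + 2) := Real.log_nonneg (by linarith)
  have hu1 : (1 : ℝ) ≤ u := le_trans (by norm_num) hu4
  have hup : (0 : ℝ) < u := lt_of_lt_of_le one_pos hu1
  have hlu : 0 ≤ Real.log u := Real.log_nonneg hu1
  have hu16 : (1 : ℝ) ≤ u ^ 16 := one_le_pow₀ hu1
  have hu44 : (1 : ℝ) ≤ u ^ 4 := one_le_pow₀ hu1
  -- the number of primes
  have hk1 : (kU u : ℝ) ≤ u / 20 := by
    unfold kU
    exact Nat.floor_le (by positivity)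
  have hk2 : u / 20 - 1 < (kU u : ℝ) := by
    unfold kU
    exact Nat.sub_one_lt_floor _
  have hk3 : 4 ≤ 2 * kU u := by
    have : (1 : ℝ) < (kU u : ℝ) := by linarith
    have h' : 1 < kU u := by exact_mod_cast this
    omega
  -- b
  have hb1 : 1 ≤ bU d u := by
    unfold bU
    exact Nat.one_le_ceil_iff.2 (by positivity)
  have hb2 : (bU d u : ℝ) ≤ ((d : ℝ) + 2) * u ^ 4 := by
    have : (bU d u : ℝ) < ((d : ℝ) + 1) * u ^ 4 + 1 := by
      unfold bU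
      exact Nat.ceil_lt_add_one (by positivity)
    nlinarith
  have hlb : Real.log (bU d u : ℝ) ≤ ((2 * kU u : ℕ) : ℝ) := by
    have h0 : (0 : ℝ) < (bU d u : ℝ) := by exact_mod_cast hb1
    have h1 : Real.log (bU d u : ℝ) ≤ Real.log (((d : ℝ) + 2) * u ^ 4) :=
      Real.log_le_log h0 hb2
    rw [Real.log_mul (by positivity) (by positivity), Real.log_pow] at h1
    push_cast at h1 ⊢
    linarith
  -- t
  have ht1 : 1 ≤ t := by
    have h1 : (u : ℝ) ^ 2 ≤ (TU u : ℝ) := by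
      unfold TU
      exact Nat.le_ceil _
    have h2 : (TU u : ℝ) ≤ (t : ℝ) + 1 := by exact_mod_cast ht
    have h3 : (1 : ℝ) < (t : ℝ) := by nlinarith
    have h4 : 1 < t := by exact_mod_cast h3
    omega
  have htl : Real.log (t : ℝ) ≤ Real.log (C + 1) + 16 * Real.log u := by
    have h0 : (0 : ℝ) < (t : ℝ) := by exact_mod_cast ht1
    have h1 : (t : ℝ) ≤ (C + 1) * u ^ 16 := htC.trans (by nlinarith)
    have h2 := Real.log_le_log h0 h1
    rw [Real.log_mul (by positivity) (by positivity), Real.log_pow] at h2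
    push_cast at h2
    exact h2
  have htl0 : 0 ≤ Real.log (t : ℝ) := Real.log_nonneg (by exact_mod_cast ht1)
  -- mR
  have hm1 := log_mR_le (b := bU d u) (t := t) (R₀ := 2 * kU u) hb1 ht1 hk3 hlb
  have hm0 : (0 : ℝ) < (mR (bU d u) t (2 * kU u) (2 * kU u) : ℝ) := by
    exact_mod_cast mR_pos hb1 ht1 hlb _
  have hR1 : ((2 * kU u : ℕ) : ℝ) + 1 ≤ (1001 / 10000) * u := by
    push_cast
    linarith
  have hR0 : 0 ≤ ((2 * kU u : ℕ) : ℝ) + 1 := by positivity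
  have hm2 : Real.log (mR (bU d u) t (2 * kU u) (2 * kU u) : ℝ) ≤ u ^ 4 / 20 := by
    refine hm1.trans ?_
    have h1 : (((2 * kU u : ℕ) : ℝ) + 1) ^ 3 ≤ ((1001 / 10000) * u) ^ 3 :=
      pow_le_pow_left₀ hR0 hR1 3
    have h2 : ((2 * kU u : ℕ) : ℝ) + 1 + Real.log (t : ℝ) ≤ (1 / 8) * u := by linarith
    have h3 : 0 ≤ ((2 * kU u : ℕ) : ℝ) + 1 + Real.log (t : ℝ) := by linarith
    calc 100 * (((2 * kU u : ℕ) : ℝ) + 1) ^ 3 * (((2 * kU u : ℕ) : ℝ) + 1 + Real.log (t : ℝ))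
        ≤ 100 * ((1001 / 10000) * u) ^ 3 * ((1 / 8) * u) := by
          apply mul_le_mul _ h2 h3 (by positivity)
          exact mul_le_mul_of_nonneg_left h1 (by norm_num)
      _ = (100 * (1001 / 10000) ^ 3 * (1 / 8)) * u ^ 4 := by ring
      _ ≤ (1 / 20) * u ^ 4 := mul_le_mul_of_nonneg_right (by norm_num) (by positivity)
      _ = u ^ 4 / 20 := by ring
  have hm3 : (mR (bU d u) t (2 * kU u) (2 * kU u) : ℝ) ≤ Real.exp (u ^ 4 / 20) :=
    (Real.log_le_iff_le_exp hm0).1 hm2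
  -- the other factors
  have hf1 : C * u ^ 16 + 1 ≤ Real.exp u := by
    have h1 : C * u ^ 16 + 1 ≤ (C + 1) * u ^ 16 := by nlinarith
    refine h1.trans ((Real.log_le_iff_le_exp (by positivity)).1 ?_)
    rw [Real.log_mul (by positivity) (by positivity), Real.log_pow]
    push_cast
    linarith
  have hf2 : ((kU u : ℝ) + 1) ^ 2 ≤ Real.exp u := by
    have h1 : (kU u : ℝ) + 1 ≤ u := by linarith
    have h0 : 0 ≤ (kU u : ℝ) + 1 := by positivity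
    have h2 : ((kU u : ℝ) + 1) ^ 2 ≤ u ^ 2 := pow_le_pow_left₀ h0 h1 2
    refine h2.trans ((Real.log_le_iff_le_exp (by positivity)).1 ?_)
    rw [Real.log_pow]
    push_cast
    linarith
  have hf3 : ((Nat.log 2 N : ℝ) + 1) ^ kU u ≤ Real.exp (u ^ 2) := by
    have hl2 := Real.log_two_gt_d9
    have h1 : (Nat.log 2 N : ℝ) ≤ 2 * u ^ 4 := by
      rcases Nat.eq_zero_or_pos N with h | h
      · subst h
        simp only [Nat.log_zero_right, Nat.cast_zero]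
        positivity
      · have h2 : 2 ^ Nat.log 2 N ≤ N := Nat.pow_log_le_self 2 h.ne'
        have h3 : (2 : ℝ) ^ Nat.log 2 N ≤ Real.exp (u ^ 4) := by
          refine le_trans ?_ hN
          exact_mod_cast h2
        have h4 := Real.log_le_log (by positivity) h3
        rw [Real.log_pow, Real.log_exp] at h4
        have h5 : (0 : ℝ) ≤ (Nat.log 2 N : ℝ) := Nat.cast_nonneg _
        nlinarith
    have h2 : (Nat.log 2 N : ℝ) + 1 ≤ 3 * u ^ 4 := by linarith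
    have h3 : (Nat.log 2 N : ℝ) + 1 ≤ Real.exp u := by
      refine h2.trans ((Real.log_le_iff_le_exp (by positivity)).1 ?_)
      rw [Real.log_mul (by norm_num) (by positivity), Real.log_pow]
      have h4 : Real.log 3 ≤ 2 := by
        have := Real.log_le_sub_one_of_pos (show (0 : ℝ) < 3 by norm_num)
        linarith
      push_cast
      linarith
    have h0 : 0 ≤ (Nat.log 2 N : ℝ) + 1 := by positivity
    calc ((Nat.log 2 N : ℝ) + 1) ^ kU u ≤ Real.exp u ^ kU u := pow_le_pow_left₀ h0 h3 _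
      _ = Real.exp ((kU u : ℝ) * u) := by rw [← Real.exp_nat_mul]
      _ ≤ Real.exp (u ^ 2) := by
          apply Real.exp_le_exp.2
          nlinarith
  have hall : (C * u ^ 16 + 1) * (((kU u : ℝ) + 1) ^ 2 *
      (mR (bU d u) t (2 * kU u) (2 * kU u) : ℝ) * ((Nat.log 2 N : ℝ) + 1) ^ kU u) ≤
      Real.exp u * (Real.exp u * Real.exp (u ^ 4 / 20) * Real.exp (u ^ 2)) := by
    have e1 : 0 ≤ ((Nat.log 2 N : ℝ) + 1) ^ kU u := by positivity
    apply mul_le_mul hf1 _ (by positivity) (Real.exp_pos _).le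
    apply mul_le_mul _ hf3 e1 (by positivity)
    exact mul_le_mul hf2 hm3 hm0.le (Real.exp_pos _).le
  refine hall.trans ?_
  rw [← Real.exp_add, ← Real.exp_add, ← Real.exp_add, ← Real.exp_add]
  apply Real.exp_le_exp.2
  have h1 : 10 ^ 4 * u ≤ u ^ 2 := by nlinarith
  have h2 : u ^ 2 ≤ u ^ 4 / 100 := by
    have : (u : ℝ) ^ 4 = u ^ 2 * u ^ 2 := by ring
    have h3 : (100 : ℝ) ≤ u ^ 2 := by nlinarith
    nlinarith [sq_nonneg u]
  linarith

end Pool.Agent.Lib.MP_c831ba_nt
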