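import Pool.Agent.Lib.MP_c831ba_nt.Defs

/-!
Module NumMid. `Nat.log 2 N ≤ 2 u ^ 4` (from `2 ^ (Nat.log 2 N) ≤ N ≤ exp (u ^ 4)` when `N ≥ 1`, and `Nat.log 2 0 = 0`); `TU u ≤ u ^ 2 + 1`, so
`2 ^ TU u + 1 ≤ exp (u ^ 2 + 3)` (`log 2 < 0.7`); `kU u ≤ u / 20`; `yU u ≥ exp (u ^ 3)`. First factor: `≤ exp ((u ^ 2 + 3) (u / 20 + 1))`. Second: the base is at most
`(d exp (u ^ 2 + 3) (2 u ^ 4 + 2) + 2) * (d (2 u ^ 4 + 1) + 2) ≤ exp (2 u ^ 2)` for `u` large, its power `kU u` is at most `exp (u ^ 3 / 10)`. The product is at most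
`exp (u ^ 3 / 20 + u ^ 3 / 10 + u ^ 2 + ..) ≤ exp (u ^ 3 - 2 u)` for `u` large.
-/

namespace Pool.Agent.Lib.MP_c831ba_nt

open Finset

private theorem pow_six_le_exp {u : ℝ} (hu : 144 ≤ u) : u ^ 6 ≤ Real.exp u := by
  have h1 : u / 12 ≤ Real.exp (u / 12) := by
    have := Real.add_one_le_exp (u / 12)
    linarith
  have h2 : (u / 12) ^ 12 ≤ Real.exp (u / 12) ^ 12 := pow_le_pow_left₀ (by linarith) h1 12
  have h3 : Real.exp (u / 12) ^ 12 = Real.exp u := by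
    rw [← Real.exp_nat_mul]
    congr 1
    push_cast
    ring
  have h4 : u ^ 6 ≤ (u / 12) ^ 12 := by
    have h5 : (1 : ℝ) ≤ (u / 144) ^ 6 := one_le_pow₀ (by linarith)
    have h6 : (u / 12) ^ 12 = u ^ 6 * (u / 144) ^ 6 := by ring
    rw [h6]
    nlinarith [pow_nonneg (show (0 : ℝ) ≤ u by linarith) 6]
  linarith [h2, h3, h4]

theorem numMid (d : ℕ) (hd : 1 ≤ d) : ∃ u₀ : ℝ, ∀ u : ℝ, u₀ ≤ u → ∀ N : ℕ,
    (N : ℝ) ≤ Real.exp (u ^ 4) →
    (((2 ^ TU u : ℕ) : ℝ) + 1) ^ (kU u + 1) *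
        (((d : ℝ) * (((2 ^ TU u : ℕ) : ℝ) + 1) * ((Nat.log 2 N : ℝ) + 2) + 2) *
          ((d : ℝ) * ((Nat.log 2 N : ℝ) + 1) + 2)) ^ kU u ≤
      yU u * Real.exp (-(2 * u)) := by
  refine ⟨144 + d, fun u hu N hN => ?_⟩
  have hd1 : (1 : ℝ) ≤ d := by exact_mod_cast hd
  have hu1 : (144 : ℝ) ≤ u := by linarith
  have hud : (d : ℝ) ≤ u := by linarith
  have hu0 : (0 : ℝ) ≤ u := by linarith
  -- the number of digits
  have hlog : (Nat.log 2 N : ℝ) ≤ 2 * u ^ 4 := by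
    rcases Nat.eq_zero_or_pos N with h0 | h0
    · rw [h0, Nat.log_zero_right]
      push_cast
      positivity
    · have h1 : 2 ^ Nat.log 2 N ≤ N := Nat.pow_log_le_self 2 h0.ne'
      have h2 : (2 : ℝ) ^ Nat.log 2 N ≤ Real.exp (u ^ 4) := by
        refine le_trans ?_ hN
        exact_mod_cast h1
      have h3 := Real.log_le_log (by positivity) h2
      rw [Real.log_exp, Real.log_pow] at h3
      have h4 := Real.log_two_gt_d9
      have h5 : (0 : ℝ) ≤ Nat.log 2 N := Nat.cast_nonneg _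
      nlinarith
  set Lg : ℝ := (Nat.log 2 N : ℝ) with hLg
  have hLg0 : 0 ≤ Lg := Nat.cast_nonneg _
  -- the first base
  set A : ℝ := ((2 ^ TU u : ℕ) : ℝ) + 1 with hA
  have hA1 : 1 ≤ A := by
    have : (0 : ℝ) ≤ ((2 ^ TU u : ℕ) : ℝ) := Nat.cast_nonneg _
    linarith
  have hAe : A ≤ Real.exp (u ^ 2 + 3) := by
    have hT : ((TU u : ℕ) : ℝ) < u ^ 2 + 1 := by
      unfold TU
      exact Nat.ceil_lt_add_one (by positivity)
    have h1 : ((2 ^ TU u : ℕ) : ℝ) = Real.exp (TU u * Real.log 2) := by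
      rw [Real.exp_nat_mul, Real.exp_log (by norm_num)]
      push_cast
      rfl
    have h2 : (1 : ℝ) ≤ ((2 ^ TU u : ℕ) : ℝ) := by exact_mod_cast Nat.one_le_two_pow
    have h3 : A ≤ 2 * ((2 ^ TU u : ℕ) : ℝ) := by linarith
    have h4 := Real.log_two_lt_d9
    have h4' := Real.log_two_gt_d9
    have h5 : (2 : ℝ) * ((2 ^ TU u : ℕ) : ℝ) = Real.exp (Real.log 2 + TU u * Real.log 2) := by
      rw [Real.exp_add, Real.exp_log (by norm_num), ← h1]
    rw [h5] at h3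
    refine h3.trans (Real.exp_le_exp.2 ?_)
    nlinarith
  -- the polynomial factor
  have hq : (d : ℝ) * (2 * u ^ 4 + 2) + 2 ≤ Real.exp u := by
    refine le_trans ?_ (pow_six_le_exp hu1)
    have h1 : (1 : ℝ) ≤ u ^ 4 := one_le_pow₀ (by linarith)
    have h2 : (d : ℝ) * (2 * u ^ 4 + 2) + 2 ≤ d * (6 * u ^ 4) := by nlinarith
    have h3 : (d : ℝ) * (6 * u ^ 4) ≤ u * (u * u ^ 4) := by
      apply mul_le_mul hud _ (by positivity) hu0
      nlinarith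
    calc (d : ℝ) * (2 * u ^ 4 + 2) + 2 ≤ d * (6 * u ^ 4) := h2
      _ ≤ u * (u * u ^ 4) := h3
      _ = u ^ 6 := by ring
  have hW : ((d : ℝ) * A * (Lg + 2) + 2) * ((d : ℝ) * (Lg + 1) + 2) ≤
      Real.exp (u ^ 2 + 2 * u + 3) := by
    have h1 : (d : ℝ) * A * (Lg + 2) + 2 ≤ A * (d * (2 * u ^ 4 + 2) + 2) := by
      have h2 : (d : ℝ) * (Lg + 2) ≤ d * (2 * u ^ 4 + 2) :=
        mul_le_mul_of_nonneg_left (by linarith) (by linarith)
      nlinarith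
    have h3 : (d : ℝ) * (Lg + 1) + 2 ≤ d * (2 * u ^ 4 + 2) + 2 := by
      have h2 : (d : ℝ) * (Lg + 1) ≤ d * (2 * u ^ 4 + 2) :=
        mul_le_mul_of_nonneg_left (by linarith) (by linarith)
      linarith
    have h4 : (d : ℝ) * A * (Lg + 2) + 2 ≤ Real.exp (u ^ 2 + 3) * Real.exp u :=
      h1.trans (mul_le_mul hAe hq (by positivity) (by positivity))
    have h5 : Real.exp (u ^ 2 + 2 * u + 3) = Real.exp (u ^ 2 + 3) * Real.exp u * Real.exp u := by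
      rw [← Real.exp_add, ← Real.exp_add]
      congr 1
      ring
    rw [h5]
    exact mul_le_mul h4 (h3.trans hq) (by positivity) (by positivity)
  have hk : ((kU u : ℕ) : ℝ) ≤ u / 20 := by
    unfold kU
    exact Nat.floor_le (by positivity)
  have hF1 : A ^ (kU u + 1) ≤ Real.exp ((u / 20 + 1) * (u ^ 2 + 3)) := by
    refine (pow_le_pow_left₀ (by linarith) hAe _).trans ?_
    rw [← Real.exp_nat_mul]
    refine Real.exp_le_exp.2 ?_
    push_cast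
    exact mul_le_mul_of_nonneg_right (by linarith) (by positivity)
  have hF2 : (((d : ℝ) * A * (Lg + 2) + 2) * ((d : ℝ) * (Lg + 1) + 2)) ^ kU u ≤
      Real.exp (u / 20 * (u ^ 2 + 2 * u + 3)) := by
    refine (pow_le_pow_left₀ (by positivity) hW _).trans ?_
    rw [← Real.exp_nat_mul]
    exact Real.exp_le_exp.2 (mul_le_mul_of_nonneg_right hk (by positivity))
  have hy : Real.exp (u ^ 3) ≤ (yU u : ℝ) := by
    unfold yU
    exact Nat.le_ceil _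
  calc A ^ (kU u + 1) * (((d : ℝ) * A * (Lg + 2) + 2) * ((d : ℝ) * (Lg + 1) + 2)) ^ kU u
      ≤ Real.exp ((u / 20 + 1) * (u ^ 2 + 3)) * Real.exp (u / 20 * (u ^ 2 + 2 * u + 3)) :=
        mul_le_mul hF1 hF2 (by positivity) (by positivity)
    _ = Real.exp ((u / 20 + 1) * (u ^ 2 + 3) + u / 20 * (u ^ 2 + 2 * u + 3)) :=
        (Real.exp_add _ _).symm
    _ ≤ Real.exp (u ^ 3 + -(2 * u)) := by
        refine Real.exp_le_exp.2 ?_
        nlinarith [mul_nonneg hu0 hu0, mul_nonneg (mul_nonneg hu0 hu0) (sub_nonneg.2 hu1),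
          mul_nonneg hu0 (sub_nonneg.2 hu1)]
    _ = Real.exp (u ^ 3) * Real.exp (-(2 * u)) := Real.exp_add _ _
    _ ≤ yU u * Real.exp (-(2 * u)) := mul_le_mul_of_nonneg_right hy (by positivity)

end Pool.Agent.Lib.MP_c831ba_nt
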