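import Pool.Agent.Lib.MP_c831ba_nt.Defs

/-!
Module NumSmall. `Nat.log 2 N ≤ u ^ 4 / log 2 ≤ 2 u ^ 4` (from `2 ^ (Nat.log 2 N) ≤ N ≤ exp (u ^ 4)` when `N ≥ 1`, and `Nat.log 2 0 = 0`);
`exp (u ^ 3) ≤ yU u ≤ exp (u ^ 3) + 1`. So `(yU u + 1) (log 2 N + 1) ≤ (exp (u ^ 3) + 2) (2 u ^ 4 + 1) ≤ exp (2 u ^ 3)` for `u` large, and its power `kU u ≤ u / 20` is at most
`exp (u ^ 4 / 10)`; `2 N / yU u ≤ 2 exp (u ^ 4 - u ^ 3)`. Both are at most `exp (u ^ 4 - 2 u) / 2` for `u` large.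
-/

namespace Pool.Agent.Lib.MP_c831ba_nt

open Finset

theorem numSmall : ∃ u₀ : ℝ, ∀ u : ℝ, u₀ ≤ u → ∀ N : ℕ, (N : ℝ) ≤ Real.exp (u ^ 4) →
    (((yU u : ℝ) + 1) * ((Nat.log 2 N : ℝ) + 1)) ^ kU u + 2 * N / yU u ≤
      Real.exp (u ^ 4) * Real.exp (-(2 * u)) := by
  refine ⟨10, fun u hu N hN => ?_⟩
  have hu0 : (0 : ℝ) < u := by linarith
  have hE3 : (0 : ℝ) < Real.exp (u ^ 3) := Real.exp_pos _
  have hy1 : Real.exp (u ^ 3) ≤ (yU u : ℝ) := Nat.le_ceil _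
  have hy2 : (yU u : ℝ) ≤ Real.exp (u ^ 3) + 1 := (Nat.ceil_lt_add_one hE3.le).le
  have hy0 : (0 : ℝ) < (yU u : ℝ) := hE3.trans_le hy1
  have hu3 : (100 : ℝ) * u ≤ u ^ 3 := by nlinarith [mul_nonneg hu0.le hu0.le, mul_pos hu0 hu0]
  have hu4 : (1000 : ℝ) * u ≤ u ^ 4 := by nlinarith [mul_pos hu0 hu0]
  have hlog : (Nat.log 2 N : ℝ) ≤ 2 * u ^ 4 := by
    rcases Nat.eq_zero_or_pos N with rfl | hN0
    · simp only [Nat.log_zero_right, Nat.cast_zero]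
      positivity
    · have h1 : (2 : ℝ) ^ Nat.log 2 N ≤ N := by exact_mod_cast Nat.pow_log_le_self 2 hN0.ne'
      have h2 := Real.log_le_log (by positivity) (h1.trans hN)
      rw [Real.log_pow, Real.log_exp] at h2
      have h3 := Real.log_two_gt_d9
      have h4 : (0 : ℝ) ≤ (Nat.log 2 N : ℝ) := Nat.cast_nonneg _
      nlinarith
  have hexp3 : (u ^ 3) ^ 2 / 2 ≤ Real.exp (u ^ 3) := by
    have := Real.quadratic_le_exp_of_nonneg (x := u ^ 3) (by positivity)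
    have h2 : (0 : ℝ) ≤ u ^ 3 := by positivity
    linarith
  have hu6 : 8 * u ^ 4 + 4 ≤ (u ^ 3) ^ 2 / 2 := by
    have h1 : (u ^ 3) ^ 2 / 2 = u ^ 2 * u ^ 4 / 2 := by ring
    have h2 : (100 : ℝ) ≤ u ^ 2 := by nlinarith
    have h3 : (0 : ℝ) < u ^ 4 := by positivity
    rw [h1]
    nlinarith
  have hbase : ((yU u : ℝ) + 1) * ((Nat.log 2 N : ℝ) + 1) ≤ Real.exp (2 * u ^ 3) := by
    have h4 : (0 : ℝ) ≤ (Nat.log 2 N : ℝ) + 1 := by positivity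
    have h5 : Real.exp (2 * u ^ 3) = Real.exp (u ^ 3) * Real.exp (u ^ 3) := by
      rw [← Real.exp_add]
      ring_nf
    have h6 : (2 : ℝ) ≤ Real.exp (u ^ 3) := by
      have : (0 : ℝ) < u ^ 4 := by positivity
      linarith
    calc ((yU u : ℝ) + 1) * ((Nat.log 2 N : ℝ) + 1)
        ≤ (2 * Real.exp (u ^ 3)) * (2 * u ^ 4 + 1) := by
          refine mul_le_mul (by linarith) (by linarith) h4 (by positivity)
      _ = Real.exp (u ^ 3) * (4 * u ^ 4 + 2) := by ring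
      _ ≤ Real.exp (u ^ 3) * Real.exp (u ^ 3) := by
          refine mul_le_mul_of_nonneg_left ?_ hE3.le
          have : (0 : ℝ) < u ^ 4 := by positivity
          linarith
      _ = Real.exp (2 * u ^ 3) := h5.symm
  have hb0 : (0 : ℝ) ≤ ((yU u : ℝ) + 1) * ((Nat.log 2 N : ℝ) + 1) := by positivity
  have hk : (kU u : ℝ) ≤ u / 20 := Nat.floor_le (by positivity)
  have hpow : (((yU u : ℝ) + 1) * ((Nat.log 2 N : ℝ) + 1)) ^ kU u ≤ Real.exp (u ^ 4 / 10) := by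
    calc (((yU u : ℝ) + 1) * ((Nat.log 2 N : ℝ) + 1)) ^ kU u ≤ Real.exp (2 * u ^ 3) ^ kU u :=
          pow_le_pow_left₀ hb0 hbase _
      _ = Real.exp (kU u * (2 * u ^ 3)) := (Real.exp_nat_mul _ _).symm
      _ ≤ Real.exp (u ^ 4 / 10) := by
          refine Real.exp_le_exp.2 ?_
          have h7 : (0 : ℝ) ≤ 2 * u ^ 3 := by positivity
          have h8 := mul_le_mul_of_nonneg_right hk h7
          have h9 : u / 20 * (2 * u ^ 3) = u ^ 4 / 10 := by ring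
          linarith
  have hdiv : 2 * (N : ℝ) / yU u ≤ 2 * Real.exp (u ^ 4 - u ^ 3) := by
    rw [Real.exp_sub, div_le_iff₀ hy0]
    have h1 : Real.exp (u ^ 4) ≤ Real.exp (u ^ 4) / Real.exp (u ^ 3) * (yU u : ℝ) := by
      rw [div_mul_eq_mul_div, le_div_iff₀ hE3]
      exact mul_le_mul_of_nonneg_left hy1 (Real.exp_pos _).le
    linarith
  have he1 := Real.exp_one_gt_d9
  have hA : 2 * Real.exp (u ^ 4 / 10) ≤ Real.exp (u ^ 4 - 2 * u) := by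
    calc 2 * Real.exp (u ^ 4 / 10) ≤ Real.exp 1 * Real.exp (u ^ 4 / 10) :=
          mul_le_mul_of_nonneg_right (by linarith) (Real.exp_pos _).le
      _ = Real.exp (1 + u ^ 4 / 10) := (Real.exp_add _ _).symm
      _ ≤ Real.exp (u ^ 4 - 2 * u) := Real.exp_le_exp.2 (by linarith)
  have hB : 4 * Real.exp (u ^ 4 - u ^ 3) ≤ Real.exp (u ^ 4 - 2 * u) := by
    calc 4 * Real.exp (u ^ 4 - u ^ 3) ≤ (Real.exp 1 * Real.exp 1) * Real.exp (u ^ 4 - u ^ 3) :=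
          mul_le_mul_of_nonneg_right (by nlinarith) (Real.exp_pos _).le
      _ = Real.exp (1 + 1 + (u ^ 4 - u ^ 3)) := by rw [Real.exp_add, Real.exp_add]
      _ ≤ Real.exp (u ^ 4 - 2 * u) := Real.exp_le_exp.2 (by linarith)
  have hfin : Real.exp (u ^ 4) * Real.exp (-(2 * u)) = Real.exp (u ^ 4 - 2 * u) := by
    rw [← Real.exp_add]
    ring_nf
  rw [hfin]
  linarith

end Pool.Agent.Lib.MP_c831ba_nt
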