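import Pool.Agent.Lib.MP_c831ba_nt.Defs

/-!
Module NumTail. Write `j = kU u + 1 ≥ u / 20`. `j! ≥ (j / e) ^ j` (Mathlib: `Nat.factorial_lt`.. / `exp_mul_pow_div_le..`; direct:
`j ^ j / j! ≤ exp j` from `Real.pow_div_factorial_le_exp`), so it is enough that `(S * e / j) ^ j ≤ exp (-40 j) ≤ exp (-(2 u))`, i.e.
`S * e / j ≤ exp (-40)`, which follows from `(4 log u + C) * e * 20 ≤ exp (-40) * u` for all large `u` (`Real.isLittleO_log_id_atTop`).
-/

namespace Pool.Agent.Lib.MP_c831ba_nt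

open Finset

theorem numTail (C : ℝ) : ∃ u₀ : ℝ, ∀ u : ℝ, u₀ ≤ u → ∀ S : ℝ, 0 ≤ S →
    S ≤ 4 * Real.log u + C →
      S ^ (kU u + 1) ≤ (kU u + 1).factorial * Real.exp (-(2 * u)) := by
  have h1 : (fun u : ℝ => 4 * Real.log u + C) =o[Filter.atTop] (id : ℝ → ℝ) :=
    (Real.isLittleO_log_id_atTop.const_mul_left 4).add
      (Asymptotics.isLittleO_const_id_atTop C)
  have hε : (0 : ℝ) < Real.exp (-41) / 20 := by positivity
  have h2 := h1.def hε
  rw [Filter.eventually_atTop] at h2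
  obtain ⟨u₁, hu₁⟩ := h2
  refine ⟨max u₁ 0, fun u hu S hS0 hS => ?_⟩
  have hu1 : u₁ ≤ u := (le_max_left _ _).trans hu
  have hu0 : 0 ≤ u := (le_max_right _ _).trans hu
  have h3 := hu₁ u hu1
  rw [Real.norm_eq_abs, Real.norm_eq_abs, id, abs_of_nonneg hu0] at h3
  have h4 : S ≤ Real.exp (-41) / 20 * u := hS.trans ((le_abs_self _).trans h3)
  have hj : u / 20 ≤ ((kU u + 1 : ℕ) : ℝ) := by
    push_cast
    exact (Nat.lt_floor_add_one (u / 20)).le
  generalize kU u + 1 = j at hj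
  have h5 : S ≤ (j : ℝ) * Real.exp (-41) := by
    refine h4.trans ?_
    have : Real.exp (-41) / 20 * u = u / 20 * Real.exp (-41) := by ring
    rw [this]
    exact mul_le_mul_of_nonneg_right hj (Real.exp_pos _).le
  have hfac : (0 : ℝ) < (j.factorial : ℝ) := by exact_mod_cast j.factorial_pos
  have h6 : (j : ℝ) ^ j ≤ j.factorial * Real.exp j := by
    have := Real.pow_div_factorial_le_exp (x := (j : ℝ)) (Nat.cast_nonneg j) j
    rw [div_le_iff₀ hfac] at this
    linarith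
  calc S ^ j ≤ ((j : ℝ) * Real.exp (-41)) ^ j := pow_le_pow_left₀ hS0 h5 j
    _ = (j : ℝ) ^ j * Real.exp (-41 * j) := by
        rw [mul_pow, ← Real.exp_nat_mul]
        ring_nf
    _ ≤ j.factorial * Real.exp j * Real.exp (-41 * j) :=
        mul_le_mul_of_nonneg_right h6 (Real.exp_pos _).le
    _ = j.factorial * Real.exp (-40 * j) := by
        rw [mul_assoc, ← Real.exp_add]
        ring_nf
    _ ≤ j.factorial * Real.exp (-(2 * u)) := by
        refine mul_le_mul_of_nonneg_left (Real.exp_le_exp.2 ?_) hfac.le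
        linarith

end Pool.Agent.Lib.MP_c831ba_nt
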