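import Pool.Agent.Lib.MP_c831ba_nt.Defs

/-!
Module NumTailD. Write `j = (kU u + 1) / (d + 1)` (natural division), `j ≥ u / (20 (d + 1)) - 1 ≥ u / (40 (d + 1))` for `u ≥ 40 (d + 1)`. `j! ≥ (j / e) ^ j`
(`Real.pow_div_factorial_le_exp`: `j ^ j / j! ≤ exp j`), so it is enough that `(d S e / j) ^ j ≤ exp (-(2 u)) / 2`; if `d S e / j ≤ exp (-(120 (d + 1)))` then the left side is at most
`exp (-(120 (d + 1) j)) ≤ exp (-(3 u)) ≤ exp (-(2 u)) / 2` for `u ≥ 1`. The condition holds when `d * (4 log u + C) * e * 40 (d + 1) ≤ exp (-(120 (d + 1))) * u`, true for all large `u`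
(`Real.isLittleO_log_id_atTop`).
-/

namespace Pool.Agent.Lib.MP_c831ba_nt

open Finset

/-- eventually `K (4 log u + C) ≤ u` -/
private lemma numTailD_ev (K C : ℝ) (hK : 0 ≤ K) :
    ∃ u₀ : ℝ, ∀ u : ℝ, u₀ ≤ u → K * (4 * Real.log u + C) ≤ u := by
  have hε : (0 : ℝ) < 1 / (8 * (K + 1)) := by positivity
  have h := (Real.isLittleO_log_id_atTop.bound hε)
  obtain ⟨a, ha⟩ := Filter.eventually_atTop.1 h
  refine ⟨max a (max 1 (2 * (K * |C|))), fun u hu => ?_⟩
  have h1 := ha u (le_trans (le_max_left _ _) hu)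
  have h2 : 1 ≤ u := le_trans (le_trans (le_max_left _ _) (le_max_right _ _)) hu
  have h3 : 2 * (K * |C|) ≤ u := le_trans (le_trans (le_max_right _ _) (le_max_right _ _)) hu
  have hlog : 0 ≤ Real.log u := Real.log_nonneg h2
  rw [Real.norm_of_nonneg hlog, id, Real.norm_of_nonneg (by linarith)] at h1
  have h4 : K * Real.log u ≤ u / 8 := by
    calc K * Real.log u ≤ K * (1 / (8 * (K + 1)) * u) := mul_le_mul_of_nonneg_left h1 hK
      _ = (K / (K + 1)) * (u / 8) := by field_simp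
      _ ≤ 1 * (u / 8) := by
          apply mul_le_mul_of_nonneg_right _ (by linarith)
          rw [div_le_one (by linarith)]; linarith
      _ = u / 8 := one_mul _
  have h5 : K * C ≤ K * |C| := mul_le_mul_of_nonneg_left (le_abs_self C) hK
  nlinarith

theorem numTailD (d : ℕ) (hd : 1 ≤ d) (C : ℝ) : ∃ u₀ : ℝ, ∀ u : ℝ, u₀ ≤ u → ∀ S : ℝ, 0 ≤ S →
    S ≤ 4 * Real.log u + C →
      2 * (d * S) ^ ((kU u + 1) / (d + 1)) ≤
        ((kU u + 1) / (d + 1)).factorial * Real.exp (-(2 * u)) := by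
  set K : ℝ := 40 * ((d : ℝ) + 1) * (d * Real.exp (80 * ((d : ℝ) + 1) + 2)) with hK
  have hK0 : 0 ≤ K := by positivity
  obtain ⟨a, ha⟩ := numTailD_ev K C hK0
  refine ⟨max a (max 1 (40 * (d : ℝ))), fun u hu S hS0 hS => ?_⟩
  have hQ := ha u (le_trans (le_max_left _ _) hu)
  have hu1 : 1 ≤ u := le_trans (le_trans (le_max_left _ _) (le_max_right _ _)) hu
  have hud : 40 * (d : ℝ) ≤ u := le_trans (le_trans (le_max_right _ _) (le_max_right _ _)) hu
  set j : ℕ := (kU u + 1) / (d + 1) with hj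
  have hd0 : (0 : ℝ) < (d : ℝ) + 1 := by positivity
  -- the lower bound for `j`
  have hj1 : kU u + 1 < (d + 1) * (j + 1) := by
    rw [hj]
    exact Nat.lt_mul_div_succ _ (Nat.succ_pos d)
  have hk : u / 20 < (kU u : ℝ) + 1 := Nat.lt_floor_add_one _
  have hj2 : u ≤ 40 * ((d : ℝ) + 1) * j := by
    have h1 : ((kU u + 1 : ℕ) : ℝ) + 1 ≤ (((d + 1) * (j + 1) : ℕ) : ℝ) := by
      exact_mod_cast Nat.succ_le_of_lt hj1
    push_cast at h1
    nlinarith
  have hj0 : (0 : ℝ) < j := by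
    have h1 : 0 < 40 * ((d : ℝ) + 1) * j := by linarith
    by_contra h2
    have : 40 * ((d : ℝ) + 1) * j ≤ 0 :=
      mul_nonpos_of_nonneg_of_nonpos (by positivity) (not_lt.1 h2)
    linarith
  -- the base
  have hbase : d * S * Real.exp (80 * ((d : ℝ) + 1) + 2) ≤ j := by
    have h1 : K * S ≤ 40 * ((d : ℝ) + 1) * j := by
      calc K * S ≤ K * (4 * Real.log u + C) := mul_le_mul_of_nonneg_left hS hK0
        _ ≤ u := hQ
        _ ≤ _ := hj2
    have h2 : K * S = 40 * ((d : ℝ) + 1) * (d * S * Real.exp (80 * ((d : ℝ) + 1) + 2)) := by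
      rw [hK]; ring
    rw [h2] at h1
    exact le_of_mul_le_mul_left h1 (by positivity)
  have hbase0 : 0 ≤ d * S * Real.exp (80 * ((d : ℝ) + 1) + 2) := by positivity
  -- the power
  have hpow : (d * S) ^ j * Real.exp ((80 * ((d : ℝ) + 1) + 2) * j) ≤ (j : ℝ) ^ j := by
    calc (d * S) ^ j * Real.exp ((80 * ((d : ℝ) + 1) + 2) * j)
        = (d * S * Real.exp (80 * ((d : ℝ) + 1) + 2)) ^ j := by
          rw [mul_pow (d * S : ℝ), ← Real.exp_nat_mul, mul_comm (j : ℝ)]
      _ ≤ (j : ℝ) ^ j := pow_le_pow_left₀ hbase0 hbase j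
  have hfac : (j : ℝ) ^ j ≤ (j.factorial : ℝ) * Real.exp j := by
    have h1 := Real.pow_div_factorial_le_exp (j : ℝ) hj0.le j
    rw [div_le_iff₀ (by positivity)] at h1
    linarith
  have hexp : 2 * Real.exp (2 * u) * Real.exp j ≤
      Real.exp ((80 * ((d : ℝ) + 1) + 2) * j) := by
    have hj1' : (1 : ℝ) ≤ j := by
      have : 0 < j := by exact_mod_cast hj0
      exact_mod_cast this
    have h2 : (2 : ℝ) ≤ Real.exp j := by
      have := Real.add_one_le_exp (j : ℝ)
      linarith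
    calc 2 * Real.exp (2 * u) * Real.exp j
        ≤ Real.exp j * Real.exp (2 * (40 * ((d : ℝ) + 1) * j)) * Real.exp j := by
          apply mul_le_mul_of_nonneg_right _ (Real.exp_pos _).le
          apply mul_le_mul h2 _ (Real.exp_pos _).le (Real.exp_pos _).le
          apply Real.exp_le_exp.2
          linarith
      _ = Real.exp ((80 * ((d : ℝ) + 1) + 2) * j) := by
          rw [← Real.exp_add, ← Real.exp_add]; congr 1; ring
  have hdS : 0 ≤ (d * S) ^ j := by positivity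
  have h1 : 2 * (d * S) ^ j * Real.exp (2 * u) * Real.exp j ≤
      (j.factorial : ℝ) * Real.exp j := by
    calc 2 * (d * S) ^ j * Real.exp (2 * u) * Real.exp j
        = (d * S) ^ j * (2 * Real.exp (2 * u) * Real.exp j) := by ring
      _ ≤ (d * S) ^ j * Real.exp ((80 * ((d : ℝ) + 1) + 2) * j) :=
          mul_le_mul_of_nonneg_left hexp hdS
      _ ≤ (j : ℝ) ^ j := hpow
      _ ≤ _ := hfac
  have h2 : 2 * (d * S) ^ j * Real.exp (2 * u) ≤ (j.factorial : ℝ) :=
    le_of_mul_le_mul_right h1 (Real.exp_pos _)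
  calc 2 * (d * S) ^ j = 2 * (d * S) ^ j * Real.exp (2 * u) * Real.exp (-(2 * u)) := by
        rw [mul_assoc, ← Real.exp_add, add_neg_cancel, Real.exp_zero, mul_one]
    _ ≤ (j.factorial : ℝ) * Real.exp (-(2 * u)) :=
        mul_le_mul_of_nonneg_right h2 (Real.exp_pos _).le

end Pool.Agent.Lib.MP_c831ba_nt
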