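import Pool.Agent.Lib.MP_c831ba_nt.Defs
import Pool.Agent.Lib.MP_6da058_co.Esym

/-!
Module OmegaTailD: numbers `m` such that `m ^ d + 1` has many primes.

(1) `rootCount`: for a finite set `A` of primes, `D = ∏ p ∈ A, p`, the number of `r < D` with `D ∣ r ^ d + 1` is at most
`d ^ #A`. Proof: for one prime `p` the polynomial `X ^ d + 1` over `ZMod p` has at most `d` roots (it is monic of degree `d ≥ 1`,
`Polynomial.card_roots'`, `Polynomial.natDegree_X_pow_add_C`); the map `r ↦ (r mod p)_{p ∈ A}` is injective on `range D`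
(all `p ∈ A` divide `r - r'`, so `D ∣ r - r'`: `Finset.prod_primes_dvd` / `Nat.modEq_list_prod_iff`; or induct on `A` with `Nat.chineseRemainder`),
with values in a product of sets of size at most `d`.
(2) for `D ≤ N` the number of `m ∈ Icc 1 N` with `D ∣ m ^ d + 1` is at most `d ^ #A * (N / D + 1) ≤ 2 N d ^ #A / D`:
the map `m ↦ (m % D, m / D)` is injective, `m % D` is a root, `m / D ≤ N / D`.
(3) if `(d + 1) * j ≤ #(m ^ d + 1).primeFactors`, `1 ≤ m ≤ N`, there is `A ⊆ (m ^ d + 1).primeFactors` with `#A = j` and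
`∏ A ≤ N`: general lemma: if `P` is a finite set of positive numbers with `e * j ≤ #P` and `e ≥ 1` there is `A ⊆ P`, `#A = j` with
`(∏ A) ^ e ≤ ∏ P` (induction on `e`: take any `A₁ ⊆ P` with `#A₁ = j`, apply the induction hypothesis to `P \ A₁`, which gives `A₂` with
`(∏ A₂) ^ (e-1) ≤ ∏ (P \ A₁)`, and take the one of `A₁`, `A₂` with the smaller product). With `e = d + 1`:
`(∏ A) ^ (d + 1) ≤ m ^ d + 1 ≤ N ^ d + 1 < (N + 1) ^ (d + 1)`, so `∏ A ≤ N`; all its primes are then `≤ N` (if `j = 0` the product is `1 ≤ N`).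
(4) the set is contained in the union over `A ∈ (Nat.primesLE N).powersetCard j` with `∏ A ≤ N` of `{m ∈ Icc 1 N | ∏ A ∣ m ^ d + 1}`, so
the cardinality times `j!` is at most `2 N * j! * ∑ A, ∏ p ∈ A, d / p = 2 N * G w S j ≤ 2 N * (∑ w) ^ j` with `w p = d / p`;
`G`, `G_le_pow` are in `Pool.Agent.Lib.MP_6da058_co.Esym` (`G w S k` is `k!` times the elementary symmetric sum).
-/

namespace Pool.Agent.Lib.MP_c831ba_nt

open Finset

/-- one prime -/
private theorem rootP (d : ℕ) (hd : 1 ≤ d) (p : ℕ) (hp : p.Prime) :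
    #{r ∈ range p | p ∣ r ^ d + 1} ≤ d := by
  classical
  have : Fact p.Prime := ⟨hp⟩
  let P : Polynomial (ZMod p) := Polynomial.X ^ d + Polynomial.C 1
  have hdeg : P.natDegree = d := Polynomial.natDegree_X_pow_add_C
  have hne : P ≠ 0 := by
    intro h
    rw [h, Polynomial.natDegree_zero] at hdeg
    omega
  have h1 : #{r ∈ range p | p ∣ r ^ d + 1} ≤ P.roots.toFinset.card := by
    refine Finset.card_le_card_of_injOn (fun r : ℕ => (r : ZMod p)) ?_ ?_
    · intro r hr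
      rw [Finset.mem_coe, Finset.mem_filter] at hr
      rw [Finset.mem_coe, Multiset.mem_toFinset, Polynomial.mem_roots hne]
      have h2 : ((r ^ d + 1 : ℕ) : ZMod p) = 0 := (ZMod.natCast_eq_zero_iff _ _).2 hr.2
      show Polynomial.eval (r : ZMod p) P = 0
      simp only [P, Polynomial.eval_add, Polynomial.eval_pow, Polynomial.eval_X,
        Polynomial.eval_C]
      push_cast at h2
      exact h2
    · intro r hr r' hr' h
      rw [Finset.mem_coe, Finset.mem_filter, Finset.mem_range] at hr hr'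
      have h3 : (r : ZMod p) = (r' : ZMod p) := h
      rw [ZMod.natCast_eq_natCast_iff] at h3
      exact Nat.ModEq.eq_of_lt_of_lt h3 hr.1 hr'.1
  have h2 : P.roots.toFinset.card ≤ P.natDegree :=
    (Multiset.toFinset_card_le _).trans (Polynomial.card_roots' P)
  omega

private theorem dvd_mod (d D r : ℕ) (h : D ∣ r ^ d + 1) : D ∣ (r % D) ^ d + 1 := by
  have h1 : (r % D) ^ d + 1 ≡ r ^ d + 1 [MOD D] :=
    ((Nat.mod_modEq r D).pow d).add_right 1
  rw [← Nat.modEq_zero_iff_dvd] at h ⊢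
  exact h1.trans h

private theorem rootCount (d : ℕ) (hd : 1 ≤ d) (A : Finset ℕ) (hA : ∀ p ∈ A, p.Prime) :
    #{r ∈ range (∏ p ∈ A, p) | (∏ p ∈ A, p) ∣ r ^ d + 1} ≤ d ^ #A := by
  classical
  induction A using Finset.induction_on with
  | empty => simp
  | insert p A hpA ih =>
    have hp : p.Prime := hA p (Finset.mem_insert_self _ _)
    have hA' : ∀ q ∈ A, q.Prime := fun q hq => hA q (Finset.mem_insert_of_mem hq)
    have ih' := ih hA'
    rw [Finset.prod_insert hpA, Finset.card_insert_of_notMem hpA]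
    obtain ⟨D, hD⟩ : ∃ D, D = ∏ q ∈ A, q := ⟨_, rfl⟩
    rw [← hD] at ih' ⊢
    have hD0 : 0 < D := by
      rw [hD]
      exact Finset.prod_pos fun q hq => (hA' q hq).pos
    have hcop : Nat.Coprime p D := by
      rw [hD]
      refine Nat.Coprime.prod_right fun q hq => ?_
      rw [Nat.coprime_primes hp (hA' q hq)]
      intro h
      exact hpA (h ▸ hq)
    have h1 : #{r ∈ range (p * D) | p * D ∣ r ^ d + 1} ≤
        (({r ∈ range p | p ∣ r ^ d + 1} : Finset ℕ) ×ˢ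
          ({r ∈ range D | D ∣ r ^ d + 1} : Finset ℕ)).card := by
      refine Finset.card_le_card_of_injOn (fun r => (r % p, r % D)) ?_ ?_
      · intro r hr
        rw [Finset.mem_coe, Finset.mem_filter] at hr
        rw [Finset.mem_coe, Finset.mem_product, Finset.mem_filter, Finset.mem_filter,
          Finset.mem_range, Finset.mem_range]
        exact ⟨⟨Nat.mod_lt _ hp.pos, dvd_mod d p r ((Nat.dvd_mul_right p D).trans hr.2)⟩,
          ⟨Nat.mod_lt _ hD0, dvd_mod d D r ((Nat.dvd_mul_left D p).trans hr.2)⟩⟩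
      · intro r hr r' hr' h
        rw [Finset.mem_coe, Finset.mem_filter, Finset.mem_range] at hr hr'
        have h3 : (r % p, r % D) = (r' % p, r' % D) := h
        rw [Prod.mk.injEq] at h3
        have h4 : r ≡ r' [MOD p * D] :=
          (Nat.modEq_and_modEq_iff_modEq_mul hcop).1 ⟨h3.1, h3.2⟩
        exact Nat.ModEq.eq_of_lt_of_lt h4 hr.1 hr'.1
    rw [Finset.card_product] at h1
    calc #{r ∈ range (p * D) | p * D ∣ r ^ d + 1}
        ≤ #{r ∈ range p | p ∣ r ^ d + 1} * #{r ∈ range D | D ∣ r ^ d + 1} := h1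
      _ ≤ d * d ^ #A := Nat.mul_le_mul (rootP d hd p hp) ih'
      _ = d ^ (#A + 1) := by rw [pow_succ, Nat.mul_comm]

private theorem countD (d : ℕ) (hd : 1 ≤ d) (N : ℕ) (A : Finset ℕ) (hA : ∀ p ∈ A, p.Prime)
    (hN : ∏ p ∈ A, p ≤ N) :
    (#{m ∈ Icc 1 N | (∏ p ∈ A, p) ∣ m ^ d + 1} : ℝ) ≤ 2 * N * ∏ p ∈ A, ((d : ℝ) / p) := by
  classical
  obtain ⟨D, hD⟩ : ∃ D, D = ∏ q ∈ A, q := ⟨_, rfl⟩
  have hrc := rootCount d hd A hA
  rw [← hD] at hN hrc ⊢
  have hD0 : 0 < D := by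
    rw [hD]
    exact Finset.prod_pos fun q hq => (hA q hq).pos
  have h1 : #{m ∈ Icc 1 N | D ∣ m ^ d + 1} ≤
      (({r ∈ range D | D ∣ r ^ d + 1} : Finset ℕ) ×ˢ range (N / D + 1)).card := by
    refine Finset.card_le_card_of_injOn (fun m => (m % D, m / D)) ?_ ?_
    · intro m hm
      rw [Finset.mem_coe, Finset.mem_filter, Finset.mem_Icc] at hm
      rw [Finset.mem_coe, Finset.mem_product, Finset.mem_filter, Finset.mem_range,
        Finset.mem_range]
      refine ⟨⟨Nat.mod_lt _ hD0, dvd_mod d D m hm.2⟩, ?_⟩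
      have := Nat.div_le_div_right (c := D) hm.1.2
      show m / D < N / D + 1
      omega
    · intro m _ m' _ h
      have h3 : (m % D, m / D) = (m' % D, m' / D) := h
      rw [Prod.mk.injEq] at h3
      rw [← Nat.mod_add_div m D, ← Nat.mod_add_div m' D, h3.1, h3.2]
  rw [Finset.card_product, Finset.card_range] at h1
  have h2 : (#{m ∈ Icc 1 N | D ∣ m ^ d + 1} : ℝ) ≤ (d : ℝ) ^ #A * (N / D + 1) := by
    have h3 : (#{m ∈ Icc 1 N | D ∣ m ^ d + 1} : ℝ) ≤
        ((#{r ∈ range D | D ∣ r ^ d + 1} * (N / D + 1) : ℕ) : ℝ) := by exact_mod_cast h1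
    refine h3.trans ?_
    push_cast
    have h4 : (#{r ∈ range D | D ∣ r ^ d + 1} : ℝ) ≤ (d : ℝ) ^ #A := by exact_mod_cast hrc
    have h5 : ((N / D : ℕ) : ℝ) ≤ (N : ℝ) / D := Nat.cast_div_le
    gcongr
  have hDr : (0 : ℝ) < D := by exact_mod_cast hD0
  have hND : (1 : ℝ) ≤ N / D := by
    rw [le_div_iff₀ hDr]
    have : (D : ℝ) ≤ N := by exact_mod_cast hN
    linarith
  have hprod : ∏ p ∈ A, ((d : ℝ) / p) = (d : ℝ) ^ #A / D := by
    rw [Finset.prod_div_distrib, Finset.prod_const, hD]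
    push_cast
    rfl
  rw [hprod]
  calc (#{m ∈ Icc 1 N | D ∣ m ^ d + 1} : ℝ) ≤ (d : ℝ) ^ #A * (N / D + 1) := h2
    _ ≤ (d : ℝ) ^ #A * (N / D + N / D) := by gcongr
    _ = 2 * N * ((d : ℝ) ^ #A / D) := by ring

private theorem smallSub (e : ℕ) (j : ℕ) (P : Finset ℕ) (hP : ∀ p ∈ P, 1 ≤ p)
    (h : (e + 1) * j ≤ #P) :
    ∃ A ⊆ P, #A = j ∧ (∏ p ∈ A, p) ^ (e + 1) ≤ ∏ p ∈ P, p := by
  classical
  induction e generalizing P with
  | zero =>
    obtain ⟨A, hA, hc⟩ := Finset.exists_subset_card_eq (s := P) (n := j) (by omega)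
    refine ⟨A, hA, hc, ?_⟩
    rw [zero_add, pow_one]
    exact Finset.prod_le_prod_of_subset_of_one_le' hA (fun p hp _ => hP p hp)
  | succ e ih =>
    obtain ⟨A₁, hA₁, hc₁⟩ := Finset.exists_subset_card_eq (s := P) (n := j) (by nlinarith)
    have hc2 : (e + 1) * j ≤ #(P \ A₁) := by
      rw [Finset.card_sdiff_of_subset hA₁, hc₁]
      have : (e + 1 + 1) * j = (e + 1) * j + j := by ring
      omega
    obtain ⟨A₂, hA₂, hc₂, hpr⟩ := ih (P \ A₁) (fun p hp => hP p (Finset.mem_sdiff.1 hp).1) hc2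
    have hprod : (∏ p ∈ A₁, p) * ∏ p ∈ P \ A₁, p = ∏ p ∈ P, p := by
      rw [mul_comm]
      exact Finset.prod_sdiff hA₁
    rcases le_total (∏ p ∈ A₁, p) (∏ p ∈ A₂, p) with hle | hle
    · refine ⟨A₁, hA₁, hc₁, ?_⟩
      rw [← hprod, pow_succ' _ (e + 1)]
      exact Nat.mul_le_mul le_rfl ((Nat.pow_le_pow_left hle _).trans hpr)
    · refine ⟨A₂, hA₂.trans Finset.sdiff_subset, hc₂, ?_⟩
      rw [← hprod, pow_succ' _ (e + 1)]
      exact Nat.mul_le_mul hle hpr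

theorem omegaTailD (d : ℕ) (hd : 1 ≤ d) (N j : ℕ) (hN : 1 ≤ N) :
    (#{m ∈ Icc 1 N | (d + 1) * j ≤ #(m ^ d + 1).primeFactors} : ℝ) * j.factorial ≤
      2 * N * (d * ∑ p ∈ Nat.primesLE N, (1 : ℝ) / p) ^ j := by
  classical
  obtain ⟨T, hT⟩ : ∃ T : Finset (Finset ℕ), T =
    {A ∈ (Nat.primesLE N).powersetCard j | ∏ p ∈ A, p ≤ N} := ⟨_, rfl⟩
  have hsub : ({m ∈ Icc 1 N | (d + 1) * j ≤ #(m ^ d + 1).primeFactors} : Finset ℕ) ⊆
      T.biUnion (fun A => {m ∈ Icc 1 N | (∏ p ∈ A, p) ∣ m ^ d + 1}) := by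
    intro m hm
    rw [Finset.mem_filter] at hm
    obtain ⟨hmI, hmc⟩ := hm
    have hmI' := Finset.mem_Icc.1 hmI
    obtain ⟨A, hA, hc, hpr⟩ := smallSub d j (m ^ d + 1).primeFactors
      (fun p hp => (Nat.prime_of_mem_primeFactors hp).pos) hmc
    have hAp : ∀ p ∈ A, p.Prime := fun p hp => Nat.prime_of_mem_primeFactors (hA hp)
    have hAdvd : (∏ p ∈ A, p) ∣ m ^ d + 1 := by
      refine Finset.prod_primes_dvd _ (fun p hp => (hAp p hp).prime) (fun p hp => ?_)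
      exact Nat.dvd_of_mem_primeFactors (hA hp)
    have hle1 : ∏ p ∈ (m ^ d + 1).primeFactors, p ≤ m ^ d + 1 :=
      Nat.le_of_dvd (Nat.succ_pos _) (Nat.prod_primeFactors_dvd _)
    have hle2 : m ^ d + 1 < (N + 1) ^ (d + 1) := by
      have h1 : m ^ d ≤ N ^ d := Nat.pow_le_pow_left hmI'.2 d
      have h2 : N ^ d < (N + 1) ^ d := Nat.pow_lt_pow_left (Nat.lt_succ_self N) (by omega)
      have h3 : (N + 1) ^ (d + 1) = (N + 1) ^ d * (N + 1) := pow_succ _ _
      have h4 : (N + 1) ^ d * 2 ≤ (N + 1) ^ d * (N + 1) := Nat.mul_le_mul le_rfl (by omega)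
      have h5 : 0 < (N + 1) ^ d := by positivity
      omega
    have hprN : ∏ p ∈ A, p ≤ N := by
      by_contra hcon
      have h1 : N + 1 ≤ ∏ p ∈ A, p := by omega
      have h2 : (N + 1) ^ (d + 1) ≤ (∏ p ∈ A, p) ^ (d + 1) := Nat.pow_le_pow_left h1 _
      omega
    rw [Finset.mem_biUnion]
    refine ⟨A, ?_, Finset.mem_filter.2 ⟨hmI, hAdvd⟩⟩
    rw [hT, Finset.mem_filter, Finset.mem_powersetCard]
    refine ⟨⟨?_, hc⟩, hprN⟩
    intro p hp
    rw [Nat.mem_primesLE]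
    refine ⟨?_, hAp p hp⟩
    refine le_trans ?_ hprN
    exact Nat.le_of_dvd (Finset.prod_pos fun q hq => (hAp q hq).pos)
      (Finset.dvd_prod_of_mem _ hp)
  have hcard : (#{m ∈ Icc 1 N | (d + 1) * j ≤ #(m ^ d + 1).primeFactors} : ℝ) ≤
      ∑ A ∈ T, 2 * N * ∏ p ∈ A, ((d : ℝ) / p) := by
    have h1 : #{m ∈ Icc 1 N | (d + 1) * j ≤ #(m ^ d + 1).primeFactors} ≤
        ∑ A ∈ T, #{m ∈ Icc 1 N | (∏ p ∈ A, p) ∣ m ^ d + 1} :=
      (Finset.card_le_card hsub).trans Finset.card_biUnion_le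
    have h2 : (#{m ∈ Icc 1 N | (d + 1) * j ≤ #(m ^ d + 1).primeFactors} : ℝ) ≤
        ∑ A ∈ T, (#{m ∈ Icc 1 N | (∏ p ∈ A, p) ∣ m ^ d + 1} : ℝ) := by exact_mod_cast h1
    refine h2.trans (Finset.sum_le_sum fun A hA => ?_)
    rw [hT, Finset.mem_filter, Finset.mem_powersetCard] at hA
    exact countD d hd N A (fun p hp => (Nat.mem_primesLE.1 (hA.1.1 hp)).2) hA.2
  have hG : (j.factorial : ℝ) * ∑ A ∈ (Nat.primesLE N).powersetCard j, ∏ p ∈ A, ((d : ℝ) / p) ≤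
      (∑ p ∈ Nat.primesLE N, (d : ℝ) / p) ^ j :=
    Pool.Agent.Lib.MP_6da058_co.G_le_pow (w := fun p : ℕ => (d : ℝ) / p) (S := Nat.primesLE N)
      (fun p _ => by positivity) j
  have hTs : ∑ A ∈ T, ∏ p ∈ A, ((d : ℝ) / p) ≤
      ∑ A ∈ (Nat.primesLE N).powersetCard j, ∏ p ∈ A, ((d : ℝ) / p) := by
    rw [hT]
    exact Finset.sum_le_sum_of_subset_of_nonneg (Finset.filter_subset _ _)
      (fun A _ _ => Finset.prod_nonneg fun p _ => by positivity)
  have hsum : (∑ p ∈ Nat.primesLE N, (d : ℝ) / p) = d * ∑ p ∈ Nat.primesLE N, (1 : ℝ) / p := by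
    rw [Finset.mul_sum]
    refine Finset.sum_congr rfl fun p _ => ?_
    ring
  rw [← hsum]
  calc (#{m ∈ Icc 1 N | (d + 1) * j ≤ #(m ^ d + 1).primeFactors} : ℝ) * j.factorial
      ≤ (∑ A ∈ T, 2 * N * ∏ p ∈ A, ((d : ℝ) / p)) * j.factorial := by gcongr
    _ = 2 * N * (j.factorial * ∑ A ∈ T, ∏ p ∈ A, ((d : ℝ) / p)) := by
        rw [← Finset.mul_sum]; ring
    _ ≤ 2 * N * (j.factorial *
          ∑ A ∈ (Nat.primesLE N).powersetCard j, ∏ p ∈ A, ((d : ℝ) / p)) := by gcongr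
    _ ≤ 2 * N * (∑ p ∈ Nat.primesLE N, (d : ℝ) / p) ^ j := by gcongr

end Pool.Agent.Lib.MP_c831ba_nt
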