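import Pool.Agent.Lib.MP_c831ba_nt.OmegaTail
import Pool.Agent.Lib.MP_c831ba_nt.OmegaTailD
import Pool.Agent.Lib.MP_c831ba_nt.NoBig
import Pool.Agent.Lib.MP_c831ba_nt.MMiddle
import Pool.Agent.Lib.MP_c831ba_nt.MLarge
import Pool.Agent.Lib.MP_c831ba_nt.MHeight
import Pool.Agent.Lib.MP_c831ba_nt.NumTail
import Pool.Agent.Lib.MP_c831ba_nt.NumTailD
import Pool.Agent.Lib.MP_c831ba_nt.NumSmall
import Pool.Agent.Lib.MP_c831ba_nt.NumMid
import Pool.Agent.Lib.MP_c831ba_nt.NumMCR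
import Pool.Agent.Lib.MP_c831ba_nt.NumLarge
import Pool.Agent.Lib.MP_f4ebb7_co.HTB

/-!
MMain: `S(m ^ d) = {m ^ d}` for almost all `m`.
-/

namespace Pool.Agent.Lib.MP_c831ba_nt

open Finset Pool.Agent.Lib.MP_5349b0_nt.SZ7

private theorem MMain_scale {n T : ℕ} (h : 2 ^ (2 ^ T) ≤ n + 1) (hT : 1 ≤ T) :
    ∃ t : ℕ, T ≤ t + 1 ∧ (2 : ℝ) ^ t ≤ Real.log ((n + 1 : ℕ) : ℝ) ∧
      Real.log ((n + 1 : ℕ) : ℝ) < 2 ^ (t + 1) := by
  have h1 : (2 : ℝ) ^ T * Real.log 2 ≤ Real.log ((n + 1 : ℕ) : ℝ) := by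
    have e1 : (((2 : ℕ) ^ (2 ^ T) : ℕ) : ℝ) ≤ ((n + 1 : ℕ) : ℝ) := by exact_mod_cast h
    have e2 := Real.log_le_log (by positivity) e1
    rw [Nat.cast_pow, Real.log_pow] at e2
    push_cast at e2 ⊢
    exact e2
  have h2 := Real.log_two_gt_d9
  have h3 : (2 : ℝ) ≤ 2 ^ T := by
    calc (2 : ℝ) = 2 ^ 1 := by norm_num
      _ ≤ 2 ^ T := pow_le_pow_right₀ (by norm_num) hT
  have h4 : (1 : ℝ) ≤ Real.log ((n + 1 : ℕ) : ℝ) := by nlinarith
  obtain ⟨t, ht1, ht2⟩ := exists_nat_pow_near h4 (show (1 : ℝ) < 2 by norm_num)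
  refine ⟨t, ?_, ht1, ht2⟩
  by_contra hcon
  have h5 : t + 2 ≤ T := by omega
  have h6 : (2 : ℝ) ^ (t + 2) ≤ 2 ^ T := pow_le_pow_right₀ (by norm_num) h5
  have h7 : (2 : ℝ) ^ (t + 2) = 2 * 2 ^ (t + 1) := by ring
  have h8 : (0 : ℝ) < 2 ^ (t + 1) := by positivity
  nlinarith

private theorem MMain_b {d N : ℕ} {u : ℝ} (hu : 1 ≤ u) (hN : (N : ℝ) ≤ Real.exp (u ^ 4)) :
    Real.log ((N ^ d + 1 : ℕ) : ℝ) ≤ bU d u := by
  have h1 : (N : ℝ) ^ d ≤ Real.exp (d * u ^ 4) := by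
    rw [Real.exp_nat_mul]
    exact pow_le_pow_left₀ (Nat.cast_nonneg _) hN d
  have h2 : (1 : ℝ) ≤ Real.exp (d * u ^ 4) := Real.one_le_exp (by positivity)
  have h3 : ((N ^ d + 1 : ℕ) : ℝ) ≤ Real.exp (d * u ^ 4) * 2 := by
    push_cast
    linarith
  have h4 := Real.log_le_log (by positivity) h3
  rw [Real.log_mul (Real.exp_pos _).ne' (by norm_num), Real.log_exp] at h4
  have h5 := Real.log_two_lt_d9
  have h6 : (1 : ℝ) ≤ u ^ 4 := one_le_pow₀ hu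
  have h7 : ((d : ℝ) + 1) * u ^ 4 ≤ bU d u := Nat.le_ceil _
  nlinarith

private theorem MMain_t {N m n t : ℕ} {u C : ℝ} (hu : 1 ≤ u) (hN : (N : ℝ) ≤ Real.exp (u ^ 4))
    (hC : 0 < C)
    (hh : Real.log (Real.log ((n + 1 : ℕ) : ℝ)) ≤ C * Real.log ((N : ℝ) + 1) ^ 4)
    (ht : (2 : ℝ) ^ t ≤ Real.log ((n + 1 : ℕ) : ℝ)) : (t : ℝ) ≤ 32 * C * u ^ 16 := by
  have h1 : (t : ℝ) * Real.log 2 ≤ Real.log (Real.log ((n + 1 : ℕ) : ℝ)) := by
    have := Real.log_le_log (by positivity) ht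
    rwa [Real.log_pow] at this
  have h0 : (1 : ℝ) ≤ Real.exp (u ^ 4) := Real.one_le_exp (by positivity)
  have h2 : Real.log ((N : ℝ) + 1) ≤ 2 * u ^ 4 := by
    have e1 : (N : ℝ) + 1 ≤ Real.exp (u ^ 4) * 2 := by linarith
    have e2 := Real.log_le_log (by positivity) e1
    rw [Real.log_mul (Real.exp_pos _).ne' (by norm_num), Real.log_exp] at e2
    have h5 := Real.log_two_lt_d9
    have h6 : (1 : ℝ) ≤ u ^ 4 := one_le_pow₀ hu
    linarith
  have h3 : (0 : ℝ) ≤ Real.log ((N : ℝ) + 1) := Real.log_nonneg (by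
    have : (0 : ℝ) ≤ N := Nat.cast_nonneg _
    linarith)
  have h4 : Real.log ((N : ℝ) + 1) ^ 4 ≤ 16 * u ^ 16 := by
    calc Real.log ((N : ℝ) + 1) ^ 4 ≤ (2 * u ^ 4) ^ 4 := pow_le_pow_left₀ h3 h2 4
      _ = 16 * u ^ 16 := by ring
  have h5 : (t : ℝ) * Real.log 2 ≤ C * (16 * u ^ 16) :=
    h1.trans (hh.trans (mul_le_mul_of_nonneg_left h4 hC.le))
  have h6 := Real.log_two_gt_d9
  have h7 : (0 : ℝ) ≤ t := Nat.cast_nonneg _
  nlinarith

open Classical in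
theorem mmainU (d : ℕ) (hd : 1 ≤ d) : ∃ u₀ : ℝ, ∀ u : ℝ, u₀ ≤ u → ∀ N : ℕ,
    (N : ℝ) ≤ Real.exp (u ^ 4) →
      (#{m ∈ Icc 1 N | ∃ n, Mate d m n} : ℝ) ≤ Real.exp (u ^ 4) * Real.exp (-u) := by
  obtain ⟨Cm, hCm⟩ := Pool.Agent.Lib.MP_f4ebb7_co.mertens_up
  obtain ⟨Ch, hCh, hH⟩ := mheight d hd
  obtain ⟨u1, h1⟩ := numTail Cm
  obtain ⟨u2, h2⟩ := numTailD d hd Cm
  obtain ⟨u3, h3⟩ := numSmall
  obtain ⟨u4, h4⟩ := numMid d hd
  obtain ⟨u5, h5⟩ := numMCR d hd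
  obtain ⟨u6, h6⟩ := numLarge d hd (32 * Ch) (by positivity)
  refine ⟨max 2 (max u1 (max u2 (max u3 (max u4 (max u5 u6))))), ?_⟩
  intro u hu N hN
  simp only [max_le_iff] at hu
  obtain ⟨hu2, hu1', hu2', hu3', hu4', hu5', hu6'⟩ := hu
  have hone : (1 : ℝ) ≤ u := by linarith
  set E : ℝ := Real.exp (u ^ 4) * Real.exp (-(2 * u)) with hE
  have hE1 : 1 ≤ E := by
    rw [hE, ← Real.exp_add]
    refine Real.one_le_exp ?_
    have : (8 : ℝ) ≤ u ^ 3 := by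
      calc (8 : ℝ) = 2 ^ 3 := by norm_num
        _ ≤ u ^ 3 := pow_le_pow_left₀ (by norm_num) hu2 3
    nlinarith
  have hfin : 2 + 5 * E ≤ Real.exp (u ^ 4) * Real.exp (-u) := by
    have e1 : Real.exp (u ^ 4) * Real.exp (-u) = E * Real.exp u := by
      have e0 : Real.exp (-u) = Real.exp (-(2 * u)) * Real.exp u := by
        rw [← Real.exp_add]
        congr 1
        ring
      rw [hE, e0, mul_assoc]
    have e2 : (7 : ℝ) ≤ Real.exp u := by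
      have e3 : Real.exp 2 ≤ Real.exp u := Real.exp_le_exp.2 hu2
      have e4 : (7 : ℝ) ≤ Real.exp 2 := by
        have e5 := Real.exp_one_gt_d9
        have e6 : Real.exp 2 = Real.exp 1 * Real.exp 1 := by rw [← Real.exp_add]; norm_num
        rw [e6]
        nlinarith
      linarith
    rw [e1]
    nlinarith
  refine le_trans ?_ hfin
  -- the case `N < 2`
  rcases Nat.lt_or_ge N 2 with hN2 | hN2
  · have e1 : #{m ∈ Icc 1 N | ∃ n, Mate d m n} ≤ 2 := by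
      refine (Finset.card_filter_le _ _).trans ?_
      rw [Nat.card_Icc]
      omega
    have e2 : (#{m ∈ Icc 1 N | ∃ n, Mate d m n} : ℝ) ≤ 2 := by exact_mod_cast e1
    linarith
  have hNr : (2 : ℝ) ≤ N := by exact_mod_cast hN2
  have hN0 : (0 : ℝ) < N := by linarith
  -- the sum over the primes
  set S : ℝ := ∑ p ∈ Nat.primesLE N, (1 : ℝ) / p with hS
  have hS0 : 0 ≤ S := Finset.sum_nonneg fun p _ => by positivity
  have hS1 : S ≤ 4 * Real.log u + Cm := by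
    have e1 := hCm N hN2
    have e2 : Real.log N ≤ u ^ 4 := by
      have := Real.log_le_log hN0 hN
      rwa [Real.log_exp] at this
    have e3 : 0 < Real.log N := Real.log_pos (by linarith)
    have e4 := Real.log_le_log e3 e2
    rw [Real.log_pow] at e4
    push_cast at e4
    linarith
  -- the five sets
  set k := kU u with hk
  set y := yU u with hy
  set T := TU u with hT
  have hy0 : 0 < y := by
    rw [hy]; unfold yU
    exact Nat.ceil_pos.2 (Real.exp_pos _)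
  have hyr : (0 : ℝ) < y := by exact_mod_cast hy0
  have hT1 : 1 ≤ T := by
    rw [hT]; unfold TU
    exact Nat.ceil_pos.2 (by positivity)
  set A1 : Finset ℕ := {m ∈ Icc 1 N | k + 1 ≤ #m.primeFactors} with hA1
  set A2 : Finset ℕ := {m ∈ Icc 1 N | (d + 1) * ((k + 1) / (d + 1)) ≤ #(m ^ d + 1).primeFactors}
    with hA2
  set A3 : Finset ℕ := {m ∈ Icc 1 N | #m.primeFactors ≤ k ∧
    ∀ P : ℕ, P.Prime → y ≤ P → P ∣ m → P ^ 2 ∣ m} with hA3
  set A4 : Finset ℕ := {m ∈ Icc 3 N | #m.primeFactors ≤ k ∧ #(m ^ d + 1).primeFactors ≤ k ∧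
        (∃ P : ℕ, P.Prime ∧ y ≤ P ∧ P ∣ m ∧ ¬ P ^ 2 ∣ m) ∧
          ∃ n, Mate d m n ∧ n + 1 < 2 ^ (2 ^ T)} with hA4
  set At : ℕ → Finset ℕ := fun t => {m ∈ Icc 1 N | #m.primeFactors ≤ k ∧
        #(m ^ d + 1).primeFactors ≤ k ∧
        ∃ n, Mate d m n ∧ (2 : ℝ) ^ t ≤ Real.log ((n + 1 : ℕ) : ℝ) ∧
          Real.log ((n + 1 : ℕ) : ℝ) < 2 ^ (t + 1)} with hAt
  set I : Finset ℕ := {t ∈ Finset.range (⌊32 * Ch * u ^ 16⌋₊ + 1) | T ≤ t + 1} with hI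
  have hcover : ({m ∈ Icc 1 N | ∃ n, Mate d m n} : Finset ℕ) ⊆
      {1, 2} ∪ (A1 ∪ (A2 ∪ (A3 ∪ (A4 ∪ I.biUnion At)))) := by
    intro m hm
    rw [Finset.mem_filter, Finset.mem_Icc] at hm
    obtain ⟨⟨hm1, hmN⟩, n, hP⟩ := hm
    have hmI : m ∈ Icc 1 N := Finset.mem_Icc.2 ⟨hm1, hmN⟩
    rw [Finset.mem_union, Finset.mem_union, Finset.mem_union, Finset.mem_union, Finset.mem_union]
    by_cases c0 : m < 3
    · left
      rw [Finset.mem_insert, Finset.mem_singleton]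
      omega
    right
    by_cases c1 : k + 1 ≤ #m.primeFactors
    · left
      exact Finset.mem_filter.2 ⟨hmI, c1⟩
    right
    by_cases c2 : k + 1 ≤ #(m ^ d + 1).primeFactors
    · left
      exact Finset.mem_filter.2 ⟨hmI, (Nat.mul_div_le (k + 1) (d + 1)).trans c2⟩
    right
    have c1' : #m.primeFactors ≤ k := by omega
    have c2' : #(m ^ d + 1).primeFactors ≤ k := by omega
    by_cases c3 : ∀ P : ℕ, P.Prime → y ≤ P → P ∣ m → P ^ 2 ∣ m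
    · left
      exact Finset.mem_filter.2 ⟨hmI, c1', c3⟩
    right
    have c3' : ∃ P : ℕ, P.Prime ∧ y ≤ P ∧ P ∣ m ∧ ¬ P ^ 2 ∣ m := by
      push Not at c3
      exact c3
    by_cases c4 : n + 1 < 2 ^ (2 ^ T)
    · left
      exact Finset.mem_filter.2 ⟨Finset.mem_Icc.2 ⟨by omega, hmN⟩, c1', c2', c3', n, hP, c4⟩
    right
    obtain ⟨t, ht1, ht2, ht3⟩ := MMain_scale (by omega : 2 ^ (2 ^ T) ≤ n + 1) hT1
    rw [Finset.mem_biUnion]
    refine ⟨t, ?_, Finset.mem_filter.2 ⟨hmI, c1', c2', n, hP, ht2, ht3⟩⟩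
    rw [hI, Finset.mem_filter, Finset.mem_range]
    refine ⟨?_, ht1⟩
    have e1 := MMain_t (m := m) hone hN hCh (hH N m n hm1 hmN hP) ht2
    exact Nat.lt_succ_of_le (Nat.le_floor e1)
  -- the cardinalities
  have b1 : (#A1 : ℝ) ≤ E := by
    have e1 := omegaTail N (k + 1)
    have e2 := h1 u hu1' S hS0 hS1
    have e3 : (0 : ℝ) < (k + 1).factorial := by exact_mod_cast Nat.factorial_pos _
    have e4 : (#A1 : ℝ) * (k + 1).factorial ≤ E * (k + 1).factorial := by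
      calc (#A1 : ℝ) * (k + 1).factorial ≤ N * S ^ (k + 1) := e1
        _ ≤ Real.exp (u ^ 4) * ((k + 1).factorial * Real.exp (-(2 * u))) :=
            mul_le_mul hN e2 (by positivity) (Real.exp_pos _).le
        _ = E * (k + 1).factorial := by rw [hE]; ring
    exact le_of_mul_le_mul_right e4 e3
  have b2 : (#A2 : ℝ) ≤ E := by
    have e1 := omegaTailD d hd N ((k + 1) / (d + 1)) (by omega)
    have e2 := h2 u hu2' S hS0 hS1
    set j := (k + 1) / (d + 1) with hj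
    have e3 : (0 : ℝ) < j.factorial := by exact_mod_cast Nat.factorial_pos _
    have e4 : (#A2 : ℝ) * j.factorial ≤ E * j.factorial := by
      calc (#A2 : ℝ) * j.factorial ≤ 2 * N * (d * S) ^ j := e1
        _ = N * (2 * (d * S) ^ j) := by ring
        _ ≤ Real.exp (u ^ 4) * (j.factorial * Real.exp (-(2 * u))) :=
            mul_le_mul hN e2 (by positivity) (Real.exp_pos _).le
        _ = E * j.factorial := by rw [hE]; ring
    exact le_of_mul_le_mul_right e4 e3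
  have b3 : (#A3 : ℝ) ≤ E := (noBig N k y hy0).trans (h3 u hu3' N hN)
  have b4 : (#A4 : ℝ) ≤ E := by
    have e1 := mmiddle d N k y (2 ^ T) hd
    have e2 := h4 u hu4' N hN
    have e3 : (#A4 : ℝ) * y ≤ N * (((2 ^ T : ℕ) : ℝ) + 1) ^ (k + 1) *
        (((d : ℝ) * (((2 ^ T : ℕ) : ℝ) + 1) * ((Nat.log 2 N : ℝ) + 2) + 2) *
          ((d : ℝ) * ((Nat.log 2 N : ℝ) + 1) + 2)) ^ k := by
      exact_mod_cast e1
    have e4 : (#A4 : ℝ) * y ≤ E * y := by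
      refine e3.trans ?_
      rw [mul_assoc]
      calc _ ≤ Real.exp (u ^ 4) * (y * Real.exp (-(2 * u))) :=
            mul_le_mul hN e2 (by positivity) (Real.exp_pos _).le
        _ = E * y := by rw [hE]; ring
    exact le_of_mul_le_mul_right e4 hyr
  have b5 : (#(I.biUnion At) : ℝ) ≤ E := by
    have hCu : (0 : ℝ) ≤ 32 * Ch * u ^ 16 := by positivity
    have e1 : ∀ t ∈ I, (#(At t) : ℝ) ≤ E / (32 * Ch * u ^ 16 + 1) := by
      intro t ht
      rw [hI, Finset.mem_filter, Finset.mem_range] at ht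
      obtain ⟨ht1, ht2⟩ := ht
      have ht3 : (t : ℝ) ≤ 32 * Ch * u ^ 16 :=
        (Nat.cast_le.2 (Nat.le_of_lt_succ ht1)).trans (Nat.floor_le hCu)
      obtain ⟨m1, m2⟩ := h5 u hu5' t ht2
      have e2 : #(At t) ≤ (k + 1) ^ 2 * mR (bU d u) t (2 * k) (2 * k) * (Nat.log 2 N + 1) ^ k :=
        mlarge d N (bU d u) t k hd m1 (MMain_b hone hN) m2
      have e3 : (#(At t) : ℝ) ≤ ((k : ℝ) + 1) ^ 2 * (mR (bU d u) t (2 * k) (2 * k) : ℝ) *
          ((Nat.log 2 N : ℝ) + 1) ^ k := by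
        exact_mod_cast e2
      refine e3.trans ?_
      rw [le_div_iff₀ (by positivity), mul_comm]
      exact h6 u hu6' N hN t ht2 ht3
    have e4 : (#I : ℝ) ≤ 32 * Ch * u ^ 16 + 1 := by
      have e5 : #I ≤ ⌊32 * Ch * u ^ 16⌋₊ + 1 := by
        refine (Finset.card_filter_le _ _).trans ?_
        rw [Finset.card_range]
      calc (#I : ℝ) ≤ ((⌊32 * Ch * u ^ 16⌋₊ + 1 : ℕ) : ℝ) := by exact_mod_cast e5
        _ = (⌊32 * Ch * u ^ 16⌋₊ : ℝ) + 1 := by push_cast; rfl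
        _ ≤ _ := by linarith [Nat.floor_le hCu]
    calc (#(I.biUnion At) : ℝ) ≤ ∑ t ∈ I, (#(At t) : ℝ) := by
          exact_mod_cast Finset.card_biUnion_le
      _ ≤ ∑ _t ∈ I, E / (32 * Ch * u ^ 16 + 1) := Finset.sum_le_sum e1
      _ = #I * (E / (32 * Ch * u ^ 16 + 1)) := by rw [Finset.sum_const, nsmul_eq_mul]
      _ ≤ (32 * Ch * u ^ 16 + 1) * (E / (32 * Ch * u ^ 16 + 1)) :=
          mul_le_mul_of_nonneg_right e4 (by positivity)
      _ = E := by field_simp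
  have b0 : #({1, 2} : Finset ℕ) ≤ 2 := Finset.card_le_two
  have hc : #{m ∈ Icc 1 N | ∃ n, Mate d m n} ≤
      2 + (#A1 + (#A2 + (#A3 + (#A4 + #(I.biUnion At))))) := by
    refine (Finset.card_le_card hcover).trans ?_
    refine (Finset.card_union_le _ _).trans (Nat.add_le_add b0 ?_)
    refine (Finset.card_union_le _ _).trans (Nat.add_le_add_left ?_ _)
    refine (Finset.card_union_le _ _).trans (Nat.add_le_add_left ?_ _)
    refine (Finset.card_union_le _ _).trans (Nat.add_le_add_left ?_ _)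
    exact Finset.card_union_le _ _
  have hc' : (#{m ∈ Icc 1 N | ∃ n, Mate d m n} : ℝ) ≤
      2 + (#A1 + (#A2 + (#A3 + (#A4 + (#(I.biUnion At) : ℝ))))) := by
    exact_mod_cast hc
  linarith

theorem mmain (d : ℕ) (hd : 1 ≤ d) : ∃ x₀ : ℝ, ∀ x : ℝ, x₀ ≤ x →
    (({m : ℕ | 1 ≤ m ∧ (m : ℝ) ≤ x ∧ ∃ n : ℕ, Mate d m n}.ncard : ℕ) : ℝ) ≤
      x * Real.exp (-(Real.log x) ^ ((1 : ℝ) / 4)) := by
  classical
  obtain ⟨u₀, h⟩ := mmainU d hd
  refine ⟨Real.exp (max 1 u₀ ^ 4), ?_⟩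
  intro x hx
  have hm1 : (1 : ℝ) ≤ max 1 u₀ := le_max_left _ _
  have hx0 : 0 < x := (Real.exp_pos _).trans_le hx
  have hL : max 1 u₀ ^ 4 ≤ Real.log x := by
    have := Real.log_le_log (Real.exp_pos _) hx
    rwa [Real.log_exp] at this
  have hL0 : 0 ≤ Real.log x := le_trans (by positivity) hL
  set u : ℝ := Real.log x ^ ((1 : ℝ) / 4) with hu
  have hu4 : u ^ 4 = Real.log x := by
    rw [hu, ← Real.rpow_natCast, ← Real.rpow_mul hL0]
    norm_num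
  have hu0 : 0 ≤ u := Real.rpow_nonneg hL0 _
  have hule : max 1 u₀ ≤ u := by
    rw [← hu4] at hL
    exact le_of_pow_le_pow_left₀ (by norm_num) hu0 hL
  have hxe : Real.exp (u ^ 4) = x := by rw [hu4, Real.exp_log hx0]
  have key := h u ((le_max_right _ _).trans hule) ⌊x⌋₊ (by rw [hxe]; exact Nat.floor_le hx0.le)
  rw [hxe] at key
  refine le_trans ?_ key
  have hset : {m : ℕ | 1 ≤ m ∧ (m : ℝ) ≤ x ∧ ∃ n : ℕ, Mate d m n} =
      (({m ∈ Icc 1 ⌊x⌋₊ | ∃ n, Mate d m n} : Finset ℕ) : Set ℕ) := by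
    ext m
    simp only [Set.mem_setOf_eq, Finset.coe_filter, Finset.mem_Icc, Nat.le_floor_iff hx0.le]
    tauto
  rw [hset, Set.ncard_coe_finset]

end Pool.Agent.Lib.MP_c831ba_nt
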