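import Pool.Agent.Lib.MP_c831ba_nt.MCRLem

/-!
Module NumMCR. Use `mcr_of` (MCRLem.lean, finished). For `u` large: `t ≥ u ^ 2 - 1` (`TU u = ⌈u ^ 2⌉₊`), `u / 10 - 2 ≤ R₀ = 2 * kU u ≤ u / 10`, `(d + 1) u ^ 4 ≤ bU d u ≤ (d + 1) u ^ 4 + 1`,
so `4 ≤ bU d u`, `R₀ ≤ bU d u`, `log (bU d u) ≤ R₀`. The main condition: `20 (R₀ + 1) (R₀ + 1 + log t) ≤ t log 2`: with `u ≤ √(t + 1)` and `R₀ + 1 ≤ √(t + 1) / 10 + 1`, the left side is at most
`20 (√(t+1) / 10 + 1) ^ 2 + 20 (√(t+1) / 10 + 1) log t = 0.2 (t + 1) + O(√t log t) ≤ 0.5 t` for all `t ≥ t₀` (`isLittleO_log_rpow_atTop`), and `t ≥ u ^ 2 - 1 ≥ t₀` for `u` large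
(hint: `log t ≤ C t ^ (1/4)`-type bounds: `Real.log_le_rpow_div`, or `log t = 4 log (t ^ (1/4)) ≤ 4 t ^ (1/4)`; put `s = √(t+1)`).
-/

namespace Pool.Agent.Lib.MP_c831ba_nt

open Finset Pool.Agent.Lib.MP_5349b0_nt.SZ7

private theorem numMCR_log : ∃ u₁ : ℝ, ∀ s : ℝ, u₁ ≤ s → Real.log s ≤ s / 200 := by
  have h1 := Real.isLittleO_log_id_atTop.def (c := 1 / 200) (by norm_num)
  obtain ⟨a, ha⟩ := Filter.eventually_atTop.1 h1
  refine ⟨max a 1, fun s hs => ?_⟩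
  have h2 := ha s (le_trans (le_max_left _ _) hs)
  have h3 : (1 : ℝ) ≤ s := le_trans (le_max_right _ _) hs
  simp only [id_eq, Real.norm_eq_abs] at h2
  rw [abs_of_nonneg (show (0 : ℝ) ≤ s by linarith)] at h2
  have h4 := le_abs_self (Real.log s)
  linarith

theorem numMCR (d : ℕ) (hd : 1 ≤ d) : ∃ u₀ : ℝ, ∀ u : ℝ, u₀ ≤ u → ∀ t : ℕ, TU u ≤ t + 1 →
    3 ≤ t ∧ MCR (bU d u) t (2 * kU u) := by
  obtain ⟨u₁, hu₁⟩ := numMCR_log
  refine ⟨max (max u₁ 100) (13 * (Real.log (2 * ((d : ℝ) + 1)) + 2)), fun u hu t ht => ?_⟩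
  have hu1 : u₁ ≤ u := le_trans (le_trans (le_max_left _ _) (le_max_left _ _)) hu
  have hu2 : (100 : ℝ) ≤ u := le_trans (le_trans (le_max_right _ _) (le_max_left _ _)) hu
  have hu3 : 13 * (Real.log (2 * ((d : ℝ) + 1)) + 2) ≤ u := le_trans (le_max_right _ _) hu
  have hd0 : (0 : ℝ) ≤ (d : ℝ) := Nat.cast_nonneg _
  have hT : u ^ 2 ≤ (t : ℝ) + 1 := by
    have h1 : u ^ 2 ≤ (TU u : ℝ) := Nat.le_ceil _
    have h2 : ((TU u : ℕ) : ℝ) ≤ ((t + 1 : ℕ) : ℝ) := by exact_mod_cast ht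
    push_cast at h2
    linarith
  have hu4 : (1 : ℝ) ≤ u ^ 4 := one_le_pow₀ (by linarith)
  have ht3 : (3 : ℝ) ≤ (t : ℝ) := by nlinarith
  have ht3' : 3 ≤ t := by exact_mod_cast ht3
  have hb1 : ((d : ℝ) + 1) * u ^ 4 ≤ (bU d u : ℝ) := Nat.le_ceil _
  have hb2 : (bU d u : ℝ) < ((d : ℝ) + 1) * u ^ 4 + 1 := Nat.ceil_lt_add_one (by positivity)
  have hk1 : (kU u : ℝ) ≤ u / 20 := Nat.floor_le (by linarith)
  have hk2 : u / 20 < (kU u : ℝ) + 1 := Nat.lt_floor_add_one _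
  have huu : u ≤ u ^ 4 := by
    have h1 : (1 : ℝ) ≤ u ^ 3 := one_le_pow₀ (by linarith)
    nlinarith
  have hbu : u ^ 4 ≤ (bU d u : ℝ) := by nlinarith
  refine ⟨ht3', mcr_of ?_ (by omega) ?_ ?_ ?_ ?_⟩
  · have h1 : (4 : ℝ) ≤ (bU d u : ℝ) := by linarith
    exact_mod_cast h1
  · have h1 : (1 : ℝ) < (kU u : ℝ) := by linarith
    have h2 : 1 < kU u := by exact_mod_cast h1
    omega
  · have h1 : ((2 * kU u : ℕ) : ℝ) ≤ (bU d u : ℝ) := by
      push_cast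
      linarith
    exact_mod_cast h1
  · push_cast
    have h1 : (bU d u : ℝ) ≤ (2 * ((d : ℝ) + 1)) * u ^ 4 := by nlinarith
    have h2 : Real.log (bU d u : ℝ) ≤ Real.log ((2 * ((d : ℝ) + 1)) * u ^ 4) :=
      Real.log_le_log (by linarith) h1
    rw [Real.log_mul (by positivity) (by positivity), Real.log_pow] at h2
    have h3 := hu₁ u hu1
    push_cast at h2
    linarith
  · push_cast
    obtain ⟨s, hs⟩ : ∃ s, s = Real.sqrt ((t : ℝ) + 1) := ⟨_, rfl⟩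
    have hs2 : s ^ 2 = (t : ℝ) + 1 := by
      rw [hs]
      exact Real.sq_sqrt (by linarith)
    have hs0 : 0 ≤ s := by
      rw [hs]
      exact Real.sqrt_nonneg _
    have hus : u ≤ s := by
      rw [hs]
      exact Real.le_sqrt_of_sq_le hT
    have hlt : Real.log (t : ℝ) ≤ s / 100 := by
      have h1 : Real.log (t : ℝ) ≤ Real.log (s ^ 2) := by
        rw [hs2]
        exact Real.log_le_log (by linarith) (by linarith)
      rw [Real.log_pow] at h1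
      have h2 := hu₁ s (le_trans hu1 hus)
      push_cast at h1
      linarith
    have hr : 2 * (kU u : ℝ) + 1 ≤ s / 10 + 1 := by linarith
    have hr0 : (0 : ℝ) ≤ 2 * (kU u : ℝ) + 1 := by positivity
    have h4 : 20 * (2 * (kU u : ℝ) + 1) * (2 * (kU u : ℝ) + 1 + Real.log (t : ℝ)) ≤
        20 * (s / 10 + 1) * (s / 10 + 1 + s / 100) := by
      have h5 : 2 * (kU u : ℝ) + 1 + Real.log (t : ℝ) ≤ s / 10 + 1 + s / 100 := by linarith
      have h6 : 20 * (2 * (kU u : ℝ) + 1) * (2 * (kU u : ℝ) + 1 + Real.log (t : ℝ)) ≤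
          20 * (2 * (kU u : ℝ) + 1) * (s / 10 + 1 + s / 100) :=
        mul_le_mul_of_nonneg_left h5 (by linarith)
      have h7 : 20 * (2 * (kU u : ℝ) + 1) * (s / 10 + 1 + s / 100) ≤
          20 * (s / 10 + 1) * (s / 10 + 1 + s / 100) :=
        mul_le_mul_of_nonneg_right (by linarith) (by linarith)
      exact h6.trans h7
    refine h4.trans ?_
    have h8 : (t : ℝ) = s ^ 2 - 1 := by linarith
    have h9 := Real.log_two_gt_d9
    have hs100 : (100 : ℝ) ≤ s := hu2.trans hus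
    have h10 : (s ^ 2 - 1) * 0.69 ≤ (t : ℝ) * Real.log 2 := by
      rw [h8]
      exact mul_le_mul_of_nonneg_left (by linarith) (by nlinarith)
    refine le_trans ?_ h10
    nlinarith

end Pool.Agent.Lib.MP_c831ba_nt
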