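import Pool.Agent.Lib.MP_c831ba_nt.Defs
import Pool.Agent.Lib.MP_6da058_co.Esym

/-!
Module OmegaTail: numbers with many primes.
-/

namespace Pool.Agent.Lib.MP_c831ba_nt

open Finset

private theorem otD (N D : ℕ) (hD : 0 < D) : (#{m ∈ Icc 1 N | D ∣ m} : ℝ) ≤ N / D := by
  have h1 : #{m ∈ Icc 1 N | D ∣ m} = N / D := by
    have h2 : (Icc 1 N) = Ioc 0 N := rfl
    rw [h2]
    exact Nat.Ioc_filter_dvd_card_eq_div N D
  rw [h1]
  exact Nat.cast_div_le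

theorem omegaTail (N k : ℕ) :
    (#{m ∈ Icc 1 N | k ≤ #m.primeFactors} : ℝ) * k.factorial ≤
      N * (∑ p ∈ Nat.primesLE N, (1 : ℝ) / p) ^ k := by
  classical
  obtain ⟨T, hT⟩ : ∃ T : Finset (Finset ℕ), T = (Nat.primesLE N).powersetCard k := ⟨_, rfl⟩
  have hsub : ({m ∈ Icc 1 N | k ≤ #m.primeFactors} : Finset ℕ) ⊆
      T.biUnion (fun A => {m ∈ Icc 1 N | (∏ p ∈ A, p) ∣ m}) := by
    intro m hm
    rw [Finset.mem_filter] at hm
    obtain ⟨hmI, hmc⟩ := hm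
    have hmI' := Finset.mem_Icc.1 hmI
    obtain ⟨A, hA, hc⟩ := Finset.exists_subset_card_eq hmc
    have hAp : ∀ p ∈ A, p.Prime := fun p hp => Nat.prime_of_mem_primeFactors (hA hp)
    have hAdvd : (∏ p ∈ A, p) ∣ m := by
      refine Finset.prod_primes_dvd _ (fun p hp => (hAp p hp).prime) (fun p hp => ?_)
      exact Nat.dvd_of_mem_primeFactors (hA hp)
    rw [Finset.mem_biUnion]
    refine ⟨A, ?_, Finset.mem_filter.2 ⟨hmI, hAdvd⟩⟩
    rw [hT, Finset.mem_powersetCard]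
    refine ⟨?_, hc⟩
    intro p hp
    rw [Nat.mem_primesLE]
    exact ⟨(Nat.le_of_mem_primeFactors (hA hp)).trans hmI'.2, hAp p hp⟩
  have hcard : (#{m ∈ Icc 1 N | k ≤ #m.primeFactors} : ℝ) ≤
      ∑ A ∈ T, N * ∏ p ∈ A, ((1 : ℝ) / p) := by
    have h1 : #{m ∈ Icc 1 N | k ≤ #m.primeFactors} ≤
        ∑ A ∈ T, #{m ∈ Icc 1 N | (∏ p ∈ A, p) ∣ m} :=
      (Finset.card_le_card hsub).trans Finset.card_biUnion_le
    have h2 : (#{m ∈ Icc 1 N | k ≤ #m.primeFactors} : ℝ) ≤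
        ∑ A ∈ T, (#{m ∈ Icc 1 N | (∏ p ∈ A, p) ∣ m} : ℝ) := by exact_mod_cast h1
    refine h2.trans (Finset.sum_le_sum fun A hA => ?_)
    rw [hT, Finset.mem_powersetCard] at hA
    have hpos : 0 < ∏ p ∈ A, p :=
      Finset.prod_pos fun p hp => (Nat.mem_primesLE.1 (hA.1 hp)).2.pos
    refine (otD N _ hpos).trans (le_of_eq ?_)
    rw [Nat.cast_prod, Finset.prod_div_distrib, Finset.prod_const_one]
    ring
  have hG : (k.factorial : ℝ) * ∑ A ∈ (Nat.primesLE N).powersetCard k, ∏ p ∈ A, ((1 : ℝ) / p) ≤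
      (∑ p ∈ Nat.primesLE N, (1 : ℝ) / p) ^ k :=
    Pool.Agent.Lib.MP_6da058_co.G_le_pow (w := fun p : ℕ => (1 : ℝ) / p) (S := Nat.primesLE N)
      (fun p _ => by positivity) k
  calc (#{m ∈ Icc 1 N | k ≤ #m.primeFactors} : ℝ) * k.factorial
      ≤ (∑ A ∈ T, N * ∏ p ∈ A, ((1 : ℝ) / p)) * k.factorial := by gcongr
    _ = N * (k.factorial * ∑ A ∈ (Nat.primesLE N).powersetCard k, ∏ p ∈ A, ((1 : ℝ) / p)) := by
        rw [← Finset.mul_sum, hT]; ring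
    _ ≤ N * (∑ p ∈ Nat.primesLE N, (1 : ℝ) / p) ^ k := by gcongr

end Pool.Agent.Lib.MP_c831ba_nt
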