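import Pool.Agent.Lib.MP_c831ba_nt.PBStruct
import Pool.Agent.Lib.MP_5349b0_nt.SZ2.AT20RadMul
import Pool.Agent.Lib.MP_5349b0_nt.SZ2.G3Twist

/-!
Power bound, counting.
-/

namespace Pool.Agent.Lib.MP_c831ba_nt

open Finset Pool.Agent.Lib.MP_5349b0_nt Pool.Agent.Lib.MP_5349b0_nt.SZ2

/-- The `m ≤ x` such that all primes of `m ^ d + 1` divide `Z`. -/
theorem count_fiber (d : ℕ) (hd : 1 ≤ d) (ε : ℝ) (hε : 0 < ε) : ∃ C : ℝ, 0 < C ∧ ∀ x : ℝ, 2 ≤ x →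
    ∀ Z : ℕ, Z ≠ 0 → ∀ B : Finset ℕ, (∀ m ∈ B, 1 ≤ m ∧ (m : ℝ) ≤ x ∧
      ∀ q ∈ (m ^ d + 1).primeFactors, q ∣ Z) → (#B : ℝ) ≤ C * (#Z.divisors) * x ^ ε := by
  classical
  obtain ⟨C, hC, hfib⟩ := radFiber (d + 1) ε hε
  refine ⟨C, hC, fun x hx Z hZ B hB => ?_⟩
  have hx1 : 1 ≤ x := by linarith
  have hmap : ∀ m ∈ B, rad (m ^ d + 1) ∈ Z.divisors := by
    intro m hm
    rw [Nat.mem_divisors]
    refine ⟨?_, hZ⟩
    unfold rad
    exact Finset.prod_primes_dvd Z (fun p hp => (Nat.prime_of_mem_primeFactors hp).prime)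
      (fun p hp => (hB m hm).2.2 p hp)
  rw [Finset.card_eq_sum_card_fiberwise hmap]
  push_cast
  have hf : ∀ g ∈ Z.divisors, ((#(B.filter fun m => rad (m ^ d + 1) = g) : ℕ) : ℝ) ≤ C * x ^ ε := by
    intro g _
    have hinj : Set.InjOn (fun m : ℕ => m ^ d + 1) ↑(B.filter fun m => rad (m ^ d + 1) = g) := by
      intro a _ b _ hab
      have : a ^ d = b ^ d := by simpa using hab
      exact Nat.pow_left_injective (by omega) this
    rw [← Finset.card_image_of_injOn hinj]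
    refine hfib x hx1 g _ fun N hN => ?_
    obtain ⟨m, hm, rfl⟩ := mem_image.1 hN
    obtain ⟨hmB, hmg⟩ := mem_filter.1 hm
    obtain ⟨hm1, hmx, -⟩ := hB m hmB
    refine ⟨Nat.succ_pos _, ?_, hmg⟩
    push_cast
    have h1 : (m : ℝ) ^ d ≤ x ^ d := pow_le_pow_left₀ (Nat.cast_nonneg _) hmx d
    have h2 : 1 ≤ x ^ d := one_le_pow₀ hx1
    calc (m : ℝ) ^ d + 1 ≤ x ^ d + x ^ d := add_le_add h1 h2
      _ = 2 * x ^ d := by ring
      _ ≤ x * x ^ d := mul_le_mul_of_nonneg_right hx (by positivity)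
      _ = x ^ (d + 1) := by ring
  refine (Finset.sum_le_sum hf).trans ?_
  rw [Finset.sum_const, nsmul_eq_mul]
  apply le_of_eq
  ring

lemma rad_congr {a b : ℕ} (h : a.primeFactors = b.primeFactors) : rad a = rad b := by
  unfold rad; rw [h]

lemma ZN_le {d J h g : ℕ} : ZN d J h g ≤ h ^ (d * J) + g ^ d := by
  unfold ZN
  refine (Int.natAbs_add_le _ _).trans ?_
  rw [Int.natAbs_mul, Int.natAbs_pow, Int.natAbs_pow, Int.natAbs_pow]
  simp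

/-- The good range of the parameters for a bad `m` with large radical. -/
theorem struct_bad {A x : ℝ} (hA : 1 ≤ A) (hx : 1 < x) {d m n : ℕ} (hd : 1 ≤ d) (hm : 3 ≤ m)
    (hmx : (m : ℝ) ≤ x) (hnx : (n : ℝ) ≤ x ^ A) (hP : Partner d m n)
    (hrad : x ^ (1 - 1 / (2 * A + 5)) < (rad m : ℝ)) :
    ∃ J ∈ Icc 1 (⌊2 * A⌋₊ + 3), ∃ h ∈ Icc 1 ⌊x ^ (1 - 1 / (2 * A + 5))⌋₊, ∃ g : ℕ,
      1 ≤ g ∧ (g : ℝ) ≤ x ^ A ∧ g.primeFactors = h.primeFactors ∧ ZN d J h g ≠ 0 ∧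
      ∀ q ∈ (m ^ d + 1).primeFactors, q ∣ ZN d J h g := by
  obtain ⟨hn1, hnm, hpf, hpf1⟩ := id hP
  have hx0 : 0 < x := by linarith
  obtain ⟨J, hJ, hJc⟩ := exists_class hA hx (by omega) hn1 hmx hnx hpf hrad
  obtain ⟨h, g, hh1, hg1, hmh, hng, hgh⟩ := cls_split (J := J) (by omega : m ≠ 0)
    (by omega : n ≠ 0) hpf
  have hc0 : (0 : ℝ) < cls m n J := by exact_mod_cast cls_pos m n J
  have hJ1 : 1 ≤ J := (mem_Icc.1 hJ).1
  have hrel : n * h ^ J = m ^ J * g := by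
    obtain ⟨c, hc⟩ : ∃ c, c = cls m n J := ⟨_, rfl⟩
    rw [← hc] at hmh hng
    rw [hmh, hng]
    ring
  have hxd : 0 < x ^ (1 / (2 * A + 5)) := Real.rpow_pos_of_pos hx0 _
  refine ⟨J, hJ, h, ?_, g, hg1, ?_, hgh, key_ne hd hm hP hh1 hJ1 hrel, ?_⟩
  · refine mem_Icc.2 ⟨hh1, Nat.le_floor ?_⟩
    have e1 : (m : ℝ) = cls m n J * h := by exact_mod_cast hmh
    have e2 : x ^ (1 - 1 / (2 * A + 5)) * x ^ (1 / (2 * A + 5)) = x := by
      rw [← Real.rpow_add hx0]; simp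
    have e3 : (h : ℝ) * x ^ (1 / (2 * A + 5)) ≤ x ^ (1 - 1 / (2 * A + 5)) * x ^ (1 / (2 * A + 5)) := by
      rw [e2]
      calc (h : ℝ) * x ^ (1 / (2 * A + 5)) ≤ h * cls m n J :=
            mul_le_mul_of_nonneg_left hJc (Nat.cast_nonneg _)
        _ = m := by rw [e1]; ring
        _ ≤ x := hmx
    exact le_of_mul_le_mul_right e3 hxd
  · refine le_trans ?_ hnx
    have : g ≤ n := Nat.le_of_dvd (by omega) (by rw [hng]; exact dvd_mul_left _ _)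
    exact_mod_cast this
  · intro q hq
    refine key_dvd (m := m) (n := n) hrel (Nat.dvd_of_mem_primeFactors hq) ?_
    rw [← hpf1] at hq
    exact Nat.dvd_of_mem_primeFactors hq

end Pool.Agent.Lib.MP_c831ba_nt
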