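import Pool.Agent.Lib.MP_c831ba_nt.PBCount

/-!
Power bound, final count.
-/

namespace Pool.Agent.Lib.MP_c831ba_nt

open Finset Pool.Agent.Lib.MP_5349b0_nt Pool.Agent.Lib.MP_5349b0_nt.SZ2

/-- Bad `m` with small radical. -/
lemma count_small (ε : ℝ) (hε : 0 < ε) : ∃ C : ℝ, 0 < C ∧ ∀ x : ℝ, 1 ≤ x → ∀ R : ℝ, 0 ≤ R →
    (#((Icc 1 ⌊x⌋₊).filter fun m => (rad m : ℝ) ≤ R) : ℝ) ≤ C * R * x ^ ε := by
  obtain ⟨C, hC, h⟩ := radCount 1 ε hε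
  refine ⟨C, hC, fun x hx R hR => h x hx R hR _ fun m hm => ?_⟩
  obtain ⟨h1, h2⟩ := mem_filter.1 hm
  refine ⟨(mem_Icc.1 h1).1, ?_, h2⟩
  rw [pow_one]
  exact (Nat.le_floor_iff (by linarith)).1 (mem_Icc.1 h1).2

/-- Bad `m` with large radical. -/
lemma count_large (d : ℕ) (hd : 1 ≤ d) (A : ℝ) (hA : 1 ≤ A) (ε : ℝ) (hε : 0 < ε) :
    ∃ C : ℝ, 0 < C ∧ ∀ x : ℝ, 2 ≤ x → ∀ B : Finset ℕ,
      (∀ m ∈ B, 3 ≤ m ∧ (m : ℝ) ≤ x ∧ x ^ (1 - 1 / (2 * A + 5)) < (rad m : ℝ) ∧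
        ∃ n : ℕ, (n : ℝ) ≤ x ^ A ∧ Partner d m n) →
      (#B : ℝ) ≤ C * x ^ (1 - 1 / (2 * A + 5) + 3 * ε) := by
  classical
  obtain ⟨A', hA'⟩ : ∃ A' : ℕ, A ≤ A' := ⟨⌈A⌉₊, Nat.le_ceil A⟩
  obtain ⟨K, hK⟩ : ∃ K, K = ⌊2 * A⌋₊ + 3 := ⟨_, rfl⟩
  obtain ⟨E, hE⟩ : ∃ E : ℕ, E = d * (K + A') + 1 := ⟨_, rfl⟩
  have hE0 : (0 : ℝ) < E := by rw [hE]; positivity
  have hεE : 0 < ε / E := by positivity
  obtain ⟨C1, hC1, hfib⟩ := radFiber A' ε hε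
  obtain ⟨C2, hC2, hdiv⟩ := divisorBound (ε / E) hεE
  obtain ⟨C3, hC3, hcf⟩ := count_fiber d hd ε hε
  have hK0 : (0 : ℝ) < K := by
    have : 0 < K := by omega
    exact_mod_cast this
  refine ⟨K * (C1 * (C3 * C2)), by positivity, fun x hx B hB => ?_⟩
  have hx1 : 1 ≤ x := by linarith
  have hx0 : 0 < x := by linarith
  obtain ⟨δ, hδ⟩ : ∃ δ, δ = 1 / (2 * A + 5) := ⟨_, rfl⟩
  rw [← hδ] at hB ⊢
  have hδ1 : 0 < δ := by rw [hδ]; positivity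
  obtain ⟨H, hH⟩ : ∃ H, H = Icc 1 ⌊x ^ (1 - δ)⌋₊ := ⟨_, rfl⟩
  obtain ⟨G, hG⟩ : ∃ G : ℕ → Finset ℕ, G = fun h =>
    (Icc 1 ⌊x ^ A'⌋₊).filter fun g => g.primeFactors = h.primeFactors := ⟨_, rfl⟩
  obtain ⟨F, hF⟩ : ∃ F : ℕ → ℕ → ℕ → Finset ℕ, F = fun J h g =>
    (Icc 1 ⌊x⌋₊).filter fun m => ZN d J h g ≠ 0 ∧ ∀ q ∈ (m ^ d + 1).primeFactors, q ∣ ZN d J h g :=
    ⟨_, rfl⟩
  have hsub : B ⊆ (Icc 1 K).biUnion fun J => H.biUnion fun h => (G h).biUnion fun g => F J h g := by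
    intro m hm
    obtain ⟨hm3, hmx, hrad, n, hnx, hP⟩ := hB m hm
    rw [hδ] at hrad
    obtain ⟨J, hJ, h, hh, g, hg1, hgx, hgh, hZ, hq⟩ := struct_bad hA (by linarith) hd hm3 hmx hnx hP
      hrad
    rw [← hK] at hJ
    rw [← hδ, ← hH] at hh
    rw [mem_biUnion]
    refine ⟨J, hJ, ?_⟩
    rw [mem_biUnion]
    refine ⟨h, hh, ?_⟩
    rw [mem_biUnion]
    refine ⟨g, ?_, ?_⟩
    · rw [hG]
      refine mem_filter.2 ⟨mem_Icc.2 ⟨hg1, Nat.le_floor ?_⟩, hgh⟩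
      refine hgx.trans ?_
      rw [← Real.rpow_natCast]
      exact Real.rpow_le_rpow_of_exponent_le hx1 hA'
    · rw [hF]
      exact mem_filter.2 ⟨mem_Icc.2 ⟨by omega, Nat.le_floor hmx⟩, hZ, hq⟩
  have hGc : ∀ h, (#(G h) : ℝ) ≤ C1 * x ^ ε := by
    intro h
    refine hfib x hx1 (rad h) (G h) fun g hg => ?_
    rw [hG] at hg
    obtain ⟨h1, h2⟩ := mem_filter.1 hg
    refine ⟨(mem_Icc.1 h1).1, ?_, rad_congr h2⟩
    exact (Nat.le_floor_iff (by positivity)).1 (mem_Icc.1 h1).2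
  have hFc : ∀ J ∈ Icc 1 K, ∀ h ∈ H, ∀ g ∈ G h, (#(F J h g) : ℝ) ≤ C3 * (C2 * x ^ ε) * x ^ ε := by
    intro J hJ h hh g hg
    by_cases hZ : ZN d J h g = 0
    · have : F J h g = ∅ := by
        rw [hF]
        refine Finset.filter_eq_empty_iff.2 fun m _ hm => hm.1 hZ
      rw [this]
      simp only [card_empty, Nat.cast_zero]
      positivity
    · have h1 : (#(F J h g) : ℝ) ≤ C3 * (#(ZN d J h g).divisors) * x ^ ε := by
        refine hcf x hx (ZN d J h g) hZ (F J h g) fun m hm => ?_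
        rw [hF] at hm
        obtain ⟨h1, h2⟩ := mem_filter.1 hm
        exact ⟨(mem_Icc.1 h1).1, (Nat.le_floor_iff (by linarith)).1 (mem_Icc.1 h1).2, h2.2⟩
      refine h1.trans ?_
      have hxe : 0 ≤ x ^ ε := (Real.rpow_pos_of_pos hx0 _).le
      refine mul_le_mul_of_nonneg_right (mul_le_mul_of_nonneg_left ?_ hC3.le) hxe
      refine (hdiv _ (Nat.pos_of_ne_zero hZ)).trans (mul_le_mul_of_nonneg_left ?_ hC2.le)
      have hZx : (ZN d J h g : ℝ) ≤ x ^ (E : ℝ) := by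
        rw [Real.rpow_natCast]
        have hhx : (h : ℝ) ≤ x := by
          rw [hH] at hh
          have := (Nat.le_floor_iff (Real.rpow_pos_of_pos hx0 _).le).1 (mem_Icc.1 hh).2
          refine this.trans ?_
          calc x ^ (1 - δ) ≤ x ^ (1 : ℝ) := Real.rpow_le_rpow_of_exponent_le hx1 (by linarith)
            _ = x := Real.rpow_one x
        have hgx : (g : ℝ) ≤ x ^ A' := by
          rw [hG] at hg
          exact (Nat.le_floor_iff (by positivity)).1 (mem_Icc.1 (mem_filter.1 hg).1).2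
        have hz : (ZN d J h g : ℝ) ≤ (h : ℝ) ^ (d * J) + (g : ℝ) ^ d := by
          exact_mod_cast ZN_le (d := d) (J := J) (h := h) (g := g)
        have hJK : J ≤ K := (mem_Icc.1 hJ).2
        have b1 : (h : ℝ) ^ (d * J) ≤ x ^ (d * (K + A')) :=
          (pow_le_pow_left₀ (Nat.cast_nonneg _) hhx _).trans
            (pow_le_pow_right₀ hx1 (Nat.mul_le_mul_left _ (by omega)))
        have b2 : (g : ℝ) ^ d ≤ x ^ (d * (K + A')) := by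
          refine (pow_le_pow_left₀ (Nat.cast_nonneg _) hgx _).trans ?_
          rw [← pow_mul]
          refine pow_le_pow_right₀ hx1 ?_
          rw [mul_comm]
          exact Nat.mul_le_mul_left _ (by omega)
        calc (ZN d J h g : ℝ) ≤ x ^ (d * (K + A')) + x ^ (d * (K + A')) := hz.trans (add_le_add b1 b2)
          _ = 2 * x ^ (d * (K + A')) := by ring
          _ ≤ x * x ^ (d * (K + A')) := mul_le_mul_of_nonneg_right hx (by positivity)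
          _ = x ^ E := by rw [hE]; ring
      calc (ZN d J h g : ℝ) ^ (ε / E) ≤ (x ^ (E : ℝ)) ^ (ε / E) :=
            Real.rpow_le_rpow (Nat.cast_nonneg _) hZx hεE.le
        _ = x ^ ε := by
            rw [← Real.rpow_mul hx0.le]
            congr 1
            field_simp
  have hc : ((#((Icc 1 K).biUnion fun J => H.biUnion fun h => (G h).biUnion fun g => F J h g) : ℕ) : ℝ) ≤
      ∑ _J ∈ Icc 1 K, ∑ _h ∈ H, C1 * x ^ ε * (C3 * (C2 * x ^ ε) * x ^ ε) := by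
    refine (Nat.cast_le.2 card_biUnion_le).trans ?_
    rw [Nat.cast_sum]
    refine Finset.sum_le_sum fun J hJ => ?_
    refine (Nat.cast_le.2 card_biUnion_le).trans ?_
    rw [Nat.cast_sum]
    refine Finset.sum_le_sum fun h hh => ?_
    refine (Nat.cast_le.2 card_biUnion_le).trans ?_
    rw [Nat.cast_sum]
    have hxe : 0 ≤ x ^ ε := (Real.rpow_pos_of_pos hx0 _).le
    calc ∑ g ∈ G h, (#(F J h g) : ℝ) ≤ ∑ _g ∈ G h, C3 * (C2 * x ^ ε) * x ^ ε :=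
          Finset.sum_le_sum fun g hg => hFc J hJ h hh g hg
      _ = #(G h) * (C3 * (C2 * x ^ ε) * x ^ ε) := by rw [Finset.sum_const, nsmul_eq_mul]
      _ ≤ C1 * x ^ ε * (C3 * (C2 * x ^ ε) * x ^ ε) :=
          mul_le_mul_of_nonneg_right (hGc h) (by positivity)
  have hHc : (#H : ℝ) ≤ x ^ (1 - δ) := by
    rw [hH, Nat.card_Icc, Nat.add_sub_cancel]
    exact Nat.floor_le (Real.rpow_pos_of_pos hx0 _).le
  have hxe : 0 < x ^ ε := Real.rpow_pos_of_pos hx0 _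
  calc (#B : ℝ) ≤ (#((Icc 1 K).biUnion fun J => H.biUnion fun h => (G h).biUnion fun g => F J h g) : ℕ) :=
        by exact_mod_cast Finset.card_le_card hsub
    _ ≤ ∑ _J ∈ Icc 1 K, ∑ _h ∈ H, C1 * x ^ ε * (C3 * (C2 * x ^ ε) * x ^ ε) := hc
    _ = K * (#H * (C1 * x ^ ε * (C3 * (C2 * x ^ ε) * x ^ ε))) := by
        rw [Finset.sum_const, Finset.sum_const, nsmul_eq_mul, nsmul_eq_mul, Nat.card_Icc,
          Nat.add_sub_cancel]
    _ ≤ K * (x ^ (1 - δ) * (C1 * x ^ ε * (C3 * (C2 * x ^ ε) * x ^ ε))) := by gcongr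
    _ = K * (C1 * (C3 * C2)) * (x ^ (1 - δ) * (x ^ ε * x ^ ε * x ^ ε)) := by ring
    _ = K * (C1 * (C3 * C2)) * x ^ (1 - δ + 3 * ε) := by
        rw [← Real.rpow_add hx0, ← Real.rpow_add hx0, ← Real.rpow_add hx0]
        congr 2
        ring

theorem powerBound (d : ℕ) (hd : 1 ≤ d) (A : ℝ) (hA : 1 ≤ A) :
    ∃ x₀ : ℝ, ∀ x : ℝ, x₀ ≤ x →
      (({m : ℕ | 1 ≤ m ∧ (m : ℝ) ≤ x ∧ ∃ n : ℕ, 1 ≤ n ∧ (n : ℝ) ≤ x ^ A ∧ n ≠ m ∧
        n.primeFactors = m.primeFactors ∧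
        (n ^ d + 1).primeFactors = (m ^ d + 1).primeFactors}).ncard : ℝ) ≤
      x ^ (1 - 1 / (2 * A + 6)) := by
  classical
  obtain ⟨γ, hγ⟩ : ∃ γ, γ = 1 / (2 * A + 5) - 1 / (2 * A + 6) := ⟨_, rfl⟩
  have hγ0 : 0 < γ := by
    rw [hγ, sub_pos]
    exact one_div_lt_one_div_of_lt (by linarith) (by linarith)
  obtain ⟨C1, hC1, h1⟩ := count_small (γ / 4) (by linarith)
  obtain ⟨C2, hC2, h2⟩ := count_large d hd A hA (γ / 4) (by linarith)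
  have hev : ∀ᶠ x : ℝ in Filter.atTop, 2 + C1 + C2 ≤ x ^ (γ / 4) :=
    (tendsto_rpow_atTop (by linarith : 0 < γ / 4)).eventually_ge_atTop _
  obtain ⟨x₀, hx₀⟩ := Filter.eventually_atTop.1 hev
  refine ⟨max x₀ 2, fun x hx => ?_⟩
  have hx2 : 2 ≤ x := (le_max_right _ _).trans hx
  have hxx := hx₀ x ((le_max_left _ _).trans hx)
  have hx1 : 1 ≤ x := by linarith
  have hx0 : 0 < x := by linarith
  obtain ⟨δ, hδ⟩ : ∃ δ, δ = 1 / (2 * A + 5) := ⟨_, rfl⟩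
  obtain ⟨B1, hB1⟩ : ∃ B1 : Finset ℕ, B1 = (Icc 1 ⌊x⌋₊).filter fun m : ℕ => (rad m : ℝ) ≤ x ^ (1 - δ) := ⟨_, rfl⟩
  obtain ⟨B2, hB2⟩ : ∃ B2 : Finset ℕ, B2 = (Icc 1 ⌊x⌋₊).filter fun m : ℕ => 3 ≤ m ∧ (m : ℝ) ≤ x ∧
    x ^ (1 - 1 / (2 * A + 5)) < (rad m : ℝ) ∧ ∃ n : ℕ, (n : ℝ) ≤ x ^ A ∧ Partner d m n := ⟨_, rfl⟩
  have hsub : {m : ℕ | 1 ≤ m ∧ (m : ℝ) ≤ x ∧ ∃ n : ℕ, 1 ≤ n ∧ (n : ℝ) ≤ x ^ A ∧ n ≠ m ∧
        n.primeFactors = m.primeFactors ∧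
        (n ^ d + 1).primeFactors = (m ^ d + 1).primeFactors} ⊆ ↑(Icc 1 2 ∪ (B1 ∪ B2)) := by
    rintro m ⟨hm1, hmx, n, hn1, hnx, hnm, hpf, hpf1⟩
    rw [Finset.mem_coe, mem_union, mem_union]
    have hmI : m ∈ Icc 1 ⌊x⌋₊ := mem_Icc.2 ⟨hm1, Nat.le_floor hmx⟩
    by_cases hm3 : m < 3
    · exact Or.inl (mem_Icc.2 ⟨hm1, by omega⟩)
    · right
      by_cases hr : (rad m : ℝ) ≤ x ^ (1 - δ)
      · left; rw [hB1]; exact mem_filter.2 ⟨hmI, hr⟩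
      · right
        rw [hB2]
        rw [hδ] at hr
        exact mem_filter.2 ⟨hmI, by omega, hmx, not_le.1 hr, n, hnx, hn1, hnm, hpf, hpf1⟩
  have hcard : (({m : ℕ | 1 ≤ m ∧ (m : ℝ) ≤ x ∧ ∃ n : ℕ, 1 ≤ n ∧ (n : ℝ) ≤ x ^ A ∧ n ≠ m ∧
        n.primeFactors = m.primeFactors ∧
        (n ^ d + 1).primeFactors = (m ^ d + 1).primeFactors}).ncard : ℝ) ≤ 2 + (#B1 + #B2) := by
    have e1 := Set.ncard_le_ncard hsub (Finset.finite_toSet _)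
    rw [Set.ncard_coe_finset] at e1
    have e2 : #(Icc 1 2 ∪ (B1 ∪ B2)) ≤ 2 + (#B1 + #B2) :=
      (card_union_le _ _).trans (add_le_add (by simp) (card_union_le _ _))
    exact_mod_cast e1.trans e2
  have hxe : 0 < x ^ (1 - δ + 3 * (γ / 4)) := Real.rpow_pos_of_pos hx0 _
  have hδ0 : 0 < δ := by rw [hδ]; positivity
  have hδ1 : δ < 1 := by
    rw [hδ, div_lt_one (by linarith)]; linarith
  have hc1 : (#B1 : ℝ) ≤ C1 * x ^ (1 - δ + 3 * (γ / 4)) := by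
    have := h1 x hx1 (x ^ (1 - δ)) (Real.rpow_pos_of_pos hx0 _).le
    rw [← hB1] at this
    refine this.trans ?_
    rw [mul_assoc, ← Real.rpow_add hx0]
    exact mul_le_mul_of_nonneg_left (Real.rpow_le_rpow_of_exponent_le hx1 (by linarith)) hC1.le
  have hc2 : (#B2 : ℝ) ≤ C2 * x ^ (1 - δ + 3 * (γ / 4)) := by
    have := h2 x hx2 B2 fun m hm => by
      rw [hB2] at hm
      exact (mem_filter.1 hm).2
    rwa [← hδ] at this
  have hone : (1 : ℝ) ≤ x ^ (1 - δ + 3 * (γ / 4)) := Real.one_le_rpow hx1 (by linarith)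
  refine hcard.trans ?_
  calc (2 : ℝ) + (#B1 + #B2) ≤ (2 + C1 + C2) * x ^ (1 - δ + 3 * (γ / 4)) := by nlinarith
    _ ≤ x ^ (γ / 4) * x ^ (1 - δ + 3 * (γ / 4)) := mul_le_mul_of_nonneg_right hxx hxe.le
    _ = x ^ (1 - 1 / (2 * A + 6)) := by
        rw [← Real.rpow_add hx0]
        congr 1
        rw [hγ, hδ]
        ring

end Pool.Agent.Lib.MP_c831ba_nt
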