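import Pool.Agent.Lib.MP_c831ba_nt.Basic

/-!
Power bound, structure: if `rad m > x^(1-δ)`, `m ≤ x`, `n ≤ x^A` and `m`, `n` have the same primes,
then for some bounded `J` the primes `p` with `v_p(m) = 1`, `v_p(n) = J` have product `≥ x^δ`.
-/

namespace Pool.Agent.Lib.MP_c831ba_nt

open Finset

/-- The primes with exponent `1` in `m` and exponent `J` in `n`. -/
def clsSet (m n J : ℕ) : Finset ℕ :=
  m.primeFactors.filter fun p => m.factorization p = 1 ∧ n.factorization p = J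

/-- Their product. -/
def cls (m n J : ℕ) : ℕ := ∏ p ∈ clsSet m n J, p

lemma clsSet_prime {m n J p : ℕ} (hp : p ∈ clsSet m n J) : p.Prime :=
  Nat.prime_of_mem_primeFactors (mem_filter.1 hp).1

lemma cls_pos (m n J : ℕ) : 0 < cls m n J :=
  Finset.prod_pos fun _ hp => (clsSet_prime hp).pos

lemma cls_fact (m n J q : ℕ) : (cls m n J).factorization q = if q ∈ clsSet m n J then 1 else 0 := by
  unfold cls
  rw [Nat.factorization_prod fun p hp => (clsSet_prime hp).ne_zero, Finsupp.finsetSum_apply]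
  have h1 : ∀ p ∈ clsSet m n J, p.factorization q = if p = q then 1 else 0 := by
    intro p hp
    rw [(clsSet_prime hp).factorization, Finsupp.single_apply]
  rw [Finset.sum_congr rfl h1, Finset.sum_ite_eq']

theorem cls_split {m n J : ℕ} (hm : m ≠ 0) (hn : n ≠ 0) (hpf : n.primeFactors = m.primeFactors) :
    ∃ h g : ℕ, 1 ≤ h ∧ 1 ≤ g ∧ m = cls m n J * h ∧ n = cls m n J ^ J * g ∧
      g.primeFactors = h.primeFactors := by
  have hc0 : cls m n J ≠ 0 := (cls_pos m n J).ne'
  have hcm : cls m n J ∣ m := by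
    rw [← Nat.factorization_le_iff_dvd hc0 hm]
    intro q
    rw [cls_fact]
    split_ifs with hq
    · exact ((mem_filter.1 hq).2.1).ge
    · exact Nat.zero_le _
  have hcn : cls m n J ^ J ∣ n := by
    rw [← Nat.factorization_le_iff_dvd (pow_ne_zero _ hc0) hn]
    intro q
    rw [Nat.factorization_pow, Finsupp.smul_apply, cls_fact, smul_eq_mul]
    split_ifs with hq
    · rw [mul_one]; exact ((mem_filter.1 hq).2.2).ge
    · rw [mul_zero]; exact Nat.zero_le _
  obtain ⟨h, hh⟩ := hcm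
  obtain ⟨g, hg⟩ := hcn
  have hh0 : h ≠ 0 := by rintro rfl; exact hm (by rw [hh, mul_zero])
  have hg0 : g ≠ 0 := by rintro rfl; exact hn (by rw [hg, mul_zero])
  refine ⟨h, g, Nat.pos_of_ne_zero hh0, Nat.pos_of_ne_zero hg0, hh, hg, ?_⟩
  have e1 : ∀ q, m.factorization q = (cls m n J).factorization q + h.factorization q := by
    intro q
    conv_lhs => rw [hh]
    rw [Nat.factorization_mul hc0 hh0, Finsupp.add_apply]
  have e2 : ∀ q, n.factorization q = J * (cls m n J).factorization q + g.factorization q := by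
    intro q
    conv_lhs => rw [hg]
    rw [Nat.factorization_mul (pow_ne_zero _ hc0) hg0, Finsupp.add_apply, Nat.factorization_pow,
      Finsupp.smul_apply, smul_eq_mul]
  ext q
  rw [← Nat.support_factorization, ← Nat.support_factorization, Finsupp.mem_support_iff,
    Finsupp.mem_support_iff]
  have f1 := e1 q
  have f2 := e2 q
  rw [cls_fact] at f1 f2
  have f3 : q ∈ n.primeFactors ↔ q ∈ m.primeFactors := by rw [hpf]
  rw [← Nat.support_factorization, ← Nat.support_factorization, Finsupp.mem_support_iff,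
    Finsupp.mem_support_iff] at f3
  by_cases hq : q ∈ clsSet m n J
  · have h1 := (mem_filter.1 hq).2
    rw [if_pos hq] at f1 f2
    omega
  · rw [if_neg hq] at f1 f2
    omega

lemma log_fact (m : ℕ) : Real.log m = ∑ p ∈ m.primeFactors, (m.factorization p : ℝ) * Real.log p := by
  rw [Real.log_nat_eq_sum_factorization]
  rfl

lemma log_prod_primes {S : Finset ℕ} (hS : ∀ p ∈ S, p.Prime) :
    Real.log ((∏ p ∈ S, p : ℕ) : ℝ) = ∑ p ∈ S, Real.log p := by
  rw [Nat.cast_prod, Real.log_prod]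
  intro p hp
  exact_mod_cast (hS p hp).ne_zero

lemma sum_tri (K : ℕ) : ∑ J ∈ Icc 1 K, ((K : ℝ) + 1 - J) = K * (K + 1) / 2 := by
  induction K with
  | zero => simp
  | succ K ih =>
    rw [Finset.sum_Icc_succ_top (by omega)]
    have : ∑ J ∈ Icc 1 K, (((K + 1 : ℕ) : ℝ) + 1 - J) = ∑ J ∈ Icc 1 K, (((K : ℝ) + 1 - J) + 1) := by
      refine Finset.sum_congr rfl fun J _ => ?_
      push_cast; ring
    rw [this, Finset.sum_add_distrib, ih]
    simp only [Finset.sum_const, Nat.card_Icc, nsmul_eq_mul]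
    have h2 : ((K + 1 - 1 : ℕ) : ℝ) = K := by simp
    rw [h2]
    push_cast
    ring

/-- The weight inequality. -/
theorem weight_ineq {m n K : ℕ} (hm : m ≠ 0) (hpf : n.primeFactors = m.primeFactors) :
    ((K : ℝ) + 1) * (2 * Real.log ((∏ p ∈ m.primeFactors, p : ℕ) : ℝ) - Real.log m) -
      ∑ J ∈ Icc 1 K, ((K : ℝ) + 1 - J) * Real.log (cls m n J) ≤ Real.log n := by
  have hlp : ∀ p ∈ m.primeFactors, 0 ≤ Real.log (p : ℝ) := fun p _ => Real.log_natCast_nonneg p
  rw [log_fact n, hpf, log_fact m, log_prod_primes fun p hp => Nat.prime_of_mem_primeFactors hp]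
  have h1 : ∀ J ∈ Icc 1 K, ((K : ℝ) + 1 - J) * Real.log (cls m n J) =
      ∑ p ∈ m.primeFactors, (if m.factorization p = 1 ∧ n.factorization p = J then
        ((K : ℝ) + 1 - J) * Real.log p else 0) := by
    intro J _
    unfold cls
    rw [log_prod_primes fun p hp => clsSet_prime hp, Finset.mul_sum]
    unfold clsSet
    rw [Finset.sum_filter]
  rw [Finset.sum_congr rfl h1, Finset.sum_comm, Finset.mul_sum, ← Finset.sum_sub_distrib,
    Finset.mul_sum, ← Finset.sum_sub_distrib]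
  refine Finset.sum_le_sum fun p hp => ?_
  have hl := hlp p hp
  have hv : 1 ≤ m.factorization p :=
    (Nat.prime_of_mem_primeFactors hp).factorization_pos_of_dvd hm (Nat.dvd_of_mem_primeFactors hp)
  have hw : 1 ≤ n.factorization p := by
    have : p ∈ n.primeFactors := hpf ▸ hp
    rw [← Nat.support_factorization, Finsupp.mem_support_iff] at this
    omega
  have hsum0 : ∀ J ∈ Icc 1 K, (0 : ℝ) ≤ (if m.factorization p = 1 ∧ n.factorization p = J then
        ((K : ℝ) + 1 - J) * Real.log p else 0) := by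
    intro J hJ
    split_ifs
    · have : (J : ℝ) ≤ K := by exact_mod_cast (mem_Icc.1 hJ).2
      exact mul_nonneg (by linarith) hl
    · exact le_rfl
  by_cases hm1 : m.factorization p = 1
  · by_cases hK : n.factorization p ≤ K
    · have h2 : ∑ J ∈ Icc 1 K, (if m.factorization p = 1 ∧ n.factorization p = J then
          ((K : ℝ) + 1 - J) * Real.log p else 0) = ((K : ℝ) + 1 - n.factorization p) * Real.log p := by
        rw [Finset.sum_eq_single (n.factorization p)]
        · rw [if_pos ⟨hm1, rfl⟩]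
        · intro b _ hb
          rw [if_neg]
          intro hc
          exact hb hc.2.symm
        · intro hc
          exact absurd (mem_Icc.2 ⟨hw, hK⟩) hc
      rw [h2, hm1]
      push_cast
      nlinarith
    · have h3 : ((K : ℝ) + 1) ≤ n.factorization p := by
        have : K + 1 ≤ n.factorization p := by omega
        exact_mod_cast this
      have h4 := Finset.sum_nonneg hsum0
      have h8 : ((K : ℝ) + 1) * (2 * Real.log p - m.factorization p * Real.log p) ≤
          (n.factorization p : ℝ) * Real.log p := by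
        rw [hm1]
        push_cast
        nlinarith
      linarith
  · have h5 : (2 : ℝ) ≤ m.factorization p := by
      have : 2 ≤ m.factorization p := by omega
      exact_mod_cast this
    have h4 := Finset.sum_nonneg hsum0
    have h6 : (0 : ℝ) ≤ (n.factorization p : ℝ) * Real.log p := mul_nonneg (Nat.cast_nonneg _) hl
    have h7 : (K + 1 : ℝ) * (2 * Real.log p - m.factorization p * Real.log p) ≤ 0 := by
      refine mul_nonpos_of_nonneg_of_nonpos (by positivity) ?_
      nlinarith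
    linarith

/-- One class is heavy. -/
theorem exists_class {A x : ℝ} (hA : 1 ≤ A) (hx : 1 < x) {m n : ℕ} (hm : 1 ≤ m) (hn : 1 ≤ n)
    (hmx : (m : ℝ) ≤ x) (hnx : (n : ℝ) ≤ x ^ A) (hpf : n.primeFactors = m.primeFactors)
    (hrad : x ^ (1 - 1 / (2 * A + 5)) < ((∏ p ∈ m.primeFactors, p : ℕ) : ℝ)) :
    ∃ J ∈ Icc 1 (⌊2 * A⌋₊ + 3), x ^ (1 / (2 * A + 5)) ≤ (cls m n J : ℝ) := by
  by_contra hcon
  push Not at hcon
  have hx0 : 0 < x := by linarith
  have hL : 0 < Real.log x := Real.log_pos hx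
  obtain ⟨L, hLd⟩ : ∃ L, L = Real.log x := ⟨_, rfl⟩
  obtain ⟨δ, hδ⟩ : ∃ δ, δ = 1 / (2 * A + 5) := ⟨_, rfl⟩
  obtain ⟨K, hK⟩ : ∃ K, K = ⌊2 * A⌋₊ + 3 := ⟨_, rfl⟩
  have h25 : 0 < 2 * A + 5 := by linarith
  have hδ0 : 0 < δ := by rw [hδ]; positivity
  have hδm : δ * (2 * A + 5) = 1 := by rw [hδ]; field_simp
  rw [← hK, ← hδ] at hcon
  rw [← hδ] at hrad
  rw [← hLd] at hL
  have hR0 : (0 : ℝ) < ((∏ p ∈ m.primeFactors, p : ℕ) : ℝ) := by
    have : 0 < x ^ (1 - δ) := Real.rpow_pos_of_pos hx0 _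
    linarith
  have h1 : (1 - δ) * L ≤ Real.log ((∏ p ∈ m.primeFactors, p : ℕ) : ℝ) := by
    have := Real.log_le_log (Real.rpow_pos_of_pos hx0 _) hrad.le
    rwa [Real.log_rpow hx0, ← hLd] at this
  have hm0 : (0 : ℝ) < m := by exact_mod_cast hm
  have hn0 : (0 : ℝ) < n := by exact_mod_cast hn
  have h2 : Real.log m ≤ L := by rw [hLd]; exact Real.log_le_log hm0 hmx
  have h3 : Real.log n ≤ A * L := by
    have := Real.log_le_log hn0 hnx
    rwa [Real.log_rpow hx0, ← hLd] at this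
  have h4 := weight_ineq (K := K) (by omega : m ≠ 0) hpf
  have h5 : ∑ J ∈ Icc 1 K, ((K : ℝ) + 1 - J) * Real.log (cls m n J) ≤
      ∑ J ∈ Icc 1 K, ((K : ℝ) + 1 - J) * (δ * L) := by
    refine Finset.sum_le_sum fun J hJ => ?_
    have hJK : (J : ℝ) ≤ K := by exact_mod_cast (mem_Icc.1 hJ).2
    refine mul_le_mul_of_nonneg_left ?_ (by linarith)
    have hc0 : (0 : ℝ) < cls m n J := by exact_mod_cast cls_pos m n J
    have := Real.log_le_log hc0 (hcon J hJ).le
    rwa [Real.log_rpow hx0, ← hLd] at this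
  rw [← Finset.sum_mul, sum_tri] at h5
  have hK0 : (0 : ℝ) ≤ K := Nat.cast_nonneg K
  have h6 : ((K : ℝ) + 1) * ((1 - 2 * δ) * L) ≤ ((K : ℝ) + 1) *
      (2 * Real.log ((∏ p ∈ m.primeFactors, p : ℕ) : ℝ) - Real.log m) := by
    refine mul_le_mul_of_nonneg_left ?_ (by linarith)
    nlinarith
  have h7 : (((K : ℝ) + 1) * (1 - 2 * δ) - (K : ℝ) * (K + 1) / 2 * δ) * L ≤ A * L := by
    have e1 : (((K : ℝ) + 1) * (1 - 2 * δ) - (K : ℝ) * (K + 1) / 2 * δ) * L =
      ((K : ℝ) + 1) * ((1 - 2 * δ) * L) - (K : ℝ) * (K + 1) / 2 * (δ * L) := by ring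
    rw [e1]
    linarith
  have h8 : ((K : ℝ) + 1) * (1 - 2 * δ) - (K : ℝ) * (K + 1) / 2 * δ ≤ A :=
    le_of_mul_le_mul_right h7 hL
  have h9 : (((K : ℝ) + 1) * (1 - 2 * δ) - (K : ℝ) * (K + 1) / 2 * δ) * (2 * A + 5) ≤
      A * (2 * A + 5) := mul_le_mul_of_nonneg_right h8 h25.le
  have h10 : (((K : ℝ) + 1) * (1 - 2 * δ) - (K : ℝ) * (K + 1) / 2 * δ) * (2 * A + 5) =
      ((K : ℝ) + 1) * (2 * A + 3 - K / 2) := by
    have : (((K : ℝ) + 1) * (1 - 2 * δ) - (K : ℝ) * (K + 1) / 2 * δ) * (2 * A + 5) =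
      ((K : ℝ) + 1) * ((2 * A + 5) - (2 + K / 2) * (δ * (2 * A + 5))) := by ring
    rw [this, hδm]
    ring
  rw [h10] at h9
  have hf1 : (⌊2 * A⌋₊ : ℝ) ≤ 2 * A := Nat.floor_le (by linarith)
  have hf2 : 2 * A < (⌊2 * A⌋₊ : ℝ) + 1 := Nat.lt_floor_add_one _
  obtain ⟨φ, hφ⟩ : ∃ φ : ℝ, φ = 2 * A - ⌊2 * A⌋₊ := ⟨_, rfl⟩
  have hKφ : (K : ℝ) = 2 * A + 3 - φ := by
    rw [hK, hφ]; push_cast; ring
  have hφ0 : 0 ≤ φ := by rw [hφ]; linarith
  have hφ1 : φ < 1 := by rw [hφ]; linarith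
  rw [hKφ] at h9
  nlinarith

end Pool.Agent.Lib.MP_c831ba_nt
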